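import Pool.Agent.X289.EI.Alg
import Pool.Agent.X320.DS.St

/-! The eigenvalue condition at Frobenius elements. -/

set_option autoImplicit false
set_option linter.all false

namespace Pool.Agent.X289.EI

open Polynomial Matrix NumberField IsDedekindDomain Filter MeasureTheory Topology
open Pool.Agent.W401.Cheb (GK IsFrob dens)
open Pool.Agent.X320.DS (algT gens ent_mem ent_inv_mem left_mem right_mem inv_mem sum_fun_mem smul_fun_mem algT_fg
  exists_dual_in Semisimple contAlg algT_cont exists_closed exists_coset compHom cheb_count_freq)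

section

variable {G : Type*} [Group G] {F : Type*} [Field F] {n m : ℕ} {θ : G →* GL (Fin m) F} {ρ : G →* GL (Fin n) F}

/-- the condition at `g` -/
def Among (ρ : G →* GL (Fin n) F) (θ : G →* GL (Fin m) F) (g : G) : Prop :=
  ∀ x, (ρ g : Matrix (Fin n) (Fin n) F).charpoly.IsRoot x → (θ g : Matrix (Fin m) (Fin m) F).charpoly.IsRoot x

theorem isRoot_iff {k : ℕ} (M : Matrix (Fin k) (Fin k) F) (x : F) :
    M.charpoly.IsRoot x ↔ (Matrix.scalar (Fin k) x - M).det = 0 := by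
  rw [IsRoot.def, Matrix.eval_charpoly]

theorem aeval_eigen {k : ℕ} {M : Matrix (Fin k) (Fin k) F} {x : F} {w : Fin k → F} (h : M *ᵥ w = x • w)
    (q : F[X]) : (aeval M q) *ᵥ w = q.eval x • w := by
  induction q using Polynomial.induction_on with
  | C a =>
    rw [aeval_C, eval_C, Algebra.algebraMap_eq_smul_one, Matrix.smul_mulVec, Matrix.one_mulVec]
  | add p q hp hq => rw [map_add, Matrix.add_mulVec, hp, hq, eval_add, add_smul]
  | monomial j a hj =>
    have e : eval x (C a * X ^ j * X) = x * eval x (C a * X ^ j) := by rw [eval_mul, eval_X, mul_comm]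
    rw [pow_succ, ← mul_assoc, e, map_mul, aeval_X, ← Matrix.mulVec_mulVec, h, Matrix.mulVec_smul, hj, smul_smul]

theorem among_iff [IsAlgClosed F] (g : G) : Among ρ θ g ↔
    (aeval (ρ g : Matrix (Fin n) (Fin n) F) (θ g : Matrix (Fin m) (Fin m) F).charpoly) ^ n = 0 := by
  constructor
  · intro h
    obtain ⟨s, hs⟩ := dvd_pow_of_roots (Matrix.charpoly_monic (ρ g : Matrix (Fin n) (Fin n) F))
      (by rw [Matrix.charpoly_natDegree_eq_dim, Fintype.card_fin]) h
    rw [← map_pow, hs, map_mul, Matrix.aeval_self_charpoly, zero_mul]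
  · intro h x hx
    rw [isRoot_iff, ← Matrix.exists_mulVec_eq_zero_iff] at hx
    obtain ⟨w, hw0, hw⟩ := hx
    have h1 : (ρ g : Matrix (Fin n) (Fin n) F) *ᵥ w = x • w := by
      rw [Matrix.sub_mulVec, sub_eq_zero] at hw
      rw [← hw, Matrix.scalar_apply, ← Matrix.smul_one_eq_diagonal, Matrix.smul_mulVec, Matrix.one_mulVec]
    have h2 := aeval_eigen h1 ((θ g : Matrix (Fin m) (Fin m) F).charpoly ^ n)
    rw [map_pow, h, Matrix.zero_mulVec, eval_pow] at h2
    have h3 := (smul_eq_zero.1 h2.symm).resolve_right hw0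
    exact eq_zero_of_pow_eq_zero h3

/-- the function whose vanishing is the condition -/
noncomputable def fn (ρ : G →* GL (Fin n) F) (θ : G →* GL (Fin m) F) (s t : Fin n) (g : G) : F :=
  ((aeval (ρ g : Matrix (Fin n) (Fin n) F) (θ g : Matrix (Fin m) (Fin m) F).charpoly) ^ n) s t

theorem fn_mem (s t : Fin n) : fn ρ θ s t ∈ algT θ ⊔ algT ρ := by
  have h : fn ρ θ s t = (((aeval (mB θ ρ) (mT θ ρ).charpoly) ^ n) s t).1 := by
    funext g
    have e1 : (mB θ ρ).map (evB θ ρ g).toRingHom = (ρ g : Matrix (Fin n) (Fin n) F) := by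
      ext i j
      rfl
    have e2 : (mT θ ρ).map (evB θ ρ g).toRingHom = (θ g : Matrix (Fin m) (Fin m) F) := by
      ext i j
      rfl
    have h0 := map_poly (evB θ ρ g).toRingHom (mB θ ρ) (mT θ ρ) n
    rw [e1, e2] at h0
    have h1 := congrFun (congrFun h0 s) t
    unfold fn
    exact h1.symm
  rw [h]
  exact (((aeval (mB θ ρ) (mT θ ρ).charpoly) ^ n) s t).2

theorem among_iff_fn [IsAlgClosed F] (g : G) : Among ρ θ g ↔ ∀ s t, fn ρ θ s t g = 0 := by
  rw [among_iff]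
  constructor
  · intro h s t
    unfold fn
    rw [h]
    rfl
  · intro h
    ext s t
    exact h s t

theorem among_conj {g : G} (h : Among ρ θ g) (τ : G) : Among ρ θ (τ * g * τ⁻¹) := by
  intro x hx
  have e : ∀ {k : ℕ} (φ : G →* GL (Fin k) F), (φ (τ * g * τ⁻¹) : Matrix (Fin k) (Fin k) F).charpoly =
      (φ g : Matrix (Fin k) (Fin k) F).charpoly := by
    intro k φ
    rw [map_mul, map_mul, map_inv, Units.val_mul, Units.val_mul, Matrix.coe_units_inv]
    exact Matrix.charpoly_units_conj (φ τ) (φ g : Matrix (Fin k) (Fin k) F)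
  rw [e] at hx ⊢
  exact h x hx

/-- subquotients of the space of `θ` -/
def SubquotientOf (ρ : G →* GL (Fin n) F) (θ : G →* GL (Fin m) F) : Prop :=
  ∃ (S : Submodule F (Fin m → F)) (π : S →ₗ[F] (Fin n → F)), Function.Surjective π ∧
    ∀ g (u : S), ∃ h : (θ g : Matrix (Fin m) (Fin m) F) *ᵥ u.1 ∈ S,
      π ⟨(θ g : Matrix (Fin m) (Fin m) F) *ᵥ u.1, h⟩ = (ρ g : Matrix (Fin n) (Fin n) F) *ᵥ π u

theorem among_of_subquotient (h : SubquotientOf ρ θ) (g : G) : Among ρ θ g := by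
  intro x hx
  obtain ⟨S, π, hπ, hS⟩ := h
  rw [isRoot_iff, ← Matrix.exists_vecMul_eq_zero_iff] at hx
  obtain ⟨v, hv0, hv⟩ := hx
  choose hm hc using hS g
  let T : S →ₗ[F] S :=
    { toFun := fun u => x • u - ⟨(θ g : Matrix (Fin m) (Fin m) F) *ᵥ u.1, hm u⟩
      map_add' := fun u w => by
        apply Subtype.ext
        show x • (u.1 + w.1) - (θ g : Matrix (Fin m) (Fin m) F) *ᵥ (u.1 + w.1) =
          (x • u.1 - (θ g : Matrix (Fin m) (Fin m) F) *ᵥ u.1) + (x • w.1 - (θ g : Matrix (Fin m) (Fin m) F) *ᵥ w.1)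
        rw [Matrix.mulVec_add, smul_add]
        abel
      map_smul' := fun c u => by
        apply Subtype.ext
        show x • (c • u.1) - (θ g : Matrix (Fin m) (Fin m) F) *ᵥ (c • u.1) =
          c • (x • u.1 - (θ g : Matrix (Fin m) (Fin m) F) *ᵥ u.1)
        rw [Matrix.mulVec_smul, smul_sub, smul_comm] }
  have hT : ∀ u, v ⬝ᵥ π (T u) = 0 := by
    intro u
    have h1 : π (T u) = (Matrix.scalar (Fin n) x - (ρ g : Matrix (Fin n) (Fin n) F)) *ᵥ π u := by
      show π (x • u - ⟨(θ g : Matrix (Fin m) (Fin m) F) *ᵥ u.1, hm u⟩) = _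
      rw [map_sub, hc, map_smul, Matrix.sub_mulVec, Matrix.scalar_apply, ← Matrix.smul_one_eq_diagonal,
        Matrix.smul_mulVec, Matrix.one_mulVec]
    rw [h1, Matrix.dotProduct_mulVec, hv, zero_dotProduct]
  have hns : ¬ Function.Surjective T := by
    intro hs
    apply hv0
    funext i
    obtain ⟨u, hu⟩ := hπ (Pi.single i 1)
    obtain ⟨w, rfl⟩ := hs u
    have h1 := hT w
    rw [hu, dotProduct_single, mul_one] at h1
    exact h1
  have hni : ¬ Function.Injective T := fun hi => hns (LinearMap.injective_iff_surjective.1 hi)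
  rw [← LinearMap.ker_eq_bot] at hni
  obtain ⟨u, hu, hu0⟩ := (Submodule.ne_bot_iff _).1 hni
  rw [isRoot_iff, ← Matrix.exists_mulVec_eq_zero_iff]
  refine ⟨u.1, fun h => hu0 (Subtype.ext h), ?_⟩
  have h1 : x • u.1 - (θ g : Matrix (Fin m) (Fin m) F) *ᵥ u.1 = 0 := congrArg Subtype.val hu
  rw [Matrix.sub_mulVec, Matrix.scalar_apply, ← Matrix.smul_one_eq_diagonal, Matrix.smul_mulVec, Matrix.one_mulVec]
  exact h1

end

section

variable {K : Type} [Field K] [NumberField K] {F : Type} [Field F] [IsAlgClosed F] [CharZero F]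
  [TopologicalSpace F] [IsTopologicalRing F] [T2Space F] {n m : ℕ}
  {ρ : GK K →* GL (Fin n) F} {θ : GK K →* GL (Fin m) F}

theorem closed_among (hρ : Continuous ρ) (hθ : Continuous θ) : IsClosed {g | Among ρ θ g} := by
  have e : {g | Among ρ θ g} = ⋂ s, ⋂ t, {g | fn ρ θ s t g = 0} := by
    ext g
    rw [Set.mem_setOf_eq, among_iff_fn]
    simp
  rw [e]
  have hc : algT θ ⊔ algT ρ ≤ contAlg (GK K) F := sup_le (algT_cont hθ) (algT_cont hρ)
  exact isClosed_iInter fun s => isClosed_iInter fun t => isClosed_singleton.preimage (hc (fn_mem s t))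

/-- upper density one -/
theorem rootsIn_of_density (hρ : Continuous ρ) (hθ : Continuous θ)
    (hd : ∀ δ : ℝ, δ < 1 → ∃ᶠ N in atTop, δ ≤
      dens (fun v : HeightOneSpectrum (𝓞 K) => ∀ σ, IsFrob v σ → Among ρ θ σ⁻¹) N) : RootsIn ρ θ := by
  intro g
  by_contra hg
  have hg' : ¬ Among ρ θ g := hg
  have hop : IsOpen {g | ¬ Among ρ θ g} := (closed_among hρ hθ).isOpen_compl
  have h1 : {x : GK K | ¬ Among ρ θ (g * x)} ∈ 𝓝 (1 : GK K) := by
    refine (hop.preimage (continuous_const_mul g)).mem_nhds ?_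
    show ¬ Among ρ θ (g * 1)
    rwa [mul_one]
  obtain ⟨V, hVs, hVo, hV1⟩ := mem_nhds_iff.1 h1
  obtain ⟨U, hU⟩ := ProfiniteGrp.exist_openNormalSubgroup_sub_open_nhds_of_one hVo hV1
  haveI : U.toSubgroup.Normal := U.isNormal'
  have hfin : Finite (GK K ⧸ U.toSubgroup) := Subgroup.quotient_finite_of_isOpen _ U.isOpen'
  set H : Set (GK K) := {g | Among ρ θ g} with hH
  have hcard : (0 : ℝ) < (Nat.card (GK K ⧸ U.toSubgroup) : ℝ) := by exact_mod_cast Nat.card_pos
  set δ : ℝ := 1 - 1 / (2 * (Nat.card (GK K ⧸ U.toSubgroup) : ℝ)) with hδ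
  have hδ1 : δ < 1 := by
    rw [hδ]
    have : 0 < 1 / (2 * (Nat.card (GK K ⧸ U.toSubgroup) : ℝ)) := by positivity
    linarith
  have key := cheb_count_freq (fun v : HeightOneSpectrum (𝓞 K) => ∀ σ, IsFrob v σ → Among ρ θ σ⁻¹) (hd δ hδ1)
    U.toSubgroup U.isOpen' H (fun σ hσ τ => among_conj hσ τ) (fun v hv σ hσ => hv σ hσ)
  have h2 : (QuotientGroup.mk : GK K → GK K ⧸ U.toSubgroup) '' H ⊆ {(QuotientGroup.mk g : GK K ⧸ U.toSubgroup)}ᶜ := by
    rintro _ ⟨x, hx, rfl⟩ h
    have h3 : g⁻¹ * x ∈ U.toSubgroup := QuotientGroup.eq.1 (Set.mem_singleton_iff.1 h).symm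
    have h4 := hVs (hU h3)
    have h5 : ¬ Among ρ θ (g * (g⁻¹ * x)) := h4
    rw [mul_inv_cancel_left] at h5
    exact h5 hx
  have h3 := Set.ncard_le_ncard h2 (Set.toFinite _)
  have h4 : ({(QuotientGroup.mk g : GK K ⧸ U.toSubgroup)} : Set _).ncard +
      ({(QuotientGroup.mk g : GK K ⧸ U.toSubgroup)}ᶜ : Set (GK K ⧸ U.toSubgroup)).ncard =
      Nat.card (GK K ⧸ U.toSubgroup) := Set.ncard_add_ncard_compl _
  rw [Set.ncard_singleton] at h4
  have h5 : ((((QuotientGroup.mk : GK K → GK K ⧸ U.toSubgroup) '' H).ncard : ℝ)) + 1 ≤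
      (Nat.card (GK K ⧸ U.toSubgroup) : ℝ) := by
    have : ((QuotientGroup.mk : GK K → GK K ⧸ U.toSubgroup) '' H).ncard + 1 ≤
        Nat.card (GK K ⧸ U.toSubgroup) := by omega
    exact_mod_cast this
  have h6 : δ * (Nat.card (GK K ⧸ U.toSubgroup) : ℝ) = (Nat.card (GK K ⧸ U.toSubgroup) : ℝ) - 1 / 2 := by
    rw [hδ]
    field_simp
  linarith

/-- positive upper density, connected Zariski closure -/
theorem rootsIn_of_connected (hρ : Continuous ρ) (hθ : Continuous θ)
    (hcon : ∀ f ∈ algT θ ⊔ algT ρ, ∀ H : Subgroup (GK K), IsOpen (H : Set (GK K)) → (∀ h ∈ H, f h = 0) → f = 0)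
    {δ : ℝ} (hδ : 0 < δ)
    (hd : ∃ᶠ N in atTop, δ ≤
      dens (fun v : HeightOneSpectrum (𝓞 K) => ∀ σ, IsFrob v σ → Among ρ θ σ⁻¹) N) : RootsIn ρ θ := by
  classical
  letI : MeasurableSpace (GK K) := borel _
  haveI : BorelSpace (GK K) := ⟨rfl⟩
  set μ : Measure (GK K) := Measure.haarMeasure (⊤ : TopologicalSpace.PositiveCompacts (GK K)) with hμ
  haveI : IsProbabilityMeasure μ := ⟨by
    have := Measure.haarMeasure_self (K₀ := (⊤ : TopologicalSpace.PositiveCompacts (GK K)))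
    rw [hμ]
    rwa [TopologicalSpace.PositiveCompacts.coe_top] at this⟩
  set A : Subalgebra F (GK K → F) := algT θ ⊔ algT ρ with hA
  have hAc : A ≤ contAlg (GK K) F := sup_le (algT_cont hθ) (algT_cont hρ)
  haveI hAN : IsNoetherianRing A := by
    have h1 : A.FG := (fg_alg θ).sup (fg_alg ρ)
    haveI : Algebra.FiniteType F A := A.fg_iff_finiteType.1 h1
    exact Algebra.FiniteType.isNoetherianRing F A
  have hcl : ∀ f ∈ A, IsClosed {x | f x = 0} := fun f hf => isClosed_singleton.preimage (hAc hf)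
  have htr : ∀ g : GK K, ∀ f ∈ A, (fun x => f (g * x)) ∈ A := fun g f hf => big_left (θ := θ) (ρ := ρ) hf g
  obtain ⟨_, hj⟩ := exists_closed μ (fun _ : Unit => {g | Among ρ θ g}) (fun _ => closed_among hρ hθ) hδ
    _ hd (fun v hv σ hσ => ⟨(), hv σ hσ⟩)
  have e : {x | ∀ f ∈ {f | ∃ s t, f = fn ρ θ s t}, f x = 0} = {g | Among ρ θ g} := by
    ext x
    rw [Set.mem_setOf_eq, Set.mem_setOf_eq, among_iff_fn]
    constructor
    · intro h s t
      exact h _ ⟨s, t, rfl⟩
    · rintro h _ ⟨s, t, rfl⟩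
      exact h s t
  obtain ⟨H0, hH0, x0, hx0⟩ := exists_coset μ A hcl htr {f | ∃ s t, f = fn ρ θ s t} (fun f hf => by
    obtain ⟨s, t, rfl⟩ := hf
    exact fn_mem s t) (by rwa [e])
  intro g
  show Among ρ θ g
  rw [among_iff_fn]
  intro s t
  have h1 : (fun x => fn ρ θ s t (x * x0)) = 0 := by
    refine hcon _ (big_right (θ := θ) (ρ := ρ) (fn_mem s t) x0) H0 hH0 fun h hh => ?_
    exact hx0 h hh _ ⟨s, t, rfl⟩
  have h2 := congrFun h1 (g * x0⁻¹)
  have h3 : fn ρ θ s t (g * x0⁻¹ * x0) = 0 := h2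
  rwa [inv_mul_cancel_right] at h3

end

end Pool.Agent.X289.EI
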