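import Pool.Agent.X289.EI.Pow
import Pool.Agent.X289.EI.Gal
import Pool.Agent.X289.TF.Clifford

/-! The criterion on a subgroup of finite index, with powers of eigenvalues. -/

set_option autoImplicit false
set_option linter.all false

namespace Pool.Agent.X289.EI

open Polynomial Matrix
open scoped Pointwise
open Pool.Agent.X320.DS (algT gens ent_mem ent_inv_mem left_mem right_mem inv_mem sum_fun_mem smul_fun_mem algT_fg
  exists_dual_in Semisimple)

section

variable {G : Type*} [Group G] {F : Type*} [Field F] {n m : ℕ} {θ : G →* GL (Fin m) F} {ρ : G →* GL (Fin n) F}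

theorem entries_gen [IsAlgClosed F] [CharZero F] (hfg : (Subalgebra.toSubmodule (big θ ρ)).FG)
    (hpt : ∀ y : big θ ρ →ₐ[F] F, Over θ ρ y → ∀ b, y b = evB θ ρ 1 b) {f : G → F}
    (hf : f ∈ algT ρ) : f ∈ algT θ := by
  haveI hfin : Module.Finite (algT θ) (big θ ρ) := Module.Finite.iff_fg.2 hfg
  have hint : ∀ b : big θ ρ, IsIntegral (algT θ) b := fun b => Algebra.IsIntegral.isIntegral b
  haveI : IsNoetherianRing (big θ ρ) := big_noeth
  have key := core (F := F) (A := algT θ) (B := big θ ρ) (evA θ) (evB θ ρ 1) hint (fun a => rfl)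
    (fun y hy b => hpt y (fun a ha => hy ⟨a.1, ha⟩) b)
    (fun δ h1 h2 b => tan_zero ⟨h1, fun a ha => h2 ⟨a.1, ha⟩⟩ hint b)
  have hsup : Subalgebra.toSubmodule (big θ ρ) ≤ Subalgebra.toSubmodule (⊥ : Subalgebra (algT θ) (G → F)) ⊔
      RingHom.ker (evA θ).toRingHom • Subalgebra.toSubmodule (big θ ρ) := by
    intro b hb
    have hb' : b ∈ big θ ρ := hb
    let b' : big θ ρ := ⟨b, hb'⟩
    let c : big θ ρ := algebraMap F (big θ ρ) (b 1)
    have h1 : b' - c ∈ RingHom.ker (evB θ ρ 1).toRingHom := by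
      show b 1 - b 1 = 0
      exact sub_self _
    have h2 := ker_span (big θ ρ) (key h1)
    have e : b = (c : G → F) + ((b' - c : big θ ρ) : G → F) := by
      show b = (c : G → F) + (b - (c : G → F))
      rw [add_sub_cancel]
    rw [e]
    refine Submodule.add_mem_sup ?_ h2
    exact (⊥ : Subalgebra (algT θ) (G → F)).algebraMap_mem (algebraMap F (algT θ) (b 1))
  obtain ⟨r, hr1, hr2⟩ := Submodule.exists_sub_one_mem_and_smul_le_of_fg_of_le_sup hfg le_rfl hsup
  have hr3 : ∀ b ∈ big θ ρ, r.1 * b ∈ algT θ := by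
    intro b hb
    have h1 : r • b ∈ Subalgebra.toSubmodule (⊥ : Subalgebra (algT θ) (G → F)) :=
      hr2 (Submodule.smul_mem_pointwise_smul b r _ hb)
    obtain ⟨a, ha⟩ := Algebra.mem_bot.1 h1
    have h2 : r.1 * b = a.1 := ha.symm
    rw [h2]
    exact a.2
  have hr4 : r.1 1 = 1 := by
    have h1 : r.1 1 - 1 = 0 := hr1
    exact sub_eq_zero.1 h1
  let I : Submodule F (G → F) :=
    { carrier := {f | f ∈ algT θ ∧ ∀ b ∈ big θ ρ, f * b ∈ algT θ}
      zero_mem' := ⟨(algT θ).zero_mem, fun b _ => by rw [zero_mul]; exact (algT θ).zero_mem⟩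
      add_mem' := fun {f f'} h h' => ⟨(algT θ).add_mem h.1 h'.1, fun b hb => by
        rw [add_mul]
        exact (algT θ).add_mem (h.2 b hb) (h'.2 b hb)⟩
      smul_mem' := fun c f h => ⟨(algT θ).smul_mem h.1 c, fun b hb => by
        rw [smul_mul_assoc]
        exact (algT θ).smul_mem (h.2 b hb) c⟩ }
  obtain ⟨ι, _, u, v, hv, huv⟩ := coprod θ r.2
  have hone : (1 : G → F) ∈ I := one_mem_of (A := algT θ) I
    (fun a ha f hf => ⟨(algT θ).mul_mem ha hf.1, fun b hb => by
      rw [mul_assoc]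
      exact (algT θ).mul_mem ha (hf.2 b hb)⟩)
    (fun f hf g => ⟨right_mem θ g hf.1, fun b hb => by
      have h1 := hf.2 _ (big_right hb g⁻¹)
      have h2 := right_mem θ g h1
      have e : (fun x => (f * fun x => b (x * g⁻¹)) (x * g)) = (fun x => f (x * g)) * b := by
        funext x
        show f (x * g) * b (x * g * g⁻¹) = f (x * g) * b x
        rw [mul_inv_cancel_right]
      rw [← e]
      exact h2⟩)
    (r := r.1) ⟨r.2, hr3⟩ hr4 u v (fun i => inv_mem θ (hv i)) huv
  have h1 := hone.2 f (of_right hf)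
  rwa [one_mul] at h1

theorem LieIrr.semisimple (h : LieIrr ρ) : Semisimple ρ := by
  intro W hW
  have h1 := h.2 ⊤ inferInstance
  by_cases hb : W = ⊥
  · subst hb
    exact ⟨⊤, fun _ _ _ => Submodule.mem_top, isCompl_bot_top⟩
  · have hall : ∀ M : Matrix (Fin n) (Fin n) F, ∀ w ∈ W, M *ᵥ w ∈ W := by
      intro M
      have hM : M ∈ Submodule.span F ((fun g => (ρ g : Matrix (Fin n) (Fin n) F)) '' ((⊤ : Subgroup G) : Set G)) := by
        rw [h1]; trivial
      refine Submodule.span_induction (p := fun M _ => ∀ w ∈ W, M *ᵥ w ∈ W) ?_ ?_ ?_ ?_ hM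
      · rintro _ ⟨g, _, rfl⟩ w hw
        exact hW g w hw
      · intro w _
        rw [Matrix.zero_mulVec]
        exact W.zero_mem
      · intro M M' _ _ h h' w hw
        rw [Matrix.add_mulVec]
        exact W.add_mem (h w hw) (h' w hw)
      · intro c M _ h w hw
        rw [Matrix.smul_mulVec]
        exact W.smul_mem c (h w hw)
    obtain ⟨w, hw, hw0⟩ := (Submodule.ne_bot_iff _).1 hb
    obtain ⟨j, hj⟩ : ∃ j, w j ≠ 0 := by
      by_contra hcon
      push Not at hcon
      exact hw0 (funext hcon)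
    have ht : W = ⊤ := by
      rw [eq_top_iff]
      intro u _
      have h2 := hall (Matrix.of fun i l => if l = j then u i / w j else 0) w hw
      have e : (Matrix.of fun i l => if l = j then u i / w j else 0) *ᵥ w = u := by
        funext i
        show ∑ l, (if l = j then u i / w j else 0) * w l = u i
        rw [Finset.sum_eq_single j]
        · rw [if_pos rfl, div_mul_cancel₀ _ hj]
        · intro l _ hl
          rw [if_neg hl, zero_mul]
        · simp
      rwa [e] at h2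
    subst ht
    refine ⟨⊥, fun g w hw => ?_, isCompl_top_bot⟩
    rw [Submodule.mem_bot] at hw ⊢
    rw [hw, Matrix.mulVec_zero]

theorem entries_pow [IsAlgClosed F] [CharZero F] {k : ℕ} (hk : 0 < k) (hkn : Nat.Coprime k n)
    (h : RootsPow k ρ θ) (hirr : LieIrr ρ) (hdet : ∀ g, (ρ g : Matrix (Fin n) (Fin n) F).det = 1)
    {f : G → F} (hf : f ∈ algT ρ) : f ∈ algT θ := by
  have hfg := big_fg' hk h hirr.semisimple
  haveI hfin : Module.Finite (algT θ) (big θ ρ) := Module.Finite.iff_fg.2 hfg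
  have hint : ∀ b : big θ ρ, IsIntegral (algT θ) b := fun b => Algebra.IsIntegral.isIntegral b
  exact entries_gen hfg (fun y hy b => point_eq' hkn h hirr hdet hint hy b) hf

/-- the condition at `g` -/
def AmongPow (k : ℕ) (ρ : G →* GL (Fin n) F) (θ : G →* GL (Fin m) F) (g : G) : Prop :=
  ∀ x, (ρ g : Matrix (Fin n) (Fin n) F).charpoly.IsRoot x →
    (θ g : Matrix (Fin m) (Fin m) F).charpoly.IsRoot (x ^ k)

theorem amongPow_iff [IsAlgClosed F] (k : ℕ) (g : G) : AmongPow k ρ θ g ↔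
    (aeval ((ρ g : Matrix (Fin n) (Fin n) F) ^ k) (θ g : Matrix (Fin m) (Fin m) F).charpoly) ^ n = 0 := by
  constructor
  · intro h
    obtain ⟨s, hs⟩ := dvd_pow_of_roots (p := ((θ g : Matrix (Fin m) (Fin m) F).charpoly).comp (X ^ k))
      (Matrix.charpoly_monic (ρ g : Matrix (Fin n) (Fin n) F))
      (by rw [Matrix.charpoly_natDegree_eq_dim, Fintype.card_fin]) (fun x hx => by
        rw [IsRoot.def, eval_comp, eval_pow, eval_X]
        exact h x hx)
    have h1 := congrArg (aeval (ρ g : Matrix (Fin n) (Fin n) F)) hs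
    rw [map_pow, map_mul, Matrix.aeval_self_charpoly, zero_mul, aeval_comp, map_pow, aeval_X] at h1
    exact h1
  · intro h x hx
    rw [isRoot_iff, ← Matrix.exists_mulVec_eq_zero_iff] at hx
    obtain ⟨w, hw0, hw⟩ := hx
    have h1 : (ρ g : Matrix (Fin n) (Fin n) F) *ᵥ w = x • w := by
      rw [Matrix.sub_mulVec, sub_eq_zero] at hw
      rw [← hw, Matrix.scalar_apply, ← Matrix.smul_one_eq_diagonal, Matrix.smul_mulVec, Matrix.one_mulVec]
    have h1' : ((ρ g : Matrix (Fin n) (Fin n) F) ^ k) *ᵥ w = x ^ k • w := by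
      have := aeval_eigen h1 (X ^ k)
      rwa [map_pow, aeval_X, eval_pow, eval_X] at this
    have h2 := aeval_eigen h1' ((θ g : Matrix (Fin m) (Fin m) F).charpoly ^ n)
    rw [map_pow, h, Matrix.zero_mulVec, eval_pow] at h2
    have h3 := (smul_eq_zero.1 h2.symm).resolve_right hw0
    exact eq_zero_of_pow_eq_zero h3

/-- the functions whose vanishing is the condition -/
noncomputable def fnk (k : ℕ) (ρ : G →* GL (Fin n) F) (θ : G →* GL (Fin m) F) (s t : Fin n) (g : G) : F :=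
  ((aeval ((ρ g : Matrix (Fin n) (Fin n) F) ^ k) (θ g : Matrix (Fin m) (Fin m) F).charpoly) ^ n) s t

theorem fnk_mem (k : ℕ) (s t : Fin n) : fnk k ρ θ s t ∈ algT θ ⊔ algT ρ := by
  have h : fnk k ρ θ s t = (((aeval ((mB θ ρ) ^ k) (mT θ ρ).charpoly) ^ n) s t).1 := by
    funext g
    have e1 : (mB θ ρ).map (evB θ ρ g).toRingHom = (ρ g : Matrix (Fin n) (Fin n) F) := by
      ext i j
      rfl
    have e2 : (mT θ ρ).map (evB θ ρ g).toRingHom = (θ g : Matrix (Fin m) (Fin m) F) := by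
      ext i j
      rfl
    have e3 : ((mB θ ρ) ^ k).map (evB θ ρ g).toRingHom = (ρ g : Matrix (Fin n) (Fin n) F) ^ k := by
      have h3 := map_pow' (evB θ ρ g).toRingHom (mB θ ρ) k
      rw [e1] at h3
      exact h3
    have h0 := map_poly (evB θ ρ g).toRingHom ((mB θ ρ) ^ k) (mT θ ρ) n
    rw [e3, e2] at h0
    have h1 := congrFun (congrFun h0 s) t
    unfold fnk
    exact h1.symm
  rw [h]
  exact (((aeval ((mB θ ρ) ^ k) (mT θ ρ).charpoly) ^ n) s t).2

theorem amongPow_iff_fnk [IsAlgClosed F] (k : ℕ) (g : G) : AmongPow k ρ θ g ↔ ∀ s t, fnk k ρ θ s t g = 0 := by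
  rw [amongPow_iff]
  constructor
  · intro h s t
    unfold fnk
    rw [h]
    rfl
  · intro h
    ext s t
    exact h s t

/-- from a Zariski dense subset to a subgroup -/
theorem amongPow_of_dense [IsAlgClosed F] (k : ℕ) (S H : Set G)
    (hS : ∀ f ∈ algT θ ⊔ algT ρ, (∀ g ∈ S, f g = 0) → ∀ g ∈ H, f g = 0)
    (h : ∀ g ∈ S, AmongPow k ρ θ g) (g : G) (hg : g ∈ H) : AmongPow k ρ θ g := by
  rw [amongPow_iff_fnk]
  intro s t
  exact hS _ (fnk_mem k s t) (fun x hx => (amongPow_iff_fnk k x).1 (h x hx) s t) g hg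

theorem LieIrr.restrict (h : LieIrr ρ) (N : Subgroup G) [N.FiniteIndex] : LieIrr (ρ.comp N.subtype) := by
  refine ⟨h.1, fun S hS => ?_⟩
  have h1 : (S.map N.subtype).FiniteIndex := ⟨by
    rw [Subgroup.index_map_subtype]
    exact mul_ne_zero hS.index_ne_zero (Subgroup.FiniteIndex.index_ne_zero)⟩
  have h2 := h.2 _ h1
  have e : (fun g => (ρ g : Matrix (Fin n) (Fin n) F)) '' ((S.map N.subtype : Subgroup G) : Set G) =
      (fun g : N => ((ρ.comp N.subtype) g : Matrix (Fin n) (Fin n) F)) '' (S : Set N) := by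
    rw [Subgroup.coe_map, Set.image_image]
    rfl
  rw [← e]
  exact h2

end

section

variable {G : Type} [Group G] {F : Type} [Field F] {n m : ℕ} {θ : G →* GL (Fin m) F} {ρ : G →* GL (Fin n) F}

theorem extend (N : Subgroup G) {f : N → F} (hf : f ∈ algT (θ.comp N.subtype)) :
    ∃ φ ∈ algT θ, ∀ g : N, f g = φ g := by
  obtain ⟨P, hP⟩ := Pool.Agent.X320.DS.St.exists_value _ hf
  exact ⟨_, Pool.Agent.X320.DS.St.value_mem θ P, fun g => congrFun hP g⟩

/-- case of the eigenvalues themselves -/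
theorem on_subgroup [IsAlgClosed F] [CharZero F] (N : Subgroup G) [N.Normal] (hρ : Semisimple ρ)
    (h : ∀ g ∈ N, AmongPow 1 ρ θ g) (s t : Fin n) :
    ∃ φ ∈ algT θ, ∀ g ∈ N, (ρ g : Matrix (Fin n) (Fin n) F) s t = φ g := by
  have h1 := entries_mem (ρ := ρ.comp N.subtype) (θ := θ.comp N.subtype) (fun g x hx => by
    have := h g.1 g.2 x hx
    rwa [pow_one] at this) (Pool.Agent.X289.TF.clifford N hρ) (ent_mem _ s t)
  obtain ⟨φ, h2, h3⟩ := extend N h1
  exact ⟨φ, h2, fun g hg => h3 ⟨g, hg⟩⟩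

/-- case of powers -/
theorem on_subgroup_pow [IsAlgClosed F] [CharZero F] (N : Subgroup G) [N.Normal] [N.FiniteIndex] {k : ℕ} (hk : 0 < k)
    (hkn : Nat.Coprime k n) (hρ : LieIrr ρ) (hdet : ∀ g ∈ N, (ρ g : Matrix (Fin n) (Fin n) F).det = 1)
    (h : ∀ g ∈ N, AmongPow k ρ θ g) (s t : Fin n) :
    ∃ φ ∈ algT θ, ∀ g ∈ N, (ρ g : Matrix (Fin n) (Fin n) F) s t = φ g := by
  have h1 := entries_pow (ρ := ρ.comp N.subtype) (θ := θ.comp N.subtype) hk hkn (fun g x hx => h g.1 g.2 x hx)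
    (hρ.restrict N) (fun g => hdet g.1 g.2) (ent_mem _ s t)
  obtain ⟨φ, h2, h3⟩ := extend N h1
  exact ⟨φ, h2, fun g hg => h3 ⟨g, hg⟩⟩

/-- the subgroup where the determinant is one -/
theorem exists_det {M : ℕ} (hM : 0 < M) (hdet : ∀ g, (ρ g : Matrix (Fin n) (Fin n) F).det ^ M = 1)
    (N : Subgroup G) [N.Normal] [N.FiniteIndex] :
    ∃ N' : Subgroup G, N' ≤ N ∧ N'.Normal ∧ N'.FiniteIndex ∧
      ∀ g ∈ N', (ρ g : Matrix (Fin n) (Fin n) F).det = 1 := by
  classical
  let d : G →* F := (Matrix.detMonoidHom (n := Fin n) (R := F)).comp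
    ((Units.coeHom (Matrix (Fin n) (Fin n) F)).comp ρ)
  have hd : ∀ g, d g = (ρ g : Matrix (Fin n) (Fin n) F).det := fun _ => rfl
  let d' : G →* Fˣ := d.toHomUnits
  have hd' : ∀ g, (d' g : F) = d g := fun g => rfl
  have hfin : Finite d'.range := by
    have h1 : (d'.range : Set Fˣ) ⊆ {u : Fˣ | (u : F) ∈ (X ^ M - 1 : F[X]).roots.toFinset} := by
      rintro _ ⟨g, rfl⟩
      show (d' g : F) ∈ (X ^ M - 1 : F[X]).roots.toFinset
      rw [Multiset.mem_toFinset, mem_roots (X_pow_sub_C_ne_zero hM (1 : F) |> fun h => by rwa [map_one] at h), IsRoot.def,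
        eval_sub, eval_pow, eval_X, eval_one, hd', hd, hdet, sub_self]
    have h2 : {u : Fˣ | (u : F) ∈ (X ^ M - 1 : F[X]).roots.toFinset}.Finite :=
      Set.Finite.preimage (fun _ _ _ _ h => Units.ext h) (Finset.finite_toSet _)
    exact (h2.subset h1).to_subtype
  have hk : d'.ker.FiniteIndex := by
    haveI := hfin
    exact Subgroup.finiteIndex_ker d'
  refine ⟨N ⊓ d'.ker, inf_le_left, inferInstance, inferInstance, fun g hg => ?_⟩
  have h1 : d' g = 1 := hg.2
  rw [← hd, ← hd', h1, Units.val_one]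

end

end Pool.Agent.X289.EI
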