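import Pool.Agent.X289.EI.Basic

/-! A fibre of a finite algebra with one point and no tangent vectors. -/

set_option autoImplicit false
set_option linter.all false

namespace Pool.Agent.X289.EI

open Polynomial

section

variable {F A B : Type*} [Field F] [IsAlgClosed F] [CommRing A] [CommRing B] [Algebra A B] [Algebra F A]
  [Algebra F B] [IsScalarTower F A B]

theorem prime_case (evA : A →ₐ[F] F) (ev : B →ₐ[F] F) (hint : ∀ b : B, IsIntegral A b)
    (h1 : ∀ y : B →ₐ[F] F, (∀ a, y (algebraMap A B a) = evA a) → ∀ b, y b = ev b)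
    (P : Ideal B) [P.IsPrime] (hP : Ideal.map (algebraMap A B) (RingHom.ker evA.toRingHom) ≤ P) :
    RingHom.ker ev.toRingHom ≤ P := by
  have hc : (algebraMap F (B ⧸ P)).comp evA.toRingHom = (Ideal.Quotient.mk P).comp (algebraMap A B) := by
    ext a
    show Ideal.Quotient.mk P (algebraMap F B (evA a)) = Ideal.Quotient.mk P (algebraMap A B a)
    rw [Ideal.Quotient.eq, IsScalarTower.algebraMap_apply F A B, ← map_sub]
    apply hP
    apply Ideal.mem_map_of_mem
    show evA (algebraMap F A (evA a) - a) = 0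
    rw [map_sub, AlgHom.commutes]
    exact sub_self _
  have hint' : Algebra.IsIntegral F (B ⧸ P) := by
    refine ⟨fun q => ?_⟩
    obtain ⟨b, rfl⟩ := Ideal.Quotient.mk_surjective q
    obtain ⟨Q, hQ, hQb⟩ := hint b
    refine ⟨Q.map evA.toRingHom, hQ.map _, ?_⟩
    rw [eval₂_map, hc, ← Polynomial.hom_eval₂, hQb, map_zero]
  have hbij := IsAlgClosed.algebraMap_bijective_of_isIntegral (k := F) (K := B ⧸ P)
  let e : F ≃ₐ[F] (B ⧸ P) := AlgEquiv.ofBijective (Algebra.ofId F (B ⧸ P)) hbij
  let y : B →ₐ[F] F := e.symm.toAlgHom.comp (Ideal.Quotient.mkₐ F P)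
  have hy : ∀ a, y (algebraMap A B a) = evA a := by
    intro a
    show e.symm (Ideal.Quotient.mk P (algebraMap A B a)) = evA a
    rw [AlgEquiv.symm_apply_eq]
    exact (RingHom.congr_fun hc a).symm
  intro b hb
  have h2 : y b = 0 := (h1 y hy b).trans hb
  have h3 : e.symm (Ideal.Quotient.mk P b) = 0 := h2
  rw [AlgEquiv.symm_apply_eq, map_zero] at h3
  exact Ideal.Quotient.eq_zero_iff_mem.1 h3

theorem core [IsNoetherianRing B] (evA : A →ₐ[F] F) (ev : B →ₐ[F] F) (hint : ∀ b : B, IsIntegral A b)
    (h0 : ∀ a, ev (algebraMap A B a) = evA a)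
    (h1 : ∀ y : B →ₐ[F] F, (∀ a, y (algebraMap A B a) = evA a) → ∀ b, y b = ev b)
    (h2 : ∀ δ : B →ₗ[F] F, (∀ b b', δ (b * b') = ev b * δ b' + ev b' * δ b) →
      (∀ a, δ (algebraMap A B a) = 0) → ∀ b, δ b = 0) :
    RingHom.ker ev.toRingHom ≤ Ideal.map (algebraMap A B) (RingHom.ker evA.toRingHom) := by
  set J : Ideal B := RingHom.ker ev.toRingHom with hJ
  set I : Ideal B := Ideal.map (algebraMap A B) (RingHom.ker evA.toRingHom) with hI
  have hIJ : I ≤ J := by
    rw [hI, Ideal.map_le_iff_le_comap]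
    intro a ha
    exact (h0 a).trans ha
  have hrad : J ≤ I.radical := by
    rw [Ideal.radical_eq_sInf]
    refine le_sInf fun P hP => ?_
    haveI := hP.2
    exact prime_case evA ev hint h1 P hP.1
  obtain ⟨k, hk⟩ := Ideal.exists_pow_le_of_le_radical_of_fg hrad (IsNoetherian.noetherian J)
  have hsq : J ≤ J * J ⊔ I := by
    intro b hb
    by_contra hcon
    let W : Submodule F B := (Submodule.restrictScalars F (J * J ⊔ I : Ideal B)) ⊔ Submodule.span F {(1 : B)}
    have hbW : b ∉ W := by
      intro hbW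
      obtain ⟨w, hw, c, hc, hwc⟩ := Submodule.mem_sup.1 hbW
      obtain ⟨c, rfl⟩ := Submodule.mem_span_singleton.1 hc
      have hwJ : ev w = 0 := by
        have : (J * J ⊔ I : Ideal B) ≤ J := sup_le Ideal.mul_le_left hIJ
        exact this hw
      have h3 := congrArg ev hwc
      rw [map_add, map_smul, map_one, hwJ, zero_add, smul_eq_mul, mul_one] at h3
      have h4 : ev b = 0 := hb
      rw [h4] at h3
      rw [h3, zero_smul, add_zero] at hwc
      exact hcon (hwc ▸ hw)
    obtain ⟨δ, hδ1, hδ2⟩ := Submodule.exists_le_ker_of_notMem hbW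
    have hδI : ∀ w ∈ (J * J ⊔ I : Ideal B), δ w = 0 := fun w hw =>
      hδ2 ((le_sup_left : Submodule.restrictScalars F (J * J ⊔ I : Ideal B) ≤ W) hw)
    have hδ0 : δ 1 = 0 := hδ2 ((le_sup_right : Submodule.span F {(1 : B)} ≤ W) (Submodule.mem_span_singleton_self _))
    have hδc : ∀ c : F, δ (algebraMap F B c) = 0 := fun c => by
      rw [Algebra.algebraMap_eq_smul_one, map_smul, hδ0, smul_zero]
    refine hδ1 (h2 δ (fun b b' => ?_) (fun a => ?_) b)
    · have hm : ∀ b : B, b - algebraMap F B (ev b) ∈ J := fun b => by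
        show ev (b - algebraMap F B (ev b)) = 0
        rw [map_sub, AlgHom.commutes]
        exact sub_self _
      have h3 : δ ((b - algebraMap F B (ev b)) * (b' - algebraMap F B (ev b'))) = 0 :=
        hδI _ ((le_sup_left : J * J ≤ J * J ⊔ I) (Ideal.mul_mem_mul (hm b) (hm b')))
      have e : (b - algebraMap F B (ev b)) * (b' - algebraMap F B (ev b')) =
          b * b' - ev b • b' - ev b' • b + algebraMap F B (ev b * ev b') := by
        rw [Algebra.smul_def, Algebra.smul_def, map_mul]
        ring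
      rw [e, map_add, map_sub, map_sub, map_smul, map_smul, hδc, add_zero, smul_eq_mul, smul_eq_mul] at h3
      linear_combination h3
    · have h3 : a - algebraMap F A (evA a) ∈ RingHom.ker evA.toRingHom := by
        show evA (a - algebraMap F A (evA a)) = 0
        rw [map_sub, AlgHom.commutes]
        exact sub_self _
      have h4 := hδI _ ((le_sup_right : I ≤ J * J ⊔ I) (Ideal.mem_map_of_mem (algebraMap A B) h3))
      rw [map_sub, map_sub, ← IsScalarTower.algebraMap_apply, hδc, sub_zero] at h4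
      exact h4
  have hpow : ∀ j, J ≤ J ^ (j + 1) ⊔ I := by
    intro j
    induction j with
    | zero => rw [zero_add, pow_one]; exact le_sup_left
    | succ j ih =>
      refine hsq.trans (sup_le ?_ le_sup_right)
      calc J * J ≤ J * (J ^ (j + 1) ⊔ I) := Ideal.mul_mono le_rfl ih
        _ = J * J ^ (j + 1) ⊔ J * I := Ideal.mul_sup _ _ _
        _ ≤ J ^ (j + 1 + 1) ⊔ I := sup_le_sup (by rw [pow_succ' J (j + 1)]) Ideal.mul_le_right
  exact (hpow k).trans (sup_le ((Ideal.pow_le_pow_right (Nat.le_succ k)).trans hk) le_rfl)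

/-- The conclusion in terms of submodules of a ring containing `B` -/
theorem ker_span {evA : A →ₐ[F] F} {R : Type*} [CommRing R] [Algebra A R] (S : Subalgebra A R) {w : S}
    (hw : w ∈ Ideal.map (algebraMap A S) (RingHom.ker evA.toRingHom)) :
    (w : R) ∈ RingHom.ker evA.toRingHom • Subalgebra.toSubmodule S := by
  have hw' : w ∈ Submodule.span S ((algebraMap A S) '' (RingHom.ker evA.toRingHom : Set A)) := hw
  refine Submodule.span_induction
    (p := fun (w : S) _ => (w : R) ∈ RingHom.ker evA.toRingHom • Subalgebra.toSubmodule S) ?_ ?_ ?_ ?_ hw'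
  · rintro _ ⟨a, ha, rfl⟩
    have : ((algebraMap A S a : S) : R) = a • (1 : R) := Algebra.algebraMap_eq_smul_one a
    rw [this]
    exact Submodule.smul_mem_smul ha S.one_mem
  · exact Submodule.zero_mem _
  · intro x y _ _ hx hy
    exact Submodule.add_mem _ hx hy
  · intro b x _ hx
    show (b : R) * (x : R) ∈ _
    refine Submodule.smul_induction_on hx (fun a ha s hs => ?_) (fun x y hx hy => ?_)
    · rw [mul_smul_comm]
      exact Submodule.smul_mem_smul ha (S.mul_mem b.2 hs)
    · rw [mul_add]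
      exact Submodule.add_mem _ hx hy

end

end Pool.Agent.X289.EI
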