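import Pool.Agent.X289.EI.Fibre
import Pool.Agent.X289.EI.Abs

/-! If all eigenvalues of `ρ (g)` are eigenvalues of `θ (g)`, and `ρ` is semisimple, the entries of `ρ` are
polynomials in the entries of `θ` and `θ⁻¹`. -/

set_option autoImplicit false
set_option linter.all false

namespace Pool.Agent.X289.EI

open Polynomial Matrix
open scoped Pointwise
open Pool.Agent.X320.DS (algT gens ent_mem ent_inv_mem left_mem right_mem inv_mem sum_fun_mem smul_fun_mem algT_fg
  exists_dual_in Semisimple)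

variable {G : Type*} [Group G] {F : Type*} [Field F] {n m : ℕ} {θ : G →* GL (Fin m) F} {ρ : G →* GL (Fin n) F}

/-- tangent vectors at `1` along the fibre -/
structure Tan (δ : big θ ρ →ₗ[F] F) : Prop where
  leib : ∀ b b', δ (b * b') = evB θ ρ 1 b * δ b' + evB θ ρ 1 b' * δ b
  zero : ∀ a : big θ ρ, a.1 ∈ algT θ → δ a = 0

theorem evB_one_Lt (g : G) (f : big θ ρ) : evB θ ρ 1 (Lt θ ρ g f) = f.1 g := by
  show f.1 (g * 1) = f.1 g
  rw [mul_one]

theorem tan_mem {δ : big θ ρ →ₗ[F] F} (hδ : Tan δ) {f : G → F} (hf : f ∈ big θ ρ) :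
    (fun g => δ (Lt θ ρ g ⟨f, hf⟩)) ∈ big θ ρ := by
  have hf' : f ∈ Algebra.adjoin F (Set.range (gens θ) ∪ Set.range (gens ρ)) := by
    rw [Algebra.adjoin_union]
    exact hf
  have key : ∃ h : f ∈ big θ ρ, (fun g => δ (Lt θ ρ g ⟨f, h⟩)) ∈ big θ ρ := by
    clear hf
    have hz : ∀ (f : G → F) (h : f ∈ algT θ), (fun g => δ (Lt θ ρ g ⟨f, of_left h⟩)) ∈ big θ ρ := by
      intro f h
      have e : (fun g => δ (Lt θ ρ g ⟨f, of_left h⟩)) = 0 := by
        funext g
        exact hδ.zero _ (left_mem θ g h)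
      rw [e]
      exact (big θ ρ).zero_mem
    induction hf' using Algebra.adjoin_induction with
    | mem f hf =>
      rcases hf with ⟨s, rfl⟩ | ⟨s | s, rfl⟩
      · have hs : gens θ s ∈ algT θ := Algebra.subset_adjoin ⟨s, rfl⟩
        exact ⟨of_left hs, hz _ hs⟩
      · refine ⟨of_right (Algebra.subset_adjoin ⟨_, rfl⟩), ?_⟩
        have e : (fun g => δ (Lt θ ρ g ⟨gens ρ (Sum.inl s), of_right (Algebra.subset_adjoin ⟨_, rfl⟩)⟩)) =
            fun g => ∑ l, (ρ g : Matrix (Fin n) (Fin n) F) s.1 l * δ (mB θ ρ l s.2) := by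
          funext g
          refine (congrArg δ (Lt_mB g s.1 s.2)).trans ?_
          rw [map_sum]
          simp only [map_smul, smul_eq_mul]
        rw [e]
        refine of_right (sum_fun_mem _ fun l => ?_)
        simp only [mul_comm _ (δ _)]
        exact smul_fun_mem _ (ent_mem ρ _ _)
      · refine ⟨of_right (Algebra.subset_adjoin ⟨_, rfl⟩), ?_⟩
        have e : (fun g => δ (Lt θ ρ g ⟨gens ρ (Sum.inr s), of_right (Algebra.subset_adjoin ⟨_, rfl⟩)⟩)) =
            fun g => ∑ l, (ρ g⁻¹ : Matrix (Fin n) (Fin n) F) l s.2 * δ (mI θ ρ s.1 l) := by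
          funext g
          refine (congrArg δ (Lt_mI g s.1 s.2)).trans ?_
          rw [map_sum]
          simp only [map_smul, smul_eq_mul]
        rw [e]
        refine of_right (sum_fun_mem _ fun l => ?_)
        simp only [mul_comm _ (δ _)]
        exact smul_fun_mem _ (ent_inv_mem ρ _ _)
    | algebraMap c => exact ⟨of_left ((algT θ).algebraMap_mem c), hz _ ((algT θ).algebraMap_mem c)⟩
    | add f f' _ _ h h' =>
      obtain ⟨h1, h2⟩ := h
      obtain ⟨h3, h4⟩ := h'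
      refine ⟨(algT θ ⊔ algT ρ).add_mem h1 h3, ?_⟩
      have e : (fun g => δ (Lt θ ρ g ⟨f + f', (algT θ ⊔ algT ρ).add_mem h1 h3⟩)) =
          (fun g => δ (Lt θ ρ g ⟨f, h1⟩)) + (fun g => δ (Lt θ ρ g ⟨f', h3⟩)) := by
        funext g
        rw [Pi.add_apply, ← map_add, ← map_add]
        rfl
      rw [e]
      exact (algT θ ⊔ algT ρ).add_mem h2 h4
    | mul f f' _ _ h h' =>
      obtain ⟨h1, h2⟩ := h
      obtain ⟨h3, h4⟩ := h'
      refine ⟨(algT θ ⊔ algT ρ).mul_mem h1 h3, ?_⟩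
      have e : (fun g => δ (Lt θ ρ g ⟨f * f', (algT θ ⊔ algT ρ).mul_mem h1 h3⟩)) =
          f * (fun g => δ (Lt θ ρ g ⟨f', h3⟩)) + f' * (fun g => δ (Lt θ ρ g ⟨f, h1⟩)) := by
        funext g
        have e1 : Lt θ ρ g ⟨f * f', (algT θ ⊔ algT ρ).mul_mem h1 h3⟩ = Lt θ ρ g ⟨f, h1⟩ * Lt θ ρ g ⟨f', h3⟩ := rfl
        rw [e1, hδ.leib, evB_one_Lt, evB_one_Lt]
        rfl
      rw [e]
      exact (algT θ ⊔ algT ρ).add_mem ((algT θ ⊔ algT ρ).mul_mem h1 h4) ((algT θ ⊔ algT ρ).mul_mem h3 h2)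
  exact key.2

/-- the invariant derivation -/
noncomputable def der {δ : big θ ρ →ₗ[F] F} (hδ : Tan δ) (f : big θ ρ) : big θ ρ :=
  ⟨fun g => δ (Lt θ ρ g f), tan_mem hδ f.2⟩

theorem der_add {δ : big θ ρ →ₗ[F] F} (hδ : Tan δ) (f f' : big θ ρ) : der hδ (f + f') = der hδ f + der hδ f' :=
  evB_inj fun g => by
    show δ (Lt θ ρ g (f + f')) = δ (Lt θ ρ g f) + δ (Lt θ ρ g f')
    rw [map_add, map_add]

theorem der_mul {δ : big θ ρ →ₗ[F] F} (hδ : Tan δ) (f f' : big θ ρ) :
    der hδ (f * f') = f * der hδ f' + f' * der hδ f :=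
  evB_inj fun g => by
    show δ (Lt θ ρ g (f * f')) = f.1 g * δ (Lt θ ρ g f') + f'.1 g * δ (Lt θ ρ g f)
    rw [map_mul, hδ.leib, evB_one_Lt, evB_one_Lt]

theorem der_left {δ : big θ ρ →ₗ[F] F} (hδ : Tan δ) (a : algT θ) : der hδ (algebraMap (algT θ) (big θ ρ) a) = 0 :=
  evB_inj fun g => hδ.zero _ (left_mem θ g a.2)

theorem tan_zero [CharZero F] {δ : big θ ρ →ₗ[F] F} (hδ : Tan δ) (hint : ∀ b : big θ ρ, IsIntegral (algT θ) b)
    (b : big θ ρ) : δ b = 0 := by
  haveI : IsReduced (big θ ρ) := isReduced_of_injective (big θ ρ).val Subtype.val_injective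
  have h1 : der hδ b = 0 := der_zero' F (A := algT θ) (B := big θ ρ) (der hδ) (der_add hδ) (der_mul hδ)
    (der_left hδ) (hint b)
  have h2 : (der hδ b).1 1 = 0 := by
    rw [h1]
    rfl
  have h3 : (der hδ b).1 1 = δ (Lt θ ρ 1 b) := rfl
  have h4 : Lt θ ρ 1 b = b := evB_inj fun g => by
    show b.1 (1 * g) = b.1 g
    rw [one_mul]
  rw [h3, h4] at h2
  exact h2

theorem fg_alg {k : ℕ} (τ : G →* GL (Fin k) F) : (algT τ).FG :=
  ⟨(Set.finite_range (gens τ)).toFinset, by rw [Set.Finite.coe_toFinset]; rfl⟩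

theorem big_noeth : IsNoetherianRing (big θ ρ) := by
  haveI : IsNoetherianRing (algT θ ⊔ algT ρ : Subalgebra F (G → F)) := by
    haveI : Algebra.FiniteType F (algT θ ⊔ algT ρ : Subalgebra F (G → F)) :=
      (algT θ ⊔ algT ρ).fg_iff_finiteType.1 ((fg_alg θ).sup (fg_alg ρ))
    exact Algebra.FiniteType.isNoetherianRing F _
  let e : (algT θ ⊔ algT ρ : Subalgebra F (G → F)) ≃+* big θ ρ :=
    { toFun := fun f => ⟨f.1, f.2⟩
      invFun := fun f => ⟨f.1, f.2⟩
      left_inv := fun _ => rfl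
      right_inv := fun _ => rfl
      map_mul' := fun _ _ => rfl
      map_add' := fun _ _ => rfl }
  exact isNoetherianRing_of_ringEquiv _ e

/-- **Main theorem, algebraic version.** -/
theorem entries_mem [IsAlgClosed F] [CharZero F] (h : RootsIn ρ θ) (hρ : Semisimple ρ) {f : G → F}
    (hf : f ∈ algT ρ) : f ∈ algT θ := by
  have hfg := big_fg h hρ
  haveI hfin : Module.Finite (algT θ) (big θ ρ) := Module.Finite.iff_fg.2 hfg
  have hint : ∀ b : big θ ρ, IsIntegral (algT θ) b := fun b => Algebra.IsIntegral.isIntegral b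
  haveI : IsNoetherianRing (big θ ρ) := big_noeth
  have key := core (F := F) (A := algT θ) (B := big θ ρ) (evA θ) (evB θ ρ 1) hint (fun a => rfl)
    (fun y hy b => point_eq h hint (fun a ha => hy ⟨a.1, ha⟩) b)
    (fun δ h1 h2 b => tan_zero ⟨h1, fun a ha => h2 ⟨a.1, ha⟩⟩ hint b)
  have hsup : Subalgebra.toSubmodule (big θ ρ) ≤ Subalgebra.toSubmodule (⊥ : Subalgebra (algT θ) (G → F)) ⊔
      RingHom.ker (evA θ).toRingHom • Subalgebra.toSubmodule (big θ ρ) := by
    intro b hb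
    have hb' : b ∈ big θ ρ := hb
    let b' : big θ ρ := ⟨b, hb'⟩
    let c : big θ ρ := algebraMap F (big θ ρ) (b 1)
    have h1 : b' - c ∈ RingHom.ker (evB θ ρ 1).toRingHom := by
      show b 1 - b 1 = 0
      exact sub_self _
    have h2 := ker_span (big θ ρ) (key h1)
    have e : b = (c : G → F) + ((b' - c : big θ ρ) : G → F) := by
      show b = (c : G → F) + (b - (c : G → F))
      rw [add_sub_cancel]
    rw [e]
    refine Submodule.add_mem_sup ?_ h2
    exact (⊥ : Subalgebra (algT θ) (G → F)).algebraMap_mem (algebraMap F (algT θ) (b 1))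
  obtain ⟨r, hr1, hr2⟩ := Submodule.exists_sub_one_mem_and_smul_le_of_fg_of_le_sup hfg le_rfl hsup
  have hr3 : ∀ b ∈ big θ ρ, r.1 * b ∈ algT θ := by
    intro b hb
    have h1 : r • b ∈ Subalgebra.toSubmodule (⊥ : Subalgebra (algT θ) (G → F)) :=
      hr2 (Submodule.smul_mem_pointwise_smul b r _ hb)
    obtain ⟨a, ha⟩ := Algebra.mem_bot.1 h1
    have h2 : r.1 * b = a.1 := ha.symm
    rw [h2]
    exact a.2
  have hr4 : r.1 1 = 1 := by
    have h1 : r.1 1 - 1 = 0 := hr1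
    exact sub_eq_zero.1 h1
  let I : Submodule F (G → F) :=
    { carrier := {f | f ∈ algT θ ∧ ∀ b ∈ big θ ρ, f * b ∈ algT θ}
      zero_mem' := ⟨(algT θ).zero_mem, fun b _ => by rw [zero_mul]; exact (algT θ).zero_mem⟩
      add_mem' := fun {f f'} h h' => ⟨(algT θ).add_mem h.1 h'.1, fun b hb => by
        rw [add_mul]
        exact (algT θ).add_mem (h.2 b hb) (h'.2 b hb)⟩
      smul_mem' := fun c f h => ⟨(algT θ).smul_mem h.1 c, fun b hb => by
        rw [smul_mul_assoc]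
        exact (algT θ).smul_mem (h.2 b hb) c⟩ }
  obtain ⟨ι, _, u, v, hv, huv⟩ := coprod θ r.2
  have hone : (1 : G → F) ∈ I := one_mem_of (A := algT θ) I
    (fun a ha f hf => ⟨(algT θ).mul_mem ha hf.1, fun b hb => by
      rw [mul_assoc]
      exact (algT θ).mul_mem ha (hf.2 b hb)⟩)
    (fun f hf g => ⟨right_mem θ g hf.1, fun b hb => by
      have h1 := hf.2 _ (big_right hb g⁻¹)
      have h2 := right_mem θ g h1
      have e : (fun x => (f * fun x => b (x * g⁻¹)) (x * g)) = (fun x => f (x * g)) * b := by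
        funext x
        show f (x * g) * b (x * g * g⁻¹) = f (x * g) * b x
        rw [mul_inv_cancel_right]
      rw [← e]
      exact h2⟩)
    (r := r.1) ⟨r.2, hr3⟩ hr4 u v (fun i => inv_mem θ (hv i)) huv
  have h1 := hone.2 f (of_right hf)
  rwa [one_mul] at h1

end Pool.Agent.X289.EI
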