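import Mathlib

/-! Auxiliary results: derivations vanish on integral elements, division of polynomials with the same roots, an
ideal of functions on a group stable under translations, unipotent matrices of finite order. -/

set_option autoImplicit false
set_option linter.all false

namespace Pool.Agent.X289.EI

open Polynomial

/-- a derivation over `A` kills the elements integral over `A` -/
theorem der_zero (F : Type*) {A B : Type*} [Field F] [CharZero F] [CommRing A] [CommRing B] [Algebra A B]
    [Algebra F B] [IsReduced B] (D : Derivation A B B) {b : B} (hb : IsIntegral A b) : D b = 0 := by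
  have htf : ∀ n : ℕ, n ≠ 0 → ∀ b : B, (n : B) * b = 0 → b = 0 := by
    intro n hn b hb
    have h1 : algebraMap F B (n : F)⁻¹ * (n : B) = 1 := by
      rw [← map_natCast (algebraMap F B), ← map_mul, inv_mul_cancel₀ (Nat.cast_ne_zero.2 hn), map_one]
    calc b = (algebraMap F B (n : F)⁻¹ * (n : B)) * b := by rw [h1, one_mul]
      _ = algebraMap F B (n : F)⁻¹ * ((n : B) * b) := by rw [mul_assoc]
      _ = 0 := by rw [hb, mul_zero]
  obtain ⟨P, hP, hPb⟩ := hb
  have key : ∀ j, ∃ k, aeval b (derivative^[j] P) * (D b) ^ k = 0 := by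
    intro j
    induction j with
    | zero => exact ⟨0, by rw [pow_zero, mul_one, Function.iterate_zero, id, aeval_def, hPb]⟩
    | succ j ih =>
      obtain ⟨k, hk⟩ := ih
      refine ⟨k + 2, ?_⟩
      have h2 : D (aeval b (derivative^[j] P)) = aeval b (derivative^[j+1] P) * D b := by
        rw [Function.iterate_succ_apply', Derivation.map_aeval, smul_eq_mul]
      have h1 := congrArg D hk
      rw [map_zero, Derivation.leibniz, Derivation.leibniz_pow, h2] at h1
      simp only [smul_eq_mul, nsmul_eq_mul] at h1
      set u := aeval b (derivative^[j] P)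
      set w := aeval b (derivative^[j+1] P)
      set v := D b
      rcases Nat.eq_zero_or_pos k with rfl | hk0
      · simp only [pow_zero, mul_one] at hk
        simp only [Nat.cast_zero, zero_mul, mul_zero, zero_add, pow_zero, one_mul] at h1
        rw [zero_add, pow_two, ← mul_assoc, h1, zero_mul]
      · obtain ⟨k', rfl⟩ := Nat.exists_eq_succ_of_ne_zero hk0.ne'
        have e1 : k'.succ - 1 = k' := rfl
        rw [e1] at h1
        have h3 : w * v ^ (k'.succ + 2) = (u * ((k'.succ : ℕ) * (v ^ k' * D v)) + v ^ k'.succ * (w * v)) * v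
            - ((k'.succ : ℕ) : B) * (u * v ^ k'.succ) * D v := by
          rw [Nat.succ_eq_add_one]
          ring
        rw [h3, h1, hk]
        ring
  obtain ⟨k, hk⟩ := key P.natDegree
  have h1 : derivative^[P.natDegree] P = C ((P.natDegree.factorial : ℕ) : A) := by
    ext m
    rw [coeff_iterate_derivative, coeff_C]
    by_cases hm : m = 0
    · subst hm
      rw [if_pos rfl, zero_add, hP.coeff_natDegree, Nat.descFactorial_self, nsmul_eq_mul, mul_one]
    · rw [if_neg hm, coeff_eq_zero_of_natDegree_lt (by omega), smul_zero]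
  rw [h1, aeval_C, map_natCast] at hk
  exact IsNilpotent.eq_zero ⟨k, htf _ (Nat.factorial_ne_zero _) _ hk⟩

/-- the same, for a map -/
theorem der_zero' (F : Type*) {A B : Type*} [Field F] [CharZero F] [CommRing A] [CommRing B] [Algebra A B]
    [Algebra F B] [IsReduced B] (D : B → B) (hadd : ∀ x y, D (x + y) = D x + D y)
    (hmul : ∀ x y, D (x * y) = x * D y + y * D x) (hA : ∀ a, D (algebraMap A B a) = 0) {b : B}
    (hb : IsIntegral A b) : D b = 0 :=
  der_zero F (Derivation.mk'
    { toFun := D
      map_add' := hadd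
      map_smul' := fun a x => by
        rw [Algebra.smul_def, hmul, hA, mul_zero, add_zero, RingHom.id_apply, Algebra.smul_def] } hmul) hb

/-- over an algebraically closed field, a polynomial of degree at most `n` divides `p ^ n` if its roots are roots of
`p` -/
theorem dvd_pow_of_roots {F : Type*} [Field F] [IsAlgClosed F] {q p : F[X]} {n : ℕ} (hq : q.Monic)
    (hd : q.natDegree = n) (h : ∀ x, q.IsRoot x → p.IsRoot x) : q ∣ p ^ n := by
  have hs : q.Splits := IsAlgClosed.splits q
  have h1 : q = (q.roots.map fun a => X - C a).prod := hs.eq_prod_roots_of_monic hq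
  have h2 : q.roots.card = n := by
    rw [← hd]
    exact (splits_iff_card_roots.1 hs)
  have h3 := Multiset.prod_dvd_prod_of_dvd (S := q.roots) (fun a => X - C a) (fun _ => p) (fun a ha => by
    rw [dvd_iff_isRoot]
    exact h a ((mem_roots hq.ne_zero).1 ha))
  rw [← h1, Multiset.map_const', Multiset.prod_replicate, h2] at h3
  exact h3

/-- an ideal, stable under right translations, of an algebra of functions on a group which contains a function
with value `1` at `1` contains `1` -/
theorem one_mem_of {G : Type*} [Group G] {F : Type*} [Field F] {A : Subalgebra F (G → F)}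
    (I : Submodule F (G → F)) (hI : ∀ a ∈ A, ∀ f ∈ I, a * f ∈ I)
    (hright : ∀ f ∈ I, ∀ g, (fun x => f (x * g)) ∈ I) {r : G → F} (hr : r ∈ I) (hr1 : r 1 = 1)
    {ι : Type*} [Fintype ι] (u v : ι → G → F) (hv : ∀ i, (fun x => v i x⁻¹) ∈ A)
    (huv : ∀ g h, r (g * h) = ∑ i, u i g * v i h) : (1 : G → F) ∈ I := by
  classical
  obtain ⟨C, hC⟩ := I.exists_isCompl
  -- the projection to `C`
  let p : (G → F) →ₗ[F] (G → F) := C.subtype ∘ₗ C.projectionOnto I hC.symm
  have hp1 : ∀ f ∈ I, p f = 0 := fun f hf => by
    have : C.projectionOnto I hC.symm f = 0 := (Submodule.projectionOnto_apply_eq_zero_iff hC.symm).2 hf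
    show ((C.projectionOnto I hC.symm f : C) : G → F) = 0
    rw [this]
    rfl
  have hp2 : ∀ f, f - p f ∈ I := fun f => by
    have h1 : C.projectionOnto I hC.symm (f - p f) = 0 := by
      rw [map_sub]
      have : C.projectionOnto I hC.symm (p f) = C.projectionOnto I hC.symm f :=
        Submodule.projectionOnto_apply_left hC.symm _
      rw [this, sub_self]
    exact (Submodule.projectionOnto_apply_eq_zero_iff hC.symm).1 h1
  have h1 : ∀ h x, ∑ i, v i h⁻¹ * p (u i) x = 0 := by
    intro h x
    have h2 := hright r hr h⁻¹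
    have e : (fun x => r (x * h⁻¹)) = ∑ i, v i h⁻¹ • u i := by
      funext x
      rw [huv, Finset.sum_apply]
      exact Finset.sum_congr rfl fun i _ => by rw [Pi.smul_apply, smul_eq_mul, mul_comm]
    rw [e] at h2
    have h3 := congrFun (hp1 _ h2) x
    rw [map_sum, Finset.sum_apply] at h3
    simpa [map_smul] using h3
  have h4 : (1 : G → F) = ∑ i, (fun x => v i x⁻¹) * (u i - p (u i)) := by
    funext x
    rw [Finset.sum_apply]
    simp only [Pi.mul_apply, Pi.sub_apply, mul_sub, Finset.sum_sub_distrib, h1 x x, sub_zero, Pi.one_apply]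
    rw [← hr1, ← mul_inv_cancel x, huv]
    exact Finset.sum_congr rfl fun i _ => mul_comm _ _
  rw [h4]
  exact Submodule.sum_mem _ fun i _ => hI _ (hv i) _ (hp2 _)

/-- a unipotent matrix with two equal powers is the identity -/
theorem eq_one_of_pow {n : ℕ} {F : Type*} [Field F] [CharZero F] {x : Matrix (Fin n) (Fin n) F} {N : ℕ}
    (hN : (x - 1) ^ N = 0) {a b : ℕ} (hab : a < b) (h : x ^ a = x ^ b) : x = 1 := by
  have hu : IsUnit x := by
    have : IsNilpotent (x - 1) := ⟨N, hN⟩
    have h1 := this.isUnit_one_add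
    rwa [add_sub_cancel] at h1
  obtain ⟨k, rfl⟩ := Nat.exists_eq_add_of_lt hab
  have h1 : x ^ (k + 1) = 1 := by
    have h2 : x ^ a * x ^ (k + 1) = x ^ a * 1 := by
      rw [mul_one, ← pow_add, ← add_assoc]
      exact h.symm
    exact (hu.pow a).mul_left_cancel h2
  let Q : F[X] := ∑ i ∈ Finset.range (k + 1), X ^ i
  have hQ : Q * (X - 1) = X ^ (k + 1) - 1 := geom_sum_mul X (k + 1)
  have hQ1 : Q.eval 1 = ((k + 1 : ℕ) : F) := by
    simp [Q, eval_finset_sum]
  have hco : IsCoprime Q ((X - 1) ^ N) := by
    refine IsCoprime.pow_right (IsCoprime.symm ?_)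
    have h2 : (X - 1 : F[X]) = X - C 1 := by rw [map_one]
    rw [h2, (irreducible_X_sub_C (1 : F)).coprime_iff_not_dvd, dvd_iff_isRoot, IsRoot.def, hQ1]
    exact_mod_cast Nat.succ_ne_zero k
  obtain ⟨s, t, hst⟩ := hco
  have h3 := congrArg (aeval x) hst
  have h4 : aeval x ((X - 1 : F[X]) ^ N) = 0 := by
    rw [map_pow, map_sub, aeval_X, map_one, hN]
  have h5 : aeval x Q * (x - 1) = 0 := by
    have := congrArg (aeval x) hQ
    rw [map_mul, map_sub, map_sub, map_pow, aeval_X, map_one, h1, sub_self] at this
    exact this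
  rw [map_add, map_mul, map_mul, h4, mul_zero, add_zero, map_one] at h3
  have h6 : x - 1 = 0 := by
    calc x - 1 = (aeval x s * aeval x Q) * (x - 1) := by rw [h3, one_mul]
      _ = aeval x s * (aeval x Q * (x - 1)) := by rw [mul_assoc]
      _ = 0 := by rw [h5, mul_zero]
  exact sub_eq_zero.1 h6

end Pool.Agent.X289.EI
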