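import Pool.Agent.X289.EI.Word

/-! A subgroup of finite index with irreducible Zariski closure. -/

set_option autoImplicit false
set_option linter.all false

namespace Pool.Agent.X289.EI.FS

open Module

variable {G k : Type} [Group G] [Field k] {n m : ℕ}

theorem AA_Rt (ρ : G →* GL (Fin n) k) (θ : G →* GL (Fin m) k) (h : G) (f : G → k) (hf : f ∈ AA ρ θ) :
    Rt h f ∈ AA ρ θ := by
  have hV : VV ρ θ ≤ Subalgebra.toSubmodule (AA ρ θ) := by
    refine Submodule.span_le.2 ?_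
    rintro f (rfl | ⟨s, rfl⟩)
    · exact (AA ρ θ).one_mem
    · exact Algebra.subset_adjoin ⟨s, rfl⟩
  have h1 : AA ρ θ ≤ (AA ρ θ).comap (Rt h) := by
    refine Algebra.adjoin_le ?_
    rintro _ ⟨s, rfl⟩
    exact hV (phi_Rt ρ θ s h)
  exact h1 hf

/-- right translation on the algebra -/
noncomputable def RtA (ρ : G →* GL (Fin n) k) (θ : G →* GL (Fin m) k) (h : G) : AA ρ θ →ₐ[k] AA ρ θ :=
  ((Rt h).comp (AA ρ θ).val).codRestrict (AA ρ θ) fun f => AA_Rt ρ θ h f.1 f.2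

theorem RtA_mul (ρ : G →* GL (Fin n) k) (θ : G →* GL (Fin m) k) (g h : G) (f : AA ρ θ) :
    RtA ρ θ (g * h) f = RtA ρ θ g (RtA ρ θ h f) := by
  apply Subtype.ext
  funext x
  show f.1 (x * (g * h)) = f.1 (x * g * h)
  rw [mul_assoc]

theorem RtA_one (ρ : G →* GL (Fin n) k) (θ : G →* GL (Fin m) k) (f : AA ρ θ) : RtA ρ θ 1 f = f := by
  apply Subtype.ext
  funext x
  show f.1 (x * 1) = f.1 x
  rw [mul_one]

/-- the ideal of a subgroup -/
def IN (ρ : G →* GL (Fin n) k) (θ : G →* GL (Fin m) k) (N : Subgroup G) : Ideal (AA ρ θ) where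
  carrier := {f | ∀ g ∈ N, f.1 g = 0}
  add_mem' {a b} ha hb g hg := by
    show a.1 g + b.1 g = 0
    rw [ha g hg, hb g hg, add_zero]
  zero_mem' _ _ := rfl
  smul_mem' c f hf g hg := by
    show c.1 g * f.1 g = 0
    rw [hf g hg, mul_zero]

theorem exists_prime (ρ : G →* GL (Fin n) k) (θ : G →* GL (Fin m) k) :
    ∃ N : Subgroup G, N.FiniteIndex ∧ (IN ρ θ N).IsPrime := by
  classical
  haveI := AA_noeth ρ θ
  obtain ⟨I0, ⟨N, hN, hI0⟩, hmax⟩ := WellFounded.has_min (wellFounded_gt (α := Ideal (AA ρ θ)))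
    {I | ∃ N : Subgroup G, N.FiniteIndex ∧ IN ρ θ N = I} ⟨_, ⊤, inferInstance, rfl⟩
  have hle : IN ρ θ N ≤ RingHom.ker (evx (AA ρ θ) 1).toRingHom := fun f hf => hf 1 N.one_mem
  haveI : (RingHom.ker (evx (AA ρ θ) 1).toRingHom).IsPrime := RingHom.ker_isPrime _
  obtain ⟨𝔭, h𝔭, h𝔭le⟩ := Ideal.exists_minimalPrimes_le hle
  have hfin := Ideal.finite_minimalPrimes_of_isNoetherianRing (AA ρ θ) (IN ρ θ N)
  let c : G → Ideal (AA ρ θ) := fun g => 𝔭.comap (RtA ρ θ g).toRingHom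
  have hc : ∀ g f, f ∈ c g ↔ RtA ρ θ g f ∈ 𝔭 := fun g f => Iff.rfl
  have hc1 : c 1 = 𝔭 := by
    ext f
    rw [hc, RtA_one]
  have hcm : ∀ g g' h, c g = c g' → c (g * h) = c (g' * h) := by
    intro g g' h e
    ext f
    rw [hc, hc, RtA_mul, RtA_mul, ← hc, ← hc, e]
  have hmem : ∀ g ∈ N, c g ∈ (IN ρ θ N).minimalPrimes := by
    intro g hg
    have hs : Function.Surjective (RtA ρ θ g).toRingHom := by
      intro f
      refine ⟨RtA ρ θ g⁻¹ f, ?_⟩
      show RtA ρ θ g (RtA ρ θ g⁻¹ f) = f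
      rw [← RtA_mul, mul_inv_cancel, RtA_one]
    have e1 : (IN ρ θ N).comap (RtA ρ θ g).toRingHom = IN ρ θ N := by
      ext f
      constructor
      · intro h x hx
        have h1 : f.1 (x * g⁻¹ * g) = 0 := h (x * g⁻¹) (N.mul_mem hx (N.inv_mem hg))
        rwa [inv_mul_cancel_right] at h1
      · intro h x hx
        exact h (x * g) (N.mul_mem hx hg)
    have e2 := Ideal.comap_minimalPrimes_eq_of_surjective hs (IN ρ θ N)
    rw [e1] at e2
    rw [e2]
    exact ⟨𝔭, h𝔭, rfl⟩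
  -- the stabilizer
  let K : Subgroup N :=
    { carrier := {x | c x.1 = 𝔭}
      one_mem' := hc1
      mul_mem' := by
        intro a b ha hb
        have h1 := hcm a.1 1 b.1 (by rw [hc1]; exact ha)
        rw [one_mul] at h1
        exact h1.trans hb
      inv_mem' := by
        intro a ha
        have h1 := hcm a.1 1 a.1⁻¹ (by rw [hc1]; exact ha)
        rw [mul_inv_cancel, one_mul, hc1] at h1
        exact h1.symm }
  have hKf : Finite (N ⧸ K) := by
    haveI : Finite (IN ρ θ N).minimalPrimes := hfin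
    refine Finite.of_injective (β := (IN ρ θ N).minimalPrimes)
      (fun x => ⟨c (Quotient.out x : N).1⁻¹, hmem _ (N.inv_mem (Quotient.out x : N).2)⟩) ?_
    intro x y hxy
    have h1 : c (Quotient.out x : N).1⁻¹ = c (Quotient.out y : N).1⁻¹ := congrArg Subtype.val hxy
    have h2 := hcm _ _ (Quotient.out y : N).1 h1
    rw [inv_mul_cancel, hc1] at h2
    have h3 : (Quotient.out x : N)⁻¹ * (Quotient.out y : N) ∈ K := h2
    have h4 := QuotientGroup.eq.2 h3
    rwa [QuotientGroup.out_eq', QuotientGroup.out_eq'] at h4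
  haveI : K.FiniteIndex := Subgroup.finiteIndex_of_finite_quotient
  let N' : Subgroup G := K.map N.subtype
  have hN'i : N'.FiniteIndex := ⟨by
    rw [Subgroup.index_map_subtype]
    exact mul_ne_zero Subgroup.FiniteIndex.index_ne_zero hN.index_ne_zero⟩
  have h1 : IN ρ θ N ≤ IN ρ θ N' := by
    rintro f hf g ⟨x, _, rfl⟩
    exact hf x.1 x.2
  have h2 : 𝔭 ≤ IN ρ θ N' := by
    rintro f hf g ⟨x, hx, rfl⟩
    have h3 : f ∈ c x.1 := by
      have : c x.1 = 𝔭 := hx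
      rw [this]
      exact hf
    have h4 : f.1 (1 * x.1) = 0 := h𝔭le h3
    rw [one_mul] at h4
    exact h4
  have h3 : IN ρ θ N' = IN ρ θ N := by
    by_contra hne
    exact hmax _ ⟨N', hN'i, rfl⟩ (by rw [← hI0]; exact lt_of_le_of_ne h1 (Ne.symm hne))
  have h4 : IN ρ θ N = 𝔭 := le_antisymm h𝔭.1.2 (h3 ▸ h2)
  exact ⟨N, hN, h4 ▸ h𝔭.1.1⟩

/-- **from powers to a subgroup of finite index** -/
theorem finite_index_subgroup [IsAlgClosed k] [CharZero k] (ρ : G →* GL (Fin n) k) (θ : G →* GL (Fin m) k)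
    (q : ℕ) (hq : 0 < q) (h : ∀ g, Among ρ θ (g ^ q)) :
    ∃ N : Subgroup G, N.Normal ∧ N.FiniteIndex ∧ ∀ g ∈ N, Among ρ θ g := by
  obtain ⟨N, hN, hp⟩ := exists_prime ρ θ
  refine ⟨N.normalCore, N.normalCore_normal, inferInstance, fun g hg => ?_⟩
  rw [among_iff_val]
  intro j hj1 hj2
  obtain ⟨s, hs, hs1, hs2⟩ := vanish_near ρ θ q hq (val_mem ρ θ (PP n m j))
    fun g => (among_iff_val ρ θ (g ^ q)).1 (h g) j hj1 hj2
  have h1 : ((⟨s, hs⟩ : AA ρ θ) - 1) * ⟨val ρ θ (PP n m j), val_mem ρ θ _⟩ ∈ IN ρ θ N := by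
    intro x hx
    show (s x - 1) * val ρ θ (PP n m j) x = 0
    by_cases hsx : s x = 1
    · rw [hsx, sub_self, zero_mul]
    · rw [hs2 x hsx, mul_zero]
  rcases hp.mem_or_mem h1 with h2 | h2
  · exfalso
    have h3 : s 1 - 1 = 0 := h2 1 N.one_mem
    rw [hs1, zero_sub, neg_eq_zero] at h3
    exact one_ne_zero h3
  · exact h2 g (N.normalCore_le hg)

end Pool.Agent.X289.EI.FS
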