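import Pool.Agent.X289.EI.Gal
import Pool.Agent.Y800.Falt
import Pool.Agent.Y800.Frob2
import Pool.Agent.X289.SI.Main

/-! Finitely many primes suffice for the eigenvalue condition (Faltings' argument). -/

set_option autoImplicit false
set_option linter.all false

namespace Pool.Agent.X289.EI.FS

open Polynomial Matrix Module
open scoped Pointwise
open Pool.Agent.Y800 (GQ ZBar InInertia IsGeomFrob Unramified exists_prime_set falt_core)

section poly

theorem one_mem_pow {K B : Type*} [Field K] [CommRing B] [Algebra K B] {V : Submodule K B} (h1 : (1 : B) ∈ V)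
    (d : ℕ) : (1 : B) ∈ V ^ d := by
  have := Submodule.pow_mem_pow V h1 d
  rwa [one_pow] at this

/-- a polynomial with integral coefficients in elements of `V` is in a power of `V` -/
theorem ev_mem_pow {σ : Type} (P : MvPolynomial σ ℤ) : ∃ d : ℕ, ∀ (K B : Type) [Field K] [CommRing B]
    [Algebra K B] (V : Submodule K B) (h1 : (1 : B) ∈ V) (φ : σ → B) (hφ : ∀ i, φ i ∈ V),
    MvPolynomial.eval₂Hom (Int.castRingHom B) φ P ∈ V ^ d := by
  induction P using MvPolynomial.induction_on with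
  | C a =>
    refine ⟨0, fun K B _ _ _ V h1 φ hφ => ?_⟩
    rw [pow_zero, MvPolynomial.eval₂Hom_C, Submodule.mem_one]
    exact ⟨(a : K), by simp⟩
  | add p q hp hq =>
    obtain ⟨d, hd⟩ := hp
    obtain ⟨e, he⟩ := hq
    refine ⟨d + e, fun K B _ _ _ V h1 φ hφ => ?_⟩
    rw [map_add, pow_add]
    refine Submodule.add_mem _ ?_ ?_
    · have := Submodule.mul_mem_mul (hd K B V h1 φ hφ) (one_mem_pow h1 e)
      rwa [mul_one] at this
    · have := Submodule.mul_mem_mul (one_mem_pow h1 d) (he K B V h1 φ hφ)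
      rwa [one_mul] at this
  | mul_X p i hp =>
    obtain ⟨d, hd⟩ := hp
    refine ⟨d + 1, fun K B _ _ _ V h1 φ hφ => ?_⟩
    rw [map_mul, pow_succ, MvPolynomial.eval₂Hom_X']
    exact Submodule.mul_mem_mul (hd K B V h1 φ hφ) (hφ i)

theorem ev_cont {σ G k : Type} [TopologicalSpace G] [CommRing k] [TopologicalSpace k] [IsTopologicalRing k]
    (P : MvPolynomial σ ℤ) (φ : σ → G → k) (hφ : ∀ i, Continuous (φ i)) :
    Continuous (MvPolynomial.eval₂Hom (Int.castRingHom (G → k)) φ P) := by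
  induction P using MvPolynomial.induction_on with
  | C a =>
    rw [MvPolynomial.eval₂Hom_C]
    have : (Int.castRingHom (G → k)) a = fun _ => (a : k) := by
      funext x
      simp
    rw [this]
    exact continuous_const
  | add p q hp hq =>
    rw [map_add]
    exact hp.add hq
  | mul_X p i hp =>
    rw [map_mul, MvPolynomial.eval₂Hom_X']
    exact hp.mul (hφ i)

end poly

section core

variable {G k : Type} [Group G] [Field k]

/-- right translation -/
def Rt (h : G) : (G → k) →ₐ[k] (G → k) where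
  toFun f := fun x => f (x * h)
  map_one' := rfl
  map_mul' _ _ := rfl
  map_zero' := rfl
  map_add' _ _ := rfl
  commutes' _ := rfl

theorem Rt_apply (h : G) (f : G → k) (x : G) : Rt h f x = f (x * h) := rfl

theorem map_pow_le (V : Submodule k (G → k)) (h : G) (hV : ∀ f ∈ V, Rt h f ∈ V) (d : ℕ) :
    ∀ f ∈ V ^ d, Rt h f ∈ V ^ d := by
  induction d with
  | zero =>
    intro f hf
    rw [pow_zero, Submodule.mem_one] at hf ⊢
    obtain ⟨y, rfl⟩ := hf
    exact ⟨y, rfl⟩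
  | succ d ih =>
    intro f hf
    rw [pow_succ] at hf ⊢
    have h1 : V ^ d * V ≤ Submodule.comap (Rt h).toLinearMap (V ^ d * V) := by
      refine Submodule.mul_le.2 fun a ha b hb => ?_
      show Rt h (a * b) ∈ V ^ d * V
      rw [map_mul]
      exact Submodule.mul_mem_mul (ih a ha) (hV b hb)
    exact h1 hf

theorem fix_pow (V : Submodule k (G → k)) (h : G) (hV : ∀ f ∈ V, Rt h f = f) (d : ℕ) :
    ∀ f ∈ V ^ d, Rt h f = f := by
  induction d with
  | zero =>
    intro f hf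
    rw [pow_zero, Submodule.mem_one] at hf
    obtain ⟨y, rfl⟩ := hf
    rfl
  | succ d ih =>
    intro f hf
    rw [pow_succ] at hf
    have h1 : V ^ d * V ≤ LinearMap.eqLocus (Rt h).toLinearMap LinearMap.id := by
      refine Submodule.mul_le.2 fun a ha b hb => ?_
      show Rt h (a * b) = a * b
      rw [map_mul, ih a ha, hV b hb]
    exact h1 hf

/-- the action of `G` on a space of functions by right translation -/
def rr (W : Submodule k (G → k)) (hW : ∀ h, ∀ f ∈ W, Rt h f ∈ W) : G →* Module.End k W where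
  toFun h := (Rt h).toLinearMap.restrict (hW h)
  map_one' := by
    apply LinearMap.ext
    intro f
    apply Subtype.ext
    funext x
    show f.1 (x * 1) = f.1 x
    rw [mul_one]
  map_mul' g h := by
    apply LinearMap.ext
    intro f
    apply Subtype.ext
    funext x
    show f.1 (x * (g * h)) = f.1 (x * g * h)
    rw [mul_assoc]

/-- the functional of a function -/
def LF (W : Submodule k (G → k)) (f : W) : Module.End k W →ₗ[k] k where
  toFun X := (X f).1 1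
  map_add' X Y := rfl
  map_smul' c X := rfl

theorem LF_rr (W : Submodule k (G → k)) (hW : ∀ h, ∀ f ∈ W, Rt h f ∈ W) (f : W) (g : G) :
    LF W f (rr W hW g) = f.1 g := by
  show f.1 (1 * g) = f.1 g
  rw [one_mul]

theorem comm_of {V : Type} [AddCommGroup V] [Module k V] (r : G →* Module.End k V) (L : Module.End k V →ₗ[k] k)
    (h1 : ∀ g h, L (r g * r h) = L (r h * r g)) (x y : Algebra.adjoin k (Set.range r)) :
    L (x.1 * y.1) = L (y.1 * x.1) := by
  have hspan : ∀ z ∈ Algebra.adjoin k (Set.range r), z ∈ Submodule.span k (Set.range r) := by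
    intro z hz
    rw [← Subalgebra.mem_toSubmodule, Algebra.adjoin_eq_span, ← MonoidHom.coe_mrange, Submonoid.closure_eq,
      MonoidHom.coe_mrange] at hz
    exact hz
  have h2 : ∀ g : G, ∀ b ∈ Submodule.span k (Set.range r), L (r g * b) = L (b * r g) := by
    intro g b hb
    induction hb using Submodule.span_induction with
    | mem b hb =>
      obtain ⟨h, rfl⟩ := hb
      exact h1 g h
    | zero => rw [mul_zero, zero_mul]
    | add b b' _ _ h h' => rw [mul_add, add_mul, map_add, map_add, h, h']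
    | smul c b _ h => rw [mul_smul_comm, smul_mul_assoc, map_smul, map_smul, h]
  have h3 : ∀ a ∈ Submodule.span k (Set.range r), ∀ b ∈ Submodule.span k (Set.range r),
      L (a * b) = L (b * a) := by
    intro a ha b hb
    induction ha using Submodule.span_induction with
    | mem a ha =>
      obtain ⟨h, rfl⟩ := ha
      exact h2 h b hb
    | zero => rw [mul_zero, zero_mul]
    | add a a' _ _ h h' => rw [mul_add, add_mul, map_add, map_add, h, h']
    | smul c a _ h => rw [mul_smul_comm, smul_mul_assoc, map_smul, map_smul, h]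
  exact h3 _ (hspan _ x.2) _ (hspan _ y.2)

theorem exists_alg' {V : Type} [AddCommGroup V] [Module k V] [FiniteDimensional k V] (r : G →* Module.End k V)
    (L : Module.End k V →ₗ[k] k) (h1 : ∀ g h, L (r g * r h) = L (r h * r g)) :
    ∃ (A : Type) (_ : Ring A) (_ : Algebra k A) (_ : FiniteDimensional k A) (r' : G →* A) (τ : A →ₗ[k] k),
      (∀ x y, τ (x * y) = τ (y * x)) ∧ (∀ g, τ (r' g) = L (r g)) ∧ finrank k A ≤ finrank k V * finrank k V ∧
      (∀ g, r g = 1 → r' g = 1) := by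
  haveI : FiniteDimensional k (Algebra.adjoin k (Set.range r)) :=
    inferInstanceAs (FiniteDimensional k (Subalgebra.toSubmodule (Algebra.adjoin k (Set.range r))))
  refine ⟨Algebra.adjoin k (Set.range r), inferInstance, inferInstance, inferInstance,
    r.codRestrict _ (fun g => Algebra.subset_adjoin ⟨g, rfl⟩),
    L ∘ₗ (Algebra.adjoin k (Set.range r)).val.toLinearMap,
    fun x y => comm_of r L h1 x y, fun g => rfl, ?_, ?_⟩
  · have h1 : finrank k (Subalgebra.toSubmodule (Algebra.adjoin k (Set.range r))) ≤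
        finrank k (Module.End k V) := Submodule.finrank_le _
    rw [Module.finrank_linearMap] at h1
    exact h1
  · intro g hg
    exact Subtype.ext hg

theorem exists_alg (W : Submodule k (G → k)) [FiniteDimensional k W] (hW : ∀ h, ∀ f ∈ W, Rt h f ∈ W) (f : W)
    (hf : ∀ g h, f.1 (g * h) = f.1 (h * g)) :
    ∃ (A : Type) (_ : Ring A) (_ : Algebra k A) (_ : FiniteDimensional k A) (r : G →* A) (τ : A →ₗ[k] k),
      (∀ x y, τ (x * y) = τ (y * x)) ∧ (∀ g, τ (r g) = f.1 g) ∧ finrank k A ≤ finrank k W * finrank k W ∧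
      (∀ g, (∀ w ∈ W, Rt g w = w) → r g = 1) := by
  obtain ⟨A, i1, i2, i3, r, τ, h1, h2, h3, h4⟩ := exists_alg' (rr W hW) (LF W f) (fun g h => by
    rw [← map_mul, ← map_mul, LF_rr, LF_rr, hf])
  refine ⟨A, i1, i2, i3, r, τ, h1, fun g => (h2 g).trans (LF_rr W hW f g), h3, fun g hg => h4 g ?_⟩
  apply LinearMap.ext
  intro w
  apply Subtype.ext
  exact hg w.1 w.2

end core

/-- Faltings' argument for one function -/
theorem fun_core {ℓ : ℕ} [Fact ℓ.Prime] {G k : Type} [Group G] [TopologicalSpace G] [IsTopologicalGroup G]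
    [CompactSpace G] [NormedField k] [NormedAlgebra ℚ_[ℓ] k] (W : Submodule k (G → k)) [FiniteDimensional k W]
    (hW : ∀ h, ∀ f ∈ W, Rt h f ∈ W) (f : W) (hf : ∀ g h, f.1 (g * h) = f.1 (h * g)) (hc : Continuous f.1)
    (E : Submodule ℚ_[ℓ] k) [FiniteDimensional ℚ_[ℓ] E] (hE : ∀ g, f.1 g ∈ E) (B e : ℕ)
    (hB : finrank k W ≤ B) (he : finrank ℚ_[ℓ] E ≤ e) :
    ∃ H : Subgroup G, H.Normal ∧ IsOpen (H : Set G) ∧
      H.index ≤ (ℓ ^ (2 * (B * B) * e)) ^ (ℓ ^ (2 * (B * B) * e)) ∧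
      (∀ g, (∀ w ∈ W, Rt g w = w) → g ∈ H) ∧
      ∀ Z : Set G, (∀ g, ∃ s ∈ Z, s * g⁻¹ ∈ H) → (∀ s ∈ Z, f.1 s = 0) → ∀ g, f.1 g = 0 := by
  letI : Algebra ℤ_[ℓ] k := ((algebraMap ℚ_[ℓ] k).comp (algebraMap ℤ_[ℓ] ℚ_[ℓ])).toAlgebra
  haveI : IsScalarTower ℤ_[ℓ] ℚ_[ℓ] k := IsScalarTower.of_algebraMap_eq (fun x => rfl)
  obtain ⟨A, _, _, _, r, τ, hτ, hr, hA, hker⟩ := exists_alg W hW f hf
  obtain ⟨H, hHn, hHo, hHi, hHker, hH⟩ := falt_core (ℓ := ℓ) (k := k) r τ 0 hτ (fun x y => rfl)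
    (by
      have : (fun g => τ (r g)) = f.1 := funext hr
      rw [this]
      exact hc) continuous_const E (fun g => by rw [hr]; exact hE g) (fun g => E.zero_mem)
  refine ⟨H, hHn, hHo, hHi.trans ?_, fun g hg => hHker g (hker g hg), ?_⟩
  · have h1 : 2 * finrank k A * finrank ℚ_[ℓ] E ≤ 2 * (B * B) * e :=
      Nat.mul_le_mul (Nat.mul_le_mul_left 2 (hA.trans (Nat.mul_le_mul hB hB))) he
    have h2 : 0 < ℓ := (Fact.out : ℓ.Prime).pos
    have h3 : ℓ ^ (2 * finrank k A * finrank ℚ_[ℓ] E) ≤ ℓ ^ (2 * (B * B) * e) := Nat.pow_le_pow_right h2 h1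
    exact (Nat.pow_le_pow_left h3 _).trans (Nat.pow_le_pow_right (pow_pos h2 _) h3)
  · intro Z hZ h0 g
    rw [← hr]
    exact hH Z hZ (fun s hs => by rw [hr]; exact h0 s hs) g

section rep

variable {G k : Type} [Group G] [Field k] {n m : ℕ}

/-- the entries of `ρ` and `θ` -/
def phi (ρ : G →* GL (Fin n) k) (θ : G →* GL (Fin m) k) : (Fin n × Fin n) ⊕ (Fin m × Fin m) → G → k :=
  Sum.elim (fun s g => (ρ g : Matrix (Fin n) (Fin n) k) s.1 s.2)
    (fun s g => (θ g : Matrix (Fin m) (Fin m) k) s.1 s.2)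

/-- the value of a polynomial -/
noncomputable def val (ρ : G →* GL (Fin n) k) (θ : G →* GL (Fin m) k)
    (P : MvPolynomial ((Fin n × Fin n) ⊕ (Fin m × Fin m)) ℤ) : G → k :=
  MvPolynomial.eval₂Hom (Int.castRingHom (G → k)) (phi ρ θ) P

/-- the space of the entries -/
noncomputable def VV (ρ : G →* GL (Fin n) k) (θ : G →* GL (Fin m) k) : Submodule k (G → k) :=
  Submodule.span k (insert 1 (Set.range (phi ρ θ)))

theorem VV_one (ρ : G →* GL (Fin n) k) (θ : G →* GL (Fin m) k) : (1 : G → k) ∈ VV ρ θ :=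
  Submodule.subset_span (Set.mem_insert _ _)

theorem VV_phi (ρ : G →* GL (Fin n) k) (θ : G →* GL (Fin m) k) (s) : phi ρ θ s ∈ VV ρ θ :=
  Submodule.subset_span (Set.mem_insert_of_mem _ ⟨s, rfl⟩)

theorem phi_Rt (ρ : G →* GL (Fin n) k) (θ : G →* GL (Fin m) k) (s) (h : G) : Rt h (phi ρ θ s) ∈ VV ρ θ := by
  rcases s with ⟨i, j⟩ | ⟨i, j⟩
  · have : Rt h (phi ρ θ (Sum.inl (i, j))) =
        ∑ l, (ρ h : Matrix (Fin n) (Fin n) k) l j • phi ρ θ (Sum.inl (i, l)) := by
      funext x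
      rw [Finset.sum_apply]
      show (ρ (x * h) : Matrix (Fin n) (Fin n) k) i j = _
      rw [map_mul, Units.val_mul, Matrix.mul_apply]
      exact Finset.sum_congr rfl fun l _ => mul_comm _ _
    rw [this]
    exact Submodule.sum_mem _ fun l _ => Submodule.smul_mem _ _ (VV_phi ρ θ _)
  · have : Rt h (phi ρ θ (Sum.inr (i, j))) =
        ∑ l, (θ h : Matrix (Fin m) (Fin m) k) l j • phi ρ θ (Sum.inr (i, l)) := by
      funext x
      rw [Finset.sum_apply]
      show (θ (x * h) : Matrix (Fin m) (Fin m) k) i j = _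
      rw [map_mul, Units.val_mul, Matrix.mul_apply]
      exact Finset.sum_congr rfl fun l _ => mul_comm _ _
    rw [this]
    exact Submodule.sum_mem _ fun l _ => Submodule.smul_mem _ _ (VV_phi ρ θ _)

theorem VV_Rt (ρ : G →* GL (Fin n) k) (θ : G →* GL (Fin m) k) (h : G) : ∀ f ∈ VV ρ θ, Rt h f ∈ VV ρ θ := by
  have h1 : VV ρ θ ≤ Submodule.comap (Rt h).toLinearMap (VV ρ θ) := by
    refine Submodule.span_le.2 ?_
    rintro f (rfl | ⟨s, rfl⟩)
    · show Rt h (1 : G → k) ∈ VV ρ θ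
      rw [map_one]
      exact VV_one ρ θ
    · exact phi_Rt ρ θ s h
  exact fun f hf => h1 hf

theorem VV_fix (ρ : G →* GL (Fin n) k) (θ : G →* GL (Fin m) k) (h : G) (h1 : ρ h = 1) (h2 : θ h = 1) :
    ∀ f ∈ VV ρ θ, Rt h f = f := by
  have h1 : VV ρ θ ≤ LinearMap.eqLocus (Rt h).toLinearMap LinearMap.id := by
    refine Submodule.span_le.2 ?_
    rintro f (rfl | ⟨s, rfl⟩)
    · show Rt h (1 : G → k) = 1
      rw [map_one]
    · show Rt h (phi ρ θ s) = phi ρ θ s
      funext x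
      rw [Rt_apply]
      rcases s with s | s
      · show (ρ (x * h) : Matrix (Fin n) (Fin n) k) s.1 s.2 = (ρ x : Matrix (Fin n) (Fin n) k) s.1 s.2
        rw [map_mul, h1, mul_one]
      · show (θ (x * h) : Matrix (Fin m) (Fin m) k) s.1 s.2 = (θ x : Matrix (Fin m) (Fin m) k) s.1 s.2
        rw [map_mul, h2, mul_one]
  exact fun f hf => h1 hf

theorem VV_fin (ρ : G →* GL (Fin n) k) (θ : G →* GL (Fin m) k) (d : ℕ) :
    FiniteDimensional k (VV ρ θ ^ d : Submodule k (G → k)) ∧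
      finrank k (VV ρ θ ^ d : Submodule k (G → k)) ≤ (1 + (n * n + m * m)) ^ d := by
  classical
  let s : Finset (G → k) := insert 1 (Finset.univ.image (phi ρ θ))
  have hs : VV ρ θ = Submodule.span k (s : Set (G → k)) := by
    unfold VV
    congr 1
    simp [s]
  have hcard : s.card ≤ 1 + (n * n + m * m) := by
    refine (Finset.card_insert_le _ _).trans ?_
    have h1 := Finset.card_image_le (s := Finset.univ) (f := phi ρ θ)
    rw [Finset.card_univ, Fintype.card_sum, Fintype.card_prod, Fintype.card_prod, Fintype.card_fin,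
      Fintype.card_fin] at h1
    omega
  have hs' : VV ρ θ ^ d = Submodule.span k ((s ^ d : Finset (G → k)) : Set (G → k)) := by
    rw [hs, Submodule.span_pow, Finset.coe_pow]
  rw [hs']
  refine ⟨FiniteDimensional.span_finset k _, ?_⟩
  refine (finrank_span_finset_le_card _).trans ?_
  exact (Finset.card_pow_le).trans (Nat.pow_le_pow_left hcard d)

end rep

theorem conj_ideal (τ : GQ) (Q : Ideal ZBar) (hQ : Q.IsMaximal) {p : ℕ} (hp : (p : ZBar) ∈ Q) :
    ∃ Q' : Ideal ZBar, Q'.IsMaximal ∧ (p : ZBar) ∈ Q' ∧ ∀ x, x ∈ Q' ↔ τ⁻¹ • x ∈ Q := by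
  refine ⟨Q.comap (MulSemiringAction.toRingEquiv GQ ZBar τ⁻¹), Ideal.comap_isMaximal_of_equiv _, ?_,
    fun x => Iff.rfl⟩
  rw [Ideal.mem_comap, map_natCast]
  exact hp

theorem geom_conj {p : ℕ} {Q Q' : Ideal ZBar} {σ : GQ} (τ : GQ) (h : IsGeomFrob p Q σ)
    (hQ' : ∀ x, x ∈ Q' ↔ τ⁻¹ • x ∈ Q) : IsGeomFrob p Q' (τ * σ * τ⁻¹) := by
  intro x
  have h1 := h (τ⁻¹ • x)
  rw [hQ', smul_sub, smul_pow', mul_smul, mul_smul, inv_smul_smul]
  exact h1

theorem inertia_conj {Q Q' : Ideal ZBar} {σ : GQ} (τ : GQ) (h : InInertia Q σ)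
    (hQ' : ∀ x, x ∈ Q' ↔ τ⁻¹ • x ∈ Q) : InInertia Q' (τ * σ * τ⁻¹) := by
  intro x
  have h1 := h (τ⁻¹ • x)
  rw [hQ', smul_sub, mul_smul, mul_smul, inv_smul_smul]
  exact h1

/-- unramified at the places above `p` -/
def Unr {U : Subgroup GQ} {k : Type} [Field k] {n : ℕ} (ρ : U →* GL (Fin n) k) (p : ℕ) : Prop :=
  ∀ Q : Ideal ZBar, Q.IsMaximal → (p : ZBar) ∈ Q → ∀ τ : U, InInertia Q τ.1 → ρ τ = 1

/-- the set of primes for one polynomial -/
theorem prime_set {n m : ℕ} (P : MvPolynomial ((Fin n × Fin n) ⊕ (Fin m × Fin m)) ℤ) (U : Subgroup GQ)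
    (hU : IsOpen (U : Set GQ)) (S : Finset ℕ) (hS : ∀ p ∈ S, p.Prime)
    (hram : ∀ p : ℕ, p.Prime → p ∉ S → ∀ Q : Ideal ZBar, Q.IsMaximal → (p : ZBar) ∈ Q →
      ∀ τ : GQ, InInertia Q τ → τ ∈ U) (ℓ : ℕ) [Fact ℓ.Prime] (e : ℕ) :
    ∃ 𝒯 : Finset ℕ, (∀ p ∈ 𝒯, p.Prime ∧ p ∉ S) ∧ ∀ (k : Type) [NormedField k] [NormedAlgebra ℚ_[ℓ] k]
      (ρ : U →* GL (Fin n) k) (θ : U →* GL (Fin m) k), Continuous ρ → Continuous θ →
      (∀ p, p.Prime → p ∉ S → Unr ρ p ∧ Unr θ p) →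
      (∀ g h, val ρ θ P (g * h) = val ρ θ P (h * g)) →
      ∀ (E : Submodule ℚ_[ℓ] k) [FiniteDimensional ℚ_[ℓ] E], finrank ℚ_[ℓ] E ≤ e →
      (∀ g, val ρ θ P g ∈ E) →
      (∀ p ∈ 𝒯, ∀ Q : Ideal ZBar, Q.IsMaximal → (p : ZBar) ∈ Q → ∀ σ : U, IsGeomFrob p Q σ.1 →
        val ρ θ P σ = 0) → ∀ g, val ρ θ P g = 0 := by
  obtain ⟨d, hd⟩ := ev_mem_pow P
  set B : ℕ := (1 + (n * n + m * m)) ^ d with hB
  set D : ℕ := (ℓ ^ (2 * (B * B) * e)) ^ (ℓ ^ (2 * (B * B) * e)) with hDdef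
  obtain ⟨𝒯, h𝒯, hD⟩ := exists_prime_set S hS S (D * U.index).factorial
  refine ⟨𝒯, h𝒯, ?_⟩
  intro k _ _ ρ θ hρ hθ hu hcl E _ he hE h0
  haveI : CompactSpace U := isCompact_iff_compactSpace.1 (U.isClosed_of_isOpen hU).isCompact
  have hmem : val ρ θ P ∈ VV ρ θ ^ d := hd k (U → k) (VV ρ θ) (VV_one ρ θ) (phi ρ θ) (VV_phi ρ θ)
  haveI := (VV_fin ρ θ d).1
  have hcont : Continuous (val ρ θ P) := by
    refine ev_cont P (phi ρ θ) fun s => ?_
    rcases s with s | s
    · exact (Units.continuous_val.comp hρ).matrix_elem s.1 s.2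
    · exact (Units.continuous_val.comp hθ).matrix_elem s.1 s.2
  obtain ⟨H, hHn, hHo, hHi, hHker, hH⟩ := fun_core (ℓ := ℓ) (VV ρ θ ^ d : Submodule k (U → k))
    (fun h => map_pow_le _ h (VV_Rt ρ θ h) d) ⟨val ρ θ P, hmem⟩ hcl hcont E hE B e (VV_fin ρ θ d).2 he
  -- the subgroup of `GQ`
  set H' : Subgroup GQ := H.map U.subtype with hH'
  have hH'o : IsOpen (H' : Set GQ) := by
    rw [hH', Subgroup.coe_map]
    exact hU.isOpenEmbedding_subtypeVal.isOpenMap _ hHo
  obtain ⟨hNo, hfi⟩ := Pool.Agent.X289.SI.open_core H' hH'o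
  have hNi : H'.normalCore.index ≤ (D * U.index).factorial := by
    refine (Pool.Agent.X289.SI.core_index H').trans (Nat.factorial_le ?_)
    rw [hH', Subgroup.index_map_subtype]
    exact Nat.mul_le_mul_right _ hHi
  have hin : ∀ p : ℕ, p.Prime → p ∉ S → ∀ Q : Ideal ZBar, Q.IsMaximal → (p : ZBar) ∈ Q →
      ∀ τ : GQ, InInertia Q τ → τ ∈ H'.normalCore := by
    intro p hp hpS Q hQ hpQ τ hτ b
    obtain ⟨Q', hQ'1, hQ'2, hQ'3⟩ := conj_ideal b Q hQ hpQ
    have h1 := inertia_conj b hτ hQ'3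
    obtain ⟨h2, h3⟩ := hu p hp hpS
    have h4 : b * τ * b⁻¹ ∈ U := hram p hp hpS Q' hQ'1 hQ'2 _ h1
    refine ⟨⟨b * τ * b⁻¹, h4⟩, ?_, rfl⟩
    exact hHker _ (fix_pow _ _ (VV_fix ρ θ _ (h2 Q' hQ'1 hQ'2 ⟨b * τ * b⁻¹, h4⟩ h1)
      (h3 Q' hQ'1 hQ'2 ⟨b * τ * b⁻¹, h4⟩ h1)) d)
  refine hH {x | ∃ p ∈ 𝒯, ∃ Q : Ideal ZBar, Q.IsMaximal ∧ (p : ZBar) ∈ Q ∧ IsGeomFrob p Q x.1} ?_ ?_
  · intro g
    obtain ⟨p, hp, Q, hQ, hpQ, σ, hσ, τ, hτ⟩ := hD H'.normalCore H'.normalCore_normal hNo hNi hin g.1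
    obtain ⟨u, hu1, hu2⟩ := H'.normalCore_le hτ
    have hu2' : u.1 = τ * σ * τ⁻¹ * g.1⁻¹ := hu2
    obtain ⟨Q', hQ'1, hQ'2, hQ'3⟩ := conj_ideal τ Q hQ hpQ
    have h1 : (u * g).1 = τ * σ * τ⁻¹ := by
      show u.1 * g.1 = _
      rw [hu2', inv_mul_cancel_right]
    refine ⟨u * g, ⟨p, hp, Q', hQ'1, hQ'2, ?_⟩, ?_⟩
    · rw [h1]
      exact geom_conj τ hσ hQ'3
    · rw [mul_inv_cancel_right]
      exact hu1
  · rintro x ⟨p, hp, Q, hQ, hpQ, hσ⟩
    exact h0 p hp Q hQ hpQ x hσ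

section tr

variable {G k : Type} [Group G] [Field k] {n m : ℕ}

/-- the generic polynomial for `tr (χ_θ (ρ) ^ j)` -/
noncomputable def PP (n m j : ℕ) : MvPolynomial ((Fin n × Fin n) ⊕ (Fin m × Fin m)) ℤ :=
  ((aeval (Matrix.of fun i l => MvPolynomial.X (Sum.inl (i, l)) :
      Matrix (Fin n) (Fin n) (MvPolynomial ((Fin n × Fin n) ⊕ (Fin m × Fin m)) ℤ))
    (Matrix.of fun i l => MvPolynomial.X (Sum.inr (i, l)) :
      Matrix (Fin m) (Fin m) (MvPolynomial ((Fin n × Fin n) ⊕ (Fin m × Fin m)) ℤ)).charpoly) ^ j).trace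

theorem val_PP (ρ : G →* GL (Fin n) k) (θ : G →* GL (Fin m) k) (j : ℕ) (g : G) :
    val ρ θ (PP n m j) g = ((aeval (ρ g : Matrix (Fin n) (Fin n) k)
      (θ g : Matrix (Fin m) (Fin m) k).charpoly) ^ j).trace := by
  let f : MvPolynomial ((Fin n × Fin n) ⊕ (Fin m × Fin m)) ℤ →+* k :=
    (Pi.evalRingHom (fun _ : G => k) g).comp (MvPolynomial.eval₂Hom (Int.castRingHom (G → k)) (phi ρ θ))
  have e1 : (Matrix.of fun i l => MvPolynomial.X (Sum.inl (i, l)) :
      Matrix (Fin n) (Fin n) (MvPolynomial ((Fin n × Fin n) ⊕ (Fin m × Fin m)) ℤ)).map f =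
      (ρ g : Matrix (Fin n) (Fin n) k) := by
    ext i l
    show (MvPolynomial.eval₂Hom (Int.castRingHom (G → k)) (phi ρ θ)) (MvPolynomial.X (Sum.inl (i, l))) g = _
    rw [MvPolynomial.eval₂Hom_X']
    rfl
  have e2 : (Matrix.of fun i l => MvPolynomial.X (Sum.inr (i, l)) :
      Matrix (Fin m) (Fin m) (MvPolynomial ((Fin n × Fin n) ⊕ (Fin m × Fin m)) ℤ)).map f =
      (θ g : Matrix (Fin m) (Fin m) k) := by
    ext i l
    show (MvPolynomial.eval₂Hom (Int.castRingHom (G → k)) (phi ρ θ)) (MvPolynomial.X (Sum.inr (i, l))) g = _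
    rw [MvPolynomial.eval₂Hom_X']
    rfl
  have h := map_poly f (Matrix.of fun i l => MvPolynomial.X (Sum.inl (i, l)) :
      Matrix (Fin n) (Fin n) (MvPolynomial ((Fin n × Fin n) ⊕ (Fin m × Fin m)) ℤ))
      (Matrix.of fun i l => MvPolynomial.X (Sum.inr (i, l)) :
      Matrix (Fin m) (Fin m) (MvPolynomial ((Fin n × Fin n) ⊕ (Fin m × Fin m)) ℤ)) j
  rw [e1, e2] at h
  rw [← h]
  show f (PP n m j) = _
  unfold PP
  rw [Matrix.trace, Matrix.trace, map_sum]
  rfl

theorem trace_aeval (ρ : G →* GL (Fin n) k) (q : k[X]) (g : G) :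
    (aeval (ρ g : Matrix (Fin n) (Fin n) k) q).trace =
      ∑ i ∈ Finset.range (q.natDegree + 1), q.coeff i * (ρ (g ^ i) : Matrix (Fin n) (Fin n) k).trace := by
  rw [aeval_eq_sum_range, Matrix.trace_sum]
  refine Finset.sum_congr rfl fun i _ => ?_
  rw [Matrix.trace_smul, map_pow, Units.val_pow_eq_pow_val, smul_eq_mul]

theorem val_PP' (ρ : G →* GL (Fin n) k) (θ : G →* GL (Fin m) k) (j : ℕ) (g : G) :
    val ρ θ (PP n m j) g = ∑ i ∈ Finset.range (((θ g : Matrix (Fin m) (Fin m) k).charpoly ^ j).natDegree + 1),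
      ((θ g : Matrix (Fin m) (Fin m) k).charpoly ^ j).coeff i *
        (ρ (g ^ i) : Matrix (Fin n) (Fin n) k).trace := by
  rw [val_PP, ← map_pow, trace_aeval]

theorem val_comm (ρ : G →* GL (Fin n) k) (θ : G →* GL (Fin m) k) (j : ℕ) (g h : G) :
    val ρ θ (PP n m j) (g * h) = val ρ θ (PP n m j) (h * g) := by
  have e : g * h = g * (h * g) * g⁻¹ := by group
  have h1 : (θ (g * h) : Matrix (Fin m) (Fin m) k).charpoly = (θ (h * g) : Matrix (Fin m) (Fin m) k).charpoly := by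
    rw [e, map_mul θ (g * (h * g)), map_mul θ g (h * g), map_inv, Units.val_mul, Units.val_mul,
      Matrix.coe_units_inv]
    exact Matrix.charpoly_units_conj (θ g) (θ (h * g) : Matrix (Fin m) (Fin m) k)
  have h2 : ∀ i : ℕ, (ρ ((g * h) ^ i) : Matrix (Fin n) (Fin n) k).trace =
      (ρ ((h * g) ^ i) : Matrix (Fin n) (Fin n) k).trace := by
    intro i
    have e2 : (g * h) ^ i = g * (h * g) ^ i * g⁻¹ := by
      conv_lhs => rw [e]
      exact conj_pow
    rw [e2, map_mul, map_mul, Units.val_mul, Matrix.trace_mul_comm, ← Units.val_mul, ← mul_assoc,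
      ← map_mul, inv_mul_cancel, map_one, one_mul]
  rw [val_PP', val_PP', h1]
  exact Finset.sum_congr rfl fun i _ => by rw [h2]

theorem trace_pow_zero {y : Matrix (Fin n) (Fin n) k} (h : ∀ j, 1 ≤ j → j ≤ n → (y ^ j).trace = 0) :
    ∀ j, 1 ≤ j → (y ^ j).trace = 0 := by
  intro j
  induction j using Nat.strong_induction_on with
  | _ j ih =>
    intro hj
    rcases le_or_gt j n with h1 | h1
    · exact h j hj h1
    · have hch := y.aeval_self_charpoly
      have hdeg : y.charpoly.natDegree = n := by rw [Matrix.charpoly_natDegree_eq_dim, Fintype.card_fin]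
      have hlead : y.charpoly.coeff n = 1 := by
        have := y.charpoly_monic.coeff_natDegree
        rwa [hdeg] at this
      rw [aeval_eq_sum_range, hdeg, Finset.sum_range_succ, hlead, one_smul] at hch
      have h2 : y ^ j = -∑ i ∈ Finset.range n, y.charpoly.coeff i • y ^ (i + (j - n)) := by
        have e1 : y ^ j = y ^ n * y ^ (j - n) := by
          rw [← pow_add]
          congr 1
          omega
        rw [e1, eq_neg_of_add_eq_zero_right hch, neg_mul, Finset.sum_mul]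
        congr 1
        refine Finset.sum_congr rfl fun i _ => ?_
        rw [smul_mul_assoc, ← pow_add]
      rw [h2, Matrix.trace_neg, Matrix.trace_sum, neg_eq_zero]
      refine Finset.sum_eq_zero fun i hi => ?_
      rw [Matrix.trace_smul, ih (i + (j - n)) (by have := Finset.mem_range.1 hi; omega) (by omega), smul_zero]

theorem nilp_of_traces [CharZero k] {y : Matrix (Fin n) (Fin n) k}
    (h : ∀ j, 1 ≤ j → j ≤ n → (y ^ j).trace = 0) : y ^ n = 0 := by
  have h1 : IsNilpotent y := by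
    refine Pool.Agent.Y800.nilpotent_of_trace (fun j hj _ => by exact_mod_cast (by omega : j ≠ 0)) fun f => ?_
    rw [aeval_eq_sum_range, Finset.sum_mul, Matrix.trace_sum]
    refine Finset.sum_eq_zero fun i _ => ?_
    rw [smul_mul_assoc, ← pow_succ, Matrix.trace_smul, trace_pow_zero h (i + 1) (by omega), smul_zero]
  have h2 := Matrix.isNilpotent_charpoly_sub_pow_of_isNilpotent h1
  have h3 : y.charpoly = X ^ n := by
    have h4 := h2.eq_zero
    rw [sub_eq_zero, Fintype.card_fin] at h4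
    exact h4
  have h5 := y.aeval_self_charpoly
  rwa [h3, map_pow, aeval_X] at h5

end tr

/-- **finitely many primes suffice** -/
theorem roots_of_finite (n m : ℕ) (U : Subgroup GQ) (hU : IsOpen (U : Set GQ)) (S : Finset ℕ)
    (hS : ∀ p ∈ S, p.Prime)
    (hram : ∀ p : ℕ, p.Prime → p ∉ S → ∀ Q : Ideal ZBar, Q.IsMaximal → (p : ZBar) ∈ Q →
      ∀ τ : GQ, InInertia Q τ → τ ∈ U) (ℓ : ℕ) [Fact ℓ.Prime] (e : ℕ) :
    ∃ 𝒯 : Finset ℕ, (∀ p ∈ 𝒯, p.Prime ∧ p ∉ S) ∧ ∀ (k : Type) [NormedField k] [IsAlgClosed k]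
      [NormedAlgebra ℚ_[ℓ] k] (ρ : U →* GL (Fin n) k) (θ : U →* GL (Fin m) k), Continuous ρ → Continuous θ →
      (∀ p, p.Prime → p ∉ S → Unr ρ p ∧ Unr θ p) →
      ∀ (E : IntermediateField ℚ_[ℓ] k) [FiniteDimensional ℚ_[ℓ] E], finrank ℚ_[ℓ] E ≤ e →
      (∀ g, (ρ g : Matrix (Fin n) (Fin n) k).trace ∈ E) →
      (∀ g i, (θ g : Matrix (Fin m) (Fin m) k).charpoly.coeff i ∈ E) →
      (∀ p ∈ 𝒯, ∀ Q : Ideal ZBar, Q.IsMaximal → (p : ZBar) ∈ Q → ∀ σ : U, IsGeomFrob p Q σ.1 →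
        Among ρ θ σ) → RootsIn ρ θ := by
  choose 𝒯 h𝒯 hD using fun j : ℕ => prime_set (PP n m j) U hU S hS hram ℓ e
  refine ⟨(Finset.range (n + 1)).biUnion 𝒯, ?_, ?_⟩
  · intro p hp
    obtain ⟨j, _, hj⟩ := Finset.mem_biUnion.1 hp
    exact h𝒯 j p hj
  · intro k _ _ _ ρ θ hρ hθ hu E _ he hE1 hE2 hF
    haveI : CharZero k := charZero_of_injective_algebraMap (algebraMap ℚ_[ℓ] k).injective
    have key : ∀ j, 1 ≤ j → j ≤ n → ∀ g, val ρ θ (PP n m j) g = 0 := by
      intro j hj1 hj2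
      refine hD j k ρ θ hρ hθ hu (val_comm ρ θ j) (Subalgebra.toSubmodule E.toSubalgebra) he ?_ ?_
      · intro g
        show val ρ θ (PP n m j) g ∈ E
        rw [val_PP']
        refine sum_mem fun i _ => mul_mem ?_ (hE1 _)
        have h1 : (θ g : Matrix (Fin m) (Fin m) k).charpoly ∈ Polynomial.lifts (algebraMap E k) :=
          (Polynomial.lifts_iff_coeff_lifts _).2 fun i => ⟨⟨_, hE2 g i⟩, rfl⟩
        have h2 := pow_mem h1 j
        obtain ⟨x, hx⟩ := (Polynomial.lifts_iff_coeff_lifts _).1 h2 i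
        rw [← hx]
        exact x.2
      · intro p hp Q hQ hpQ σ hσ
        have h1 := hF p (Finset.mem_biUnion.2 ⟨j, Finset.mem_range.2 (by omega), hp⟩) Q hQ hpQ σ hσ
        rw [among_iff] at h1
        rw [val_PP]
        have h2 : IsNilpotent ((aeval (ρ σ : Matrix (Fin n) (Fin n) k)
            (θ σ : Matrix (Fin m) (Fin m) k).charpoly) ^ j) :=
          ⟨n, by rw [← pow_mul, mul_comm, pow_mul, h1, zero_pow (by omega)]⟩
        exact (Matrix.isNilpotent_trace_of_isNilpotent h2).eq_zero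
    intro g
    refine (among_iff (ρ := ρ) (θ := θ) g).2 (nilp_of_traces fun j hj1 hj2 => ?_)
    rw [← val_PP]
    exact key j hj1 hj2 g

theorem among_iff_val {G k : Type} [Group G] [Field k] [IsAlgClosed k] [CharZero k] {n m : ℕ}
    (ρ : G →* GL (Fin n) k) (θ : G →* GL (Fin m) k) (g : G) :
    Among ρ θ g ↔ ∀ j, 1 ≤ j → j ≤ n → val ρ θ (PP n m j) g = 0 := by
  constructor
  · intro h1 j hj1 hj2
    rw [among_iff] at h1
    rw [val_PP]
    have h2 : IsNilpotent ((aeval (ρ g : Matrix (Fin n) (Fin n) k)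
        (θ g : Matrix (Fin m) (Fin m) k).charpoly) ^ j) :=
      ⟨n, by rw [← pow_mul, mul_comm, pow_mul, h1, zero_pow (by omega)]⟩
    exact (Matrix.isNilpotent_trace_of_isNilpotent h2).eq_zero
  · intro h
    refine (among_iff (ρ := ρ) (θ := θ) g).2 (nilp_of_traces fun j hj1 hj2 => ?_)
    rw [← val_PP]
    exact h j hj1 hj2

theorem closed_among' {G k : Type} [Group G] [TopologicalSpace G] [Field k] [IsAlgClosed k] [CharZero k]
    [TopologicalSpace k] [IsTopologicalRing k] [T2Space k] {n m : ℕ}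
    {ρ : G →* GL (Fin n) k} {θ : G →* GL (Fin m) k} (hρ : Continuous ρ) (hθ : Continuous θ) :
    IsClosed {g | Among ρ θ g} := by
  have e : {g | Among ρ θ g} = ⋂ j, ⋂ (_ : 1 ≤ j), ⋂ (_ : j ≤ n), {g | val ρ θ (PP n m j) g = 0} := by
    ext g
    rw [Set.mem_setOf_eq, among_iff_val]
    simp
  rw [e]
  refine isClosed_iInter fun j => isClosed_iInter fun _ => isClosed_iInter fun _ => ?_
  refine isClosed_eq (ev_cont _ (phi ρ θ) fun s => ?_) continuous_const
  rcases s with s | s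
  · exact (Units.continuous_val.comp hρ).matrix_elem s.1 s.2
  · exact (Units.continuous_val.comp hθ).matrix_elem s.1 s.2

/-- Chebotarev, with places of degree one -/
theorem univ_U (U : Subgroup GQ) (hU : IsOpen (U : Set GQ)) (C : Set U) (hC : IsClosed C) (S : Finset ℕ)
    (h : ∀ p : ℕ, p.Prime → p ∉ S → ∀ Q : Ideal ZBar, Q.IsMaximal → (p : ZBar) ∈ Q →
      ∀ σ : U, IsGeomFrob p Q σ.1 → σ ∈ C) (g : U) : g ∈ C := by
  by_contra hg
  have hVo : IsOpen ((Subtype.val : U → GQ) '' Cᶜ) :=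
    hU.isOpenEmbedding_subtypeVal.isOpenMap _ hC.isOpen_compl
  have h1 : (fun x => x * g.1) ⁻¹' ((Subtype.val : U → GQ) '' Cᶜ) ∈ nhds (1 : GQ) := by
    refine (continuous_mul_right g.1).continuousAt.preimage_mem_nhds ?_
    rw [one_mul]
    exact hVo.mem_nhds ⟨g, hg, rfl⟩
  obtain ⟨W, hW1, hW, hW0⟩ := mem_nhds_iff.mp h1
  obtain ⟨N, hN⟩ := ProfiniteGrp.exist_openNormalSubgroup_sub_open_nhds_of_one hW hW0
  haveI hNn : N.toSubgroup.Normal := N.isNormal'
  obtain ⟨p, hp, hpS, Q, hQ, hpQ, σ, hσ, τ, hτ⟩ := Pool.Agent.Y800.exists_frob N.toSubgroup N.isOpen' S g.1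
  obtain ⟨u, hu, hu2⟩ := hW1 (hN hτ)
  have hu2' : u.1 = τ * σ * τ⁻¹ * g.1⁻¹ * g.1 := hu2
  rw [inv_mul_cancel_right] at hu2'
  obtain ⟨Q', hQ'1, hQ'2, hQ'3⟩ := conj_ideal τ Q hQ hpQ
  apply hu
  refine h p hp hpS Q' hQ'1 hQ'2 u ?_
  rw [hu2']
  exact geom_conj τ hσ hQ'3

end Pool.Agent.X289.EI.FS
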