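import Pool.Agent.X289.EI.Points

/-! The fibre of the algebra `big` over the point `1`: there is one point, up to nilpotents. -/

set_option autoImplicit false
set_option linter.all false

namespace Pool.Agent.X289.EI

open Polynomial Matrix
open Pool.Agent.X320.DS (algT gens ent_mem ent_inv_mem left_mem right_mem inv_mem sum_fun_mem smul_fun_mem algT_fg
  exists_dual_in Semisimple)

variable {G : Type*} [Group G] {F : Type*} [Field F] {n m : ℕ} {θ : G →* GL (Fin m) F} {ρ : G →* GL (Fin n) F}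

/-- convolution with the point `y` -/
noncomputable def conv (y : big θ ρ →ₐ[F] F) : big θ ρ →ₐ[F] big θ ρ where
  toFun f := ⟨fun g => y (Lt θ ρ g f), conv_mem y f.2⟩
  map_one' := evB_inj fun g => by
    show y (Lt θ ρ g 1) = 1
    rw [map_one, map_one]
  map_mul' f f' := evB_inj fun g => by
    show y (Lt θ ρ g (f * f')) = y (Lt θ ρ g f) * y (Lt θ ρ g f')
    rw [map_mul, map_mul]
  map_zero' := evB_inj fun g => by
    show y (Lt θ ρ g 0) = 0
    rw [map_zero, map_zero]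
  map_add' f f' := evB_inj fun g => by
    show y (Lt θ ρ g (f + f')) = y (Lt θ ρ g f) + y (Lt θ ρ g f')
    rw [map_add, map_add]
  commutes' c := evB_inj fun g => by
    show y (Lt θ ρ g (algebraMap F _ c)) = c
    rw [AlgHom.commutes]
    exact y.commutes c

theorem evB_conv (y : big θ ρ →ₐ[F] F) (f : big θ ρ) (g : G) : evB θ ρ g (conv y f) = y (Lt θ ρ g f) := rfl

theorem Lt_mB (g : G) (s t : Fin n) :
    Lt θ ρ g (mB θ ρ s t) = ∑ l, (ρ g : Matrix (Fin n) (Fin n) F) s l • mB θ ρ l t := by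
  refine evB_inj fun x => ?_
  rw [map_sum]
  simp only [map_smul]
  show (ρ (g * x) : Matrix (Fin n) (Fin n) F) s t = _
  rw [map_mul, Units.val_mul, Matrix.mul_apply]
  rfl

theorem Lt_mI (g : G) (s t : Fin n) :
    Lt θ ρ g (mI θ ρ s t) = ∑ l, (ρ g⁻¹ : Matrix (Fin n) (Fin n) F) l t • mI θ ρ s l := by
  refine evB_inj fun x => ?_
  rw [map_sum]
  simp only [map_smul]
  show (ρ (g * x)⁻¹ : Matrix (Fin n) (Fin n) F) s t = _
  rw [_root_.mul_inv_rev, map_mul, Units.val_mul, Matrix.mul_apply]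
  exact Finset.sum_congr rfl fun l _ => mul_comm _ _

theorem conv_mB (y : big θ ρ →ₐ[F] F) (s t : Fin n) :
    conv y (mB θ ρ s t) = ∑ l, y (mB θ ρ l t) • mB θ ρ s l := by
  refine evB_inj fun g => ?_
  rw [evB_conv, Lt_mB, map_sum, map_sum]
  simp only [map_smul, smul_eq_mul]
  exact Finset.sum_congr rfl fun l _ => mul_comm _ _

theorem conv_left {y : big θ ρ →ₐ[F] F} (hy : Over θ ρ y) {a : big θ ρ} (ha : a.1 ∈ algT θ) : conv y a = a := by
  refine evB_inj fun g => ?_
  rw [evB_conv, hy (Lt θ ρ g a) (left_mem θ g ha)]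
  show a.1 (g * 1) = a.1 g
  rw [mul_one]

theorem over_one : Over θ ρ (evB θ ρ 1) := fun a _ => rfl

theorem powers {y : big θ ρ →ₐ[F] F} (hy : Over θ ρ y) (j : ℕ) :
    ∃ z : big θ ρ →ₐ[F] F, Over θ ρ z ∧ (mB θ ρ).map z.toRingHom = ((mB θ ρ).map y.toRingHom) ^ j := by
  induction j with
  | zero =>
    refine ⟨evB θ ρ 1, over_one, ?_⟩
    rw [pow_zero]
    ext s t
    show (ρ 1 : Matrix (Fin n) (Fin n) F) s t = _
    rw [map_one, Units.val_one]
  | succ j ih =>
    obtain ⟨z, hz, hz2⟩ := ih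
    refine ⟨z.comp (conv y), fun a ha => ?_, ?_⟩
    · rw [AlgHom.comp_apply, conv_left hy ha, hz a ha]
    · rw [pow_succ, ← hz2]
      ext s t
      rw [Matrix.mul_apply]
      show z (conv y (mB θ ρ s t)) = ∑ l, z (mB θ ρ s l) * y (mB θ ρ l t)
      rw [conv_mB, map_sum]
      simp only [map_smul, smul_eq_mul]
      exact Finset.sum_congr rfl fun l _ => mul_comm _ _

variable [IsAlgClosed F] [CharZero F]

theorem point_eq (h : RootsIn ρ θ) (hint : ∀ b : big θ ρ, IsIntegral (algT θ) b) {y : big θ ρ →ₐ[F] F}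
    (hy : Over θ ρ y) (b : big θ ρ) : y b = evB θ ρ 1 b := by
  set x : Matrix (Fin n) (Fin n) F := (mB θ ρ).map y.toRingHom with hx
  have hfin : {M : Matrix (Fin n) (Fin n) F |
      ∀ s, M s ∈ {v : Fin n → F | ∀ t, v t ∈ {c | ∃ y, Over θ ρ y ∧ y (mB θ ρ s t) = c}}}.Finite :=
    Set.Finite.pi' fun s => Set.Finite.pi' fun t => finite_values _ (hint _)
  have hmem : ∀ j : ℕ, x ^ j ∈ {M : Matrix (Fin n) (Fin n) F |
      ∀ s, M s ∈ {v : Fin n → F | ∀ t, v t ∈ {c | ∃ y, Over θ ρ y ∧ y (mB θ ρ s t) = c}}} := by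
    intro j s t
    obtain ⟨z, hz, hz2⟩ := powers hy j
    refine ⟨z, hz, ?_⟩
    have := congrFun (congrFun hz2 s) t
    exact this
  obtain ⟨a, c, hac, he⟩ := Set.Finite.exists_lt_map_eq_of_forall_mem hmem hfin
  have hx1 : x = 1 := eq_one_of_pow (unip h hy) hac he
  have hI : (mI θ ρ).map y.toRingHom = 1 := by
    have h1 : (mB θ ρ * mI θ ρ).map y.toRingHom = 1 := by
      rw [mB_mul_mI]
      ext s t
      by_cases hst : s = t
      · subst hst
        rw [Matrix.map_apply, Matrix.one_apply_eq, Matrix.one_apply_eq]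
        exact map_one y
      · rw [Matrix.map_apply, Matrix.one_apply_ne hst, Matrix.one_apply_ne hst]
        exact map_zero y
    rw [Matrix.map_mul, ← hx, hx1, one_mul] at h1
    exact h1
  obtain ⟨f, hf⟩ := b
  have hf' : f ∈ Algebra.adjoin F (Set.range (gens θ) ∪ Set.range (gens ρ)) := by
    rw [Algebra.adjoin_union]
    exact hf
  have key : ∃ h : f ∈ big θ ρ, y ⟨f, h⟩ = f 1 := by
    clear hf
    induction hf' using Algebra.adjoin_induction with
    | mem f hf =>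
      rcases hf with ⟨s, rfl⟩ | ⟨s | s, rfl⟩
      · have hs : gens θ s ∈ algT θ := Algebra.subset_adjoin ⟨s, rfl⟩
        exact ⟨of_left hs, hy _ hs⟩
      · refine ⟨of_right (Algebra.subset_adjoin ⟨_, rfl⟩), ?_⟩
        have h1 := congrFun (congrFun hx1 s.1) s.2
        refine h1.trans ?_
        show _ = (ρ 1 : Matrix (Fin n) (Fin n) F) s.1 s.2
        rw [map_one, Units.val_one]
      · refine ⟨of_right (Algebra.subset_adjoin ⟨_, rfl⟩), ?_⟩
        have h1 := congrFun (congrFun hI s.1) s.2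
        refine h1.trans ?_
        show _ = (ρ 1⁻¹ : Matrix (Fin n) (Fin n) F) s.1 s.2
        rw [inv_one, map_one, Units.val_one]
    | algebraMap c => exact ⟨(algT θ ⊔ algT ρ).algebraMap_mem c, y.commutes c⟩
    | add f f' _ _ h h' =>
      obtain ⟨h1, h2⟩ := h
      obtain ⟨h3, h4⟩ := h'
      refine ⟨(algT θ ⊔ algT ρ).add_mem h1 h3, ?_⟩
      have e : (⟨f + f', (algT θ ⊔ algT ρ).add_mem h1 h3⟩ : big θ ρ) = ⟨f, h1⟩ + ⟨f', h3⟩ := rfl
      rw [e, map_add, h2, h4]
      rfl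
    | mul f f' _ _ h h' =>
      obtain ⟨h1, h2⟩ := h
      obtain ⟨h3, h4⟩ := h'
      refine ⟨(algT θ ⊔ algT ρ).mul_mem h1 h3, ?_⟩
      have e : (⟨f * f', (algT θ ⊔ algT ρ).mul_mem h1 h3⟩ : big θ ρ) = ⟨f, h1⟩ * ⟨f', h3⟩ := rfl
      rw [e, map_mul, h2, h4]
      rfl
  exact key.2

end Pool.Agent.X289.EI
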