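import Pool.Agent.X289.EI.Setup

/-! The points of the algebra `big` over the point `1` of `algT θ`. -/

set_option autoImplicit false
set_option linter.all false

namespace Pool.Agent.X289.EI

open Polynomial Matrix
open Pool.Agent.X320.DS (algT gens ent_mem ent_inv_mem left_mem right_mem inv_mem sum_fun_mem smul_fun_mem algT_fg
  exists_dual_in Semisimple)

variable {G : Type*} [Group G] {F : Type*} [Field F] {n m : ℕ} {θ : G →* GL (Fin m) F} {ρ : G →* GL (Fin n) F}

/-- evaluation at `g` -/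
noncomputable def evB (θ : G →* GL (Fin m) F) (ρ : G →* GL (Fin n) F) (g : G) : big θ ρ →ₐ[F] F where
  toFun f := f.1 g
  map_one' := rfl
  map_mul' _ _ := rfl
  map_zero' := rfl
  map_add' _ _ := rfl
  commutes' _ := rfl

/-- evaluation at `1` on `algT θ` -/
noncomputable def evA (θ : G →* GL (Fin m) F) : algT θ →ₐ[F] F where
  toFun f := f.1 1
  map_one' := rfl
  map_mul' _ _ := rfl
  map_zero' := rfl
  map_add' _ _ := rfl
  commutes' _ := rfl

/-- left translation -/
noncomputable def Lt (θ : G →* GL (Fin m) F) (ρ : G →* GL (Fin n) F) (g : G) : big θ ρ →ₐ[F] big θ ρ where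
  toFun f := ⟨fun x => f.1 (g * x), big_left f.2 g⟩
  map_one' := rfl
  map_mul' _ _ := rfl
  map_zero' := rfl
  map_add' _ _ := rfl
  commutes' _ := rfl

theorem Lt_val (g : G) (f : big θ ρ) (x : G) : (Lt θ ρ g f).1 x = f.1 (g * x) := rfl

/-- the matrix `ρ` with entries in `big` -/
noncomputable def mB (θ : G →* GL (Fin m) F) (ρ : G →* GL (Fin n) F) : Matrix (Fin n) (Fin n) (big θ ρ) :=
  fun s t => ⟨fun x => (ρ x : Matrix (Fin n) (Fin n) F) s t, of_right (ent_mem ρ s t)⟩

/-- the matrix `ρ⁻¹` with entries in `big` -/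
noncomputable def mI (θ : G →* GL (Fin m) F) (ρ : G →* GL (Fin n) F) : Matrix (Fin n) (Fin n) (big θ ρ) :=
  fun s t => ⟨fun x => (ρ x⁻¹ : Matrix (Fin n) (Fin n) F) s t, of_right (ent_inv_mem ρ s t)⟩

/-- the matrix `θ` with entries in `big` -/
noncomputable def mT (θ : G →* GL (Fin m) F) (ρ : G →* GL (Fin n) F) : Matrix (Fin m) (Fin m) (big θ ρ) :=
  fun s t => ⟨fun x => (θ x : Matrix (Fin m) (Fin m) F) s t, of_left (ent_mem θ s t)⟩

theorem evB_inj {a b : big θ ρ} (h : ∀ g, evB θ ρ g a = evB θ ρ g b) : a = b :=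
  Subtype.ext (funext h)

theorem mB_mul_mI : mB θ ρ * mI θ ρ = 1 := by
  ext s t
  refine congrArg Subtype.val (evB_inj (θ := θ) (ρ := ρ) fun g => ?_) |> fun h => congrFun h _
  have h1 : (ρ g : Matrix (Fin n) (Fin n) F) * (ρ g⁻¹ : Matrix (Fin n) (Fin n) F) = 1 := by
    rw [← Units.val_mul, ← map_mul, mul_inv_cancel, map_one, Units.val_one]
  rw [Matrix.mul_apply, map_sum]
  simp only [map_mul]
  have h2 := congrFun (congrFun h1 s) t
  rw [Matrix.mul_apply] at h2
  refine h2.trans ?_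
  by_cases hst : s = t
  · subst hst
    rw [Matrix.one_apply_eq, Matrix.one_apply_eq, map_one]
  · rw [Matrix.one_apply_ne hst, Matrix.one_apply_ne hst, map_zero]

theorem map_poly {B C : Type*} [CommRing B] [CommRing C] (φ : B →+* C) (M : Matrix (Fin n) (Fin n) B)
    (N : Matrix (Fin m) (Fin m) B) (k : ℕ) :
    ((aeval M N.charpoly) ^ k).map φ = (aeval (M.map φ) (N.map φ).charpoly) ^ k := by
  have h := Polynomial.map_aeval_eq_aeval_map (S := Matrix (Fin n) (Fin n) B) (U := Matrix (Fin n) (Fin n) C)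
    (φ := φ) (ψ := φ.mapMatrix) (by
      ext a i j
      simp only [RingHom.comp_apply, RingHom.mapMatrix_apply, Matrix.map_apply, Matrix.algebraMap_matrix_apply]
      split_ifs
      · rfl
      · exact (map_zero _).symm) N.charpoly M
  rw [← Matrix.charpoly_map] at h
  have h2 : (φ.mapMatrix ((aeval M N.charpoly) ^ k) : Matrix (Fin n) (Fin n) C) =
      (φ.mapMatrix (aeval M N.charpoly)) ^ k := map_pow _ _ _
  rw [h] at h2
  exact h2

theorem roots_nilp [IsAlgClosed F] (h : RootsIn ρ θ) (g : G) :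
    (aeval (ρ g : Matrix (Fin n) (Fin n) F) (θ g : Matrix (Fin m) (Fin m) F).charpoly) ^ n = 0 := by
  obtain ⟨s, hs⟩ := dvd_pow_of_roots (Matrix.charpoly_monic (ρ g : Matrix (Fin n) (Fin n) F))
    (by rw [Matrix.charpoly_natDegree_eq_dim, Fintype.card_fin]) (h g)
  rw [← map_pow, hs, map_mul, Matrix.aeval_self_charpoly, zero_mul]

theorem big_nilp [IsAlgClosed F] (h : RootsIn ρ θ) : (aeval (mB θ ρ) (mT θ ρ).charpoly) ^ n = 0 := by
  ext s t
  refine congrArg Subtype.val (evB_inj (θ := θ) (ρ := ρ) fun g => ?_) |> fun h => congrFun h _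
  have e1 : (mB θ ρ).map (evB θ ρ g).toRingHom = (ρ g : Matrix (Fin n) (Fin n) F) := by
    ext i j
    rfl
  have e2 : (mT θ ρ).map (evB θ ρ g).toRingHom = (θ g : Matrix (Fin m) (Fin m) F) := by
    ext i j
    rfl
  have h0 := map_poly (evB θ ρ g).toRingHom (mB θ ρ) (mT θ ρ) n
  rw [e1, e2, roots_nilp h g] at h0
  have h1 : ((aeval (mB θ ρ) (mT θ ρ).charpoly) ^ n).map (evB θ ρ g).toRingHom = 0 := h0
  exact congrFun (congrFun h1 s) t

/-- the points over `1` -/
def Over (θ : G →* GL (Fin m) F) (ρ : G →* GL (Fin n) F) (y : big θ ρ →ₐ[F] F) : Prop :=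
  ∀ a : big θ ρ, a.1 ∈ algT θ → y a = a.1 1

theorem unip [IsAlgClosed F] (h : RootsIn ρ θ) {y : big θ ρ →ₐ[F] F} (hy : Over θ ρ y) :
    ((mB θ ρ).map y.toRingHom - 1) ^ (m * n) = 0 := by
  have h0 : ((aeval (mB θ ρ) (mT θ ρ).charpoly) ^ n).map y.toRingHom = 0 := by
    rw [big_nilp h]
    ext i j
    exact map_zero y
  have h1 : (aeval ((mB θ ρ).map y.toRingHom) ((mT θ ρ).map y.toRingHom).charpoly) ^ n = 0 :=
    (map_poly y.toRingHom (mB θ ρ) (mT θ ρ) n).symm.trans h0
  · have h2 : (mT θ ρ).map y.toRingHom = 1 := by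
      ext i j
      have := hy (mT θ ρ i j) (ent_mem θ i j)
      refine this.trans ?_
      show (θ 1 : Matrix (Fin m) (Fin m) F) i j = _
      rw [map_one, Units.val_one]
    rw [h2, Matrix.charpoly_one, Fintype.card_fin, map_pow, map_sub, aeval_X, map_one, ← pow_mul] at h1
    exact h1

theorem finite_values (b : big θ ρ) (hb : IsIntegral (algT θ) b) :
    {c | ∃ y, Over θ ρ y ∧ y b = c}.Finite := by
  classical
  obtain ⟨P, hP, hPb⟩ := hb
  have h1 : (P.map (evA θ).toRingHom) ≠ 0 := (hP.map _).ne_zero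
  refine ((P.map (evA θ).toRingHom).roots.toFinset.finite_toSet).subset ?_
  rintro c ⟨y, hy, rfl⟩
  rw [Finset.mem_coe, Multiset.mem_toFinset, mem_roots h1, IsRoot.def, ← eval₂_eq_eval_map]
  have h2 := congrArg y.toRingHom hPb
  rw [Polynomial.hom_eval₂, map_zero] at h2
  have h3 : y.toRingHom.comp (algebraMap (algT θ) (big θ ρ)) = (evA θ).toRingHom := by
    ext a
    exact hy _ a.2
  rw [h3] at h2
  exact h2

/-- convolution with the point `y` from the right -/
theorem conv_mem (y : big θ ρ →ₐ[F] F) {f : G → F} (hf : f ∈ big θ ρ) :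
    (fun g => y (Lt θ ρ g ⟨f, hf⟩)) ∈ big θ ρ := by
  have hf' : f ∈ Algebra.adjoin F (Set.range (gens θ) ∪ Set.range (gens ρ)) := by
    rw [Algebra.adjoin_union]
    exact hf
  have key : ∃ h : f ∈ big θ ρ, (fun g => y (Lt θ ρ g ⟨f, h⟩)) ∈ big θ ρ := by
    clear hf
    induction hf' using Algebra.adjoin_induction with
    | mem f hf =>
      rcases hf with ⟨s | s, rfl⟩ | ⟨s | s, rfl⟩
      · refine ⟨of_left (Algebra.subset_adjoin ⟨_, rfl⟩), ?_⟩
        have e : (fun g => y (Lt θ ρ g ⟨gens θ (Sum.inl s), of_left (Algebra.subset_adjoin ⟨_, rfl⟩)⟩)) =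
            fun g => ∑ l, (θ g : Matrix (Fin m) (Fin m) F) s.1 l *
              y ⟨fun x => (θ x : Matrix (Fin m) (Fin m) F) l s.2, of_left (ent_mem θ l s.2)⟩ := by
          funext g
          have e1 : Lt θ ρ g ⟨gens θ (Sum.inl s), of_left (Algebra.subset_adjoin ⟨_, rfl⟩)⟩ =
              ∑ l, (θ g : Matrix (Fin m) (Fin m) F) s.1 l •
                (⟨fun x => (θ x : Matrix (Fin m) (Fin m) F) l s.2, of_left (ent_mem θ l s.2)⟩ : big θ ρ) := by
            refine evB_inj fun x => ?_
            rw [map_sum]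
            simp only [map_smul]
            show (θ (g * x) : Matrix (Fin m) (Fin m) F) s.1 s.2 = _
            rw [map_mul, Units.val_mul, Matrix.mul_apply]
            rfl
          rw [e1, map_sum]
          simp only [map_smul, smul_eq_mul]
        rw [e]
        refine of_left (sum_fun_mem _ fun l => ?_)
        simp only [mul_comm _ (y _)]
        exact smul_fun_mem _ (ent_mem θ _ _)
      · refine ⟨of_left (Algebra.subset_adjoin ⟨_, rfl⟩), ?_⟩
        have e : (fun g => y (Lt θ ρ g ⟨gens θ (Sum.inr s), of_left (Algebra.subset_adjoin ⟨_, rfl⟩)⟩)) =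
            fun g => ∑ l, y ⟨fun x => (θ x⁻¹ : Matrix (Fin m) (Fin m) F) s.1 l, of_left (ent_inv_mem θ s.1 l)⟩ *
              (θ g⁻¹ : Matrix (Fin m) (Fin m) F) l s.2 := by
          funext g
          have e1 : Lt θ ρ g ⟨gens θ (Sum.inr s), of_left (Algebra.subset_adjoin ⟨_, rfl⟩)⟩ =
              ∑ l, (θ g⁻¹ : Matrix (Fin m) (Fin m) F) l s.2 •
                (⟨fun x => (θ x⁻¹ : Matrix (Fin m) (Fin m) F) s.1 l, of_left (ent_inv_mem θ s.1 l)⟩ :
                  big θ ρ) := by
            refine evB_inj fun x => ?_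
            rw [map_sum]
            simp only [map_smul]
            show (θ (g * x)⁻¹ : Matrix (Fin m) (Fin m) F) s.1 s.2 = _
            rw [_root_.mul_inv_rev, map_mul, Units.val_mul, Matrix.mul_apply]
            exact Finset.sum_congr rfl fun l _ => mul_comm _ _
          rw [e1, map_sum]
          simp only [map_smul, smul_eq_mul]
          exact Finset.sum_congr rfl fun l _ => mul_comm _ _
        rw [e]
        exact of_left (sum_fun_mem _ fun l => smul_fun_mem _ (ent_inv_mem θ _ _))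
      · refine ⟨of_right (Algebra.subset_adjoin ⟨_, rfl⟩), ?_⟩
        have e : (fun g => y (Lt θ ρ g ⟨gens ρ (Sum.inl s), of_right (Algebra.subset_adjoin ⟨_, rfl⟩)⟩)) =
            fun g => ∑ l, (ρ g : Matrix (Fin n) (Fin n) F) s.1 l *
              y ⟨fun x => (ρ x : Matrix (Fin n) (Fin n) F) l s.2, of_right (ent_mem ρ l s.2)⟩ := by
          funext g
          have e1 : Lt θ ρ g ⟨gens ρ (Sum.inl s), of_right (Algebra.subset_adjoin ⟨_, rfl⟩)⟩ =
              ∑ l, (ρ g : Matrix (Fin n) (Fin n) F) s.1 l •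
                (⟨fun x => (ρ x : Matrix (Fin n) (Fin n) F) l s.2, of_right (ent_mem ρ l s.2)⟩ : big θ ρ) := by
            refine evB_inj fun x => ?_
            rw [map_sum]
            simp only [map_smul]
            show (ρ (g * x) : Matrix (Fin n) (Fin n) F) s.1 s.2 = _
            rw [map_mul, Units.val_mul, Matrix.mul_apply]
            rfl
          rw [e1, map_sum]
          simp only [map_smul, smul_eq_mul]
        rw [e]
        refine of_right (sum_fun_mem _ fun l => ?_)
        simp only [mul_comm _ (y _)]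
        exact smul_fun_mem _ (ent_mem ρ _ _)
      · refine ⟨of_right (Algebra.subset_adjoin ⟨_, rfl⟩), ?_⟩
        have e : (fun g => y (Lt θ ρ g ⟨gens ρ (Sum.inr s), of_right (Algebra.subset_adjoin ⟨_, rfl⟩)⟩)) =
            fun g => ∑ l, y ⟨fun x => (ρ x⁻¹ : Matrix (Fin n) (Fin n) F) s.1 l, of_right (ent_inv_mem ρ s.1 l)⟩ *
              (ρ g⁻¹ : Matrix (Fin n) (Fin n) F) l s.2 := by
          funext g
          have e1 : Lt θ ρ g ⟨gens ρ (Sum.inr s), of_right (Algebra.subset_adjoin ⟨_, rfl⟩)⟩ =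
              ∑ l, (ρ g⁻¹ : Matrix (Fin n) (Fin n) F) l s.2 •
                (⟨fun x => (ρ x⁻¹ : Matrix (Fin n) (Fin n) F) s.1 l, of_right (ent_inv_mem ρ s.1 l)⟩ :
                  big θ ρ) := by
            refine evB_inj fun x => ?_
            rw [map_sum]
            simp only [map_smul]
            show (ρ (g * x)⁻¹ : Matrix (Fin n) (Fin n) F) s.1 s.2 = _
            rw [_root_.mul_inv_rev, map_mul, Units.val_mul, Matrix.mul_apply]
            exact Finset.sum_congr rfl fun l _ => mul_comm _ _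
          rw [e1, map_sum]
          simp only [map_smul, smul_eq_mul]
          exact Finset.sum_congr rfl fun l _ => mul_comm _ _
        rw [e]
        exact of_right (sum_fun_mem _ fun l => smul_fun_mem _ (ent_inv_mem ρ _ _))
    | algebraMap c =>
      refine ⟨(algT θ ⊔ algT ρ).algebraMap_mem c, ?_⟩
      have e : (fun g => y (Lt θ ρ g ⟨algebraMap F (G → F) c, (algT θ ⊔ algT ρ).algebraMap_mem c⟩)) =
          algebraMap F (G → F) c := by
        funext g
        exact y.commutes c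
      rw [e]
      exact (algT θ ⊔ algT ρ).algebraMap_mem c
    | add f f' _ _ h h' =>
      obtain ⟨h1, h2⟩ := h
      obtain ⟨h3, h4⟩ := h'
      refine ⟨(algT θ ⊔ algT ρ).add_mem h1 h3, ?_⟩
      have e : (fun g => y (Lt θ ρ g ⟨f + f', (algT θ ⊔ algT ρ).add_mem h1 h3⟩)) =
          (fun g => y (Lt θ ρ g ⟨f, h1⟩)) + (fun g => y (Lt θ ρ g ⟨f', h3⟩)) := by
        funext g
        rw [Pi.add_apply, ← map_add, ← map_add]
        rfl
      rw [e]
      exact (algT θ ⊔ algT ρ).add_mem h2 h4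
    | mul f f' _ _ h h' =>
      obtain ⟨h1, h2⟩ := h
      obtain ⟨h3, h4⟩ := h'
      refine ⟨(algT θ ⊔ algT ρ).mul_mem h1 h3, ?_⟩
      have e : (fun g => y (Lt θ ρ g ⟨f * f', (algT θ ⊔ algT ρ).mul_mem h1 h3⟩)) =
          (fun g => y (Lt θ ρ g ⟨f, h1⟩)) * (fun g => y (Lt θ ρ g ⟨f', h3⟩)) := by
        funext g
        rw [Pi.mul_apply, ← map_mul, ← map_mul]
        rfl
      rw [e]
      exact (algT θ ⊔ algT ρ).mul_mem h2 h4
  exact key.2

end Pool.Agent.X289.EI
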