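import Pool.Agent.X289.EI.Alg

/-! The criterion with powers of the eigenvalues. -/

set_option autoImplicit false
set_option linter.all false

namespace Pool.Agent.X289.EI

open Polynomial Matrix
open scoped Pointwise
open Pool.Agent.X320.DS (algT gens ent_mem ent_inv_mem left_mem right_mem inv_mem sum_fun_mem smul_fun_mem algT_fg
  exists_dual_in Semisimple)

variable {G : Type*} [Group G] {F : Type*} [Field F] {n m : ℕ} {θ : G →* GL (Fin m) F} {ρ : G →* GL (Fin n) F}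

/-- the `k`-th powers of the eigenvalues of `ρ (g)` are eigenvalues of `θ (g)` -/
def RootsPow (k : ℕ) (ρ : G →* GL (Fin n) F) (θ : G →* GL (Fin m) F) : Prop :=
  ∀ g x, (ρ g : Matrix (Fin n) (Fin n) F).charpoly.IsRoot x →
    (θ g : Matrix (Fin m) (Fin m) F).charpoly.IsRoot (x ^ k)

theorem integral_trace' [IsAlgClosed F] {k : ℕ} (hk : 0 < k) (h : RootsPow k ρ θ)
    (φ : G → G) (hφ : ∀ i j, (fun x => (θ (φ x) : Matrix (Fin m) (Fin m) F) i j) ∈ algT θ) :
    IsIntegral (algT θ) (fun x => (ρ (φ x) : Matrix (Fin n) (Fin n) F).trace) := by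
  choose l hl1 hl2 using fun g : G => exists_family (ρ g : Matrix (Fin n) (Fin n) F)
  have e : (fun x => (ρ (φ x) : Matrix (Fin n) (Fin n) F).trace) = ∑ i, fun x => l (φ x) i := by
    funext x
    rw [Finset.sum_apply]
    exact hl2 _
  rw [e]
  refine IsIntegral.sum _ fun i _ => ?_
  refine IsIntegral.of_pow hk ?_
  let M : Matrix (Fin m) (Fin m) (algT θ) := fun i j => ⟨fun x => (θ (φ x) : Matrix (Fin m) (Fin m) F) i j, hφ i j⟩
  refine ⟨M.charpoly, M.charpoly_monic, ?_⟩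
  funext x
  have h1 := Polynomial.hom_eval₂ M.charpoly (algebraMap (algT θ) (G → F)) (Pi.evalRingHom (fun _ : G => F) x)
    ((fun x => l (φ x) i) ^ k)
  refine h1.trans ?_
  rw [eval₂_eq_eval_map, ← Matrix.charpoly_map]
  have e2 : M.map ((Pi.evalRingHom (fun _ : G => F) x).comp (algebraMap (algT θ) (G → F))) =
      (θ (φ x) : Matrix (Fin m) (Fin m) F) := by
    ext i j
    rfl
  rw [e2]
  exact h _ _ (hl1 _ i)

theorem integral_gens' [IsAlgClosed F] [CharZero F] {k : ℕ} (hk : 0 < k) (h : RootsPow k ρ θ)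
    (hρ : Semisimple ρ) (s) : IsIntegral (algT θ) (gens ρ s) := by
  obtain ⟨r, g, B, -, -, hB⟩ := exists_dual_in hρ (Nat.cast_ne_zero.2 (Nat.factorial_ne_zero n)) Set.univ
    (fun x => Submodule.subset_span ⟨x, trivial, rfl⟩)
  rcases s with s | s
  · have e : gens ρ (Sum.inl s) = ∑ i, (fun x => (ρ (g i * x) : Matrix (Fin n) (Fin n) F).trace) *
        (fun _ => B i s.1 s.2) := by
      funext x
      show (ρ x : Matrix (Fin n) (Fin n) F) s.1 s.2 = _
      conv_lhs => rw [hB x]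
      rw [Matrix.sum_apply, Finset.sum_apply]
      rfl
    rw [e]
    refine IsIntegral.sum _ fun i _ => (integral_trace' hk h _ fun i' j' => ?_).mul (isIntegral_const _)
    exact left_mem θ (g i) (ent_mem θ i' j')
  · have e : gens ρ (Sum.inr s) = ∑ i, (fun x => (ρ (g i * x⁻¹) : Matrix (Fin n) (Fin n) F).trace) *
        (fun _ => B i s.1 s.2) := by
      funext x
      show (ρ x⁻¹ : Matrix (Fin n) (Fin n) F) s.1 s.2 = _
      conv_lhs => rw [hB x⁻¹]
      rw [Matrix.sum_apply, Finset.sum_apply]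
      rfl
    rw [e]
    refine IsIntegral.sum _ fun i _ => (integral_trace' hk h _ fun i' j' => ?_).mul (isIntegral_const _)
    exact inv_mem θ (f := fun x => (θ (g i * x) : Matrix (Fin m) (Fin m) F) i' j') (left_mem θ (g i) (ent_mem θ i' j'))

theorem big_fg' [IsAlgClosed F] [CharZero F] {k : ℕ} (hk : 0 < k) (h : RootsPow k ρ θ) (hρ : Semisimple ρ) :
    (Subalgebra.toSubmodule (big θ ρ)).FG := by
  rw [big_eq]
  refine fg_adjoin_of_finite (Set.finite_range _) ?_
  rintro _ ⟨s, rfl⟩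
  exact integral_gens' hk h hρ s

theorem roots_nilp' [IsAlgClosed F] {k : ℕ} (h : RootsPow k ρ θ) (g : G) :
    (aeval ((ρ g : Matrix (Fin n) (Fin n) F) ^ k) (θ g : Matrix (Fin m) (Fin m) F).charpoly) ^ n = 0 := by
  obtain ⟨s, hs⟩ := dvd_pow_of_roots (p := ((θ g : Matrix (Fin m) (Fin m) F).charpoly).comp (X ^ k))
    (Matrix.charpoly_monic (ρ g : Matrix (Fin n) (Fin n) F))
    (by rw [Matrix.charpoly_natDegree_eq_dim, Fintype.card_fin]) (fun x hx => by
      rw [IsRoot.def, eval_comp, eval_pow, eval_X]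
      exact h g x hx)
  have h1 := congrArg (aeval (ρ g : Matrix (Fin n) (Fin n) F)) hs
  rw [map_pow, map_mul, Matrix.aeval_self_charpoly, zero_mul, aeval_comp, map_pow, aeval_X] at h1
  exact h1

theorem map_pow' {B C : Type*} [CommRing B] [CommRing C] (φ : B →+* C) (M : Matrix (Fin n) (Fin n) B) (k : ℕ) :
    (M ^ k).map φ = (M.map φ) ^ k := by
  have h : (φ.mapMatrix (M ^ k) : Matrix (Fin n) (Fin n) C) = (φ.mapMatrix M) ^ k := map_pow _ _ _
  exact h

theorem big_nilp' [IsAlgClosed F] {k : ℕ} (h : RootsPow k ρ θ) :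
    (aeval ((mB θ ρ) ^ k) (mT θ ρ).charpoly) ^ n = 0 := by
  ext s t
  refine congrArg Subtype.val (evB_inj (θ := θ) (ρ := ρ) fun g => ?_) |> fun h => congrFun h _
  have e1 : (mB θ ρ).map (evB θ ρ g).toRingHom = (ρ g : Matrix (Fin n) (Fin n) F) := by
    ext i j
    rfl
  have e2 : (mT θ ρ).map (evB θ ρ g).toRingHom = (θ g : Matrix (Fin m) (Fin m) F) := by
    ext i j
    rfl
  have e3 : ((mB θ ρ) ^ k).map (evB θ ρ g).toRingHom = (ρ g : Matrix (Fin n) (Fin n) F) ^ k := by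
    have h3 := map_pow' (evB θ ρ g).toRingHom (mB θ ρ) k
    rw [e1] at h3
    exact h3
  have h0 := map_poly (evB θ ρ g).toRingHom ((mB θ ρ) ^ k) (mT θ ρ) n
  rw [e3, e2, roots_nilp' h g] at h0
  have h1 : ((aeval ((mB θ ρ) ^ k) (mT θ ρ).charpoly) ^ n).map (evB θ ρ g).toRingHom = 0 := h0
  exact congrFun (congrFun h1 s) t

theorem unip' [IsAlgClosed F] {k : ℕ} (h : RootsPow k ρ θ) {y : big θ ρ →ₐ[F] F} (hy : Over θ ρ y) :
    (((mB θ ρ).map y.toRingHom) ^ k - 1) ^ (m * n) = 0 := by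
  have h0 : ((aeval ((mB θ ρ) ^ k) (mT θ ρ).charpoly) ^ n).map y.toRingHom = 0 := by
    rw [big_nilp' h]
    ext i j
    exact map_zero y
  have h1 : (aeval (((mB θ ρ) ^ k).map y.toRingHom) ((mT θ ρ).map y.toRingHom).charpoly) ^ n = 0 :=
    (map_poly y.toRingHom ((mB θ ρ) ^ k) (mT θ ρ) n).symm.trans h0
  have h2 : (mT θ ρ).map y.toRingHom = 1 := by
    ext i j
    have := hy (mT θ ρ i j) (ent_mem θ i j)
    refine this.trans ?_
    show (θ 1 : Matrix (Fin m) (Fin m) F) i j = _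
    rw [map_one, Units.val_one]
  have e3 : ((mB θ ρ) ^ k).map y.toRingHom = ((mB θ ρ).map y.toRingHom) ^ k := map_pow' y.toRingHom (mB θ ρ) k
  rw [h2, Matrix.charpoly_one, Fintype.card_fin, map_pow, map_sub, aeval_X, map_one, ← pow_mul, e3] at h1
  exact h1

/-- a point over `1` with matrix `1` is the point `1` -/
theorem point_of_one {y : big θ ρ →ₐ[F] F} (hy : Over θ ρ y) (hx1 : (mB θ ρ).map y.toRingHom = 1) (b : big θ ρ) :
    y b = evB θ ρ 1 b := by
  have hI : (mI θ ρ).map y.toRingHom = 1 := by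
    have h1 : (mB θ ρ * mI θ ρ).map y.toRingHom = 1 := by
      rw [mB_mul_mI]
      ext s t
      by_cases hst : s = t
      · subst hst
        rw [Matrix.map_apply, Matrix.one_apply_eq, Matrix.one_apply_eq]
        exact map_one y
      · rw [Matrix.map_apply, Matrix.one_apply_ne hst, Matrix.one_apply_ne hst]
        exact map_zero y
    rw [Matrix.map_mul, hx1, one_mul] at h1
    exact h1
  obtain ⟨f, hf⟩ := b
  have hf' : f ∈ Algebra.adjoin F (Set.range (gens θ) ∪ Set.range (gens ρ)) := by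
    rw [Algebra.adjoin_union]
    exact hf
  have key : ∃ h : f ∈ big θ ρ, y ⟨f, h⟩ = f 1 := by
    clear hf
    induction hf' using Algebra.adjoin_induction with
    | mem f hf =>
      rcases hf with ⟨s, rfl⟩ | ⟨s | s, rfl⟩
      · have hs : gens θ s ∈ algT θ := Algebra.subset_adjoin ⟨s, rfl⟩
        exact ⟨of_left hs, hy _ hs⟩
      · refine ⟨of_right (Algebra.subset_adjoin ⟨_, rfl⟩), ?_⟩
        have h1 := congrFun (congrFun hx1 s.1) s.2
        refine h1.trans ?_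
        show _ = (ρ 1 : Matrix (Fin n) (Fin n) F) s.1 s.2
        rw [map_one, Units.val_one]
      · refine ⟨of_right (Algebra.subset_adjoin ⟨_, rfl⟩), ?_⟩
        have h1 := congrFun (congrFun hI s.1) s.2
        refine h1.trans ?_
        show _ = (ρ 1⁻¹ : Matrix (Fin n) (Fin n) F) s.1 s.2
        rw [inv_one, map_one, Units.val_one]
    | algebraMap c => exact ⟨(algT θ ⊔ algT ρ).algebraMap_mem c, y.commutes c⟩
    | add f f' _ _ h h' =>
      obtain ⟨h1, h2⟩ := h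
      obtain ⟨h3, h4⟩ := h'
      refine ⟨(algT θ ⊔ algT ρ).add_mem h1 h3, ?_⟩
      have e : (⟨f + f', (algT θ ⊔ algT ρ).add_mem h1 h3⟩ : big θ ρ) = ⟨f, h1⟩ + ⟨f', h3⟩ := rfl
      rw [e, map_add, h2, h4]
      rfl
    | mul f f' _ _ h h' =>
      obtain ⟨h1, h2⟩ := h
      obtain ⟨h3, h4⟩ := h'
      refine ⟨(algT θ ⊔ algT ρ).mul_mem h1 h3, ?_⟩
      have e : (⟨f * f', (algT θ ⊔ algT ρ).mul_mem h1 h3⟩ : big θ ρ) = ⟨f, h1⟩ * ⟨f', h3⟩ := rfl
      rw [e, map_mul, h2, h4]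
      rfl
  exact key.2

/-- conjugation by `g` -/
noncomputable def Cj (θ : G →* GL (Fin m) F) (ρ : G →* GL (Fin n) F) (g : G) : big θ ρ →ₐ[F] big θ ρ where
  toFun f := ⟨fun x => f.1 (g * (x * g⁻¹)), big_right (big_left f.2 g) g⁻¹⟩
  map_one' := rfl
  map_mul' _ _ := rfl
  map_zero' := rfl
  map_add' _ _ := rfl
  commutes' _ := rfl

theorem Cj_over {y : big θ ρ →ₐ[F] F} (hy : Over θ ρ y) (g : G) : Over θ ρ (y.comp (Cj θ ρ g)) := by
  intro a ha
  have h1 : (Cj θ ρ g a).1 ∈ algT θ := right_mem θ g⁻¹ (left_mem θ g ha)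
  rw [AlgHom.comp_apply, hy _ h1]
  show a.1 (g * (1 * g⁻¹)) = a.1 1
  rw [one_mul, mul_inv_cancel]

theorem Cj_mB (y : big θ ρ →ₐ[F] F) (g : G) : (mB θ ρ).map (y.comp (Cj θ ρ g)).toRingHom =
    (ρ g : Matrix (Fin n) (Fin n) F) * (mB θ ρ).map y.toRingHom * (ρ g⁻¹ : Matrix (Fin n) (Fin n) F) := by
  ext s t
  have e : Cj θ ρ g (mB θ ρ s t) = ∑ j, ∑ i, ((ρ g : Matrix (Fin n) (Fin n) F) s i *
      (ρ g⁻¹ : Matrix (Fin n) (Fin n) F) j t) • mB θ ρ i j := by
    refine evB_inj fun x => ?_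
    simp only [map_sum, map_smul]
    show (ρ (g * (x * g⁻¹)) : Matrix (Fin n) (Fin n) F) s t = _
    rw [← mul_assoc, map_mul, map_mul, Units.val_mul, Units.val_mul, Matrix.mul_apply]
    refine Finset.sum_congr rfl fun j _ => ?_
    rw [Matrix.mul_apply, Finset.sum_mul]
    refine Finset.sum_congr rfl fun i _ => ?_
    show _ = ((ρ g : Matrix (Fin n) (Fin n) F) s i * (ρ g⁻¹ : Matrix (Fin n) (Fin n) F) j t) *
      (ρ x : Matrix (Fin n) (Fin n) F) i j
    ring
  show y (Cj θ ρ g (mB θ ρ s t)) = _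
  rw [e, Matrix.mul_apply]
  simp only [map_sum, map_smul]
  refine Finset.sum_congr rfl fun j _ => ?_
  rw [Matrix.mul_apply, Finset.sum_mul]
  refine Finset.sum_congr rfl fun i _ => ?_
  show _ * y (mB θ ρ i j) = _ * y (mB θ ρ i j) * _
  ring

/-- irreducible on all subgroups of finite index -/
def LieIrr (ρ : G →* GL (Fin n) F) : Prop :=
  0 < n ∧ ∀ S : Subgroup G, S.FiniteIndex →
    Submodule.span F ((fun g => (ρ g : Matrix (Fin n) (Fin n) F)) '' (S : Set G)) = ⊤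

theorem point_eq' [IsAlgClosed F] [CharZero F] {k : ℕ} (hkn : Nat.Coprime k n) (h : RootsPow k ρ θ)
    (hirr : LieIrr ρ) (hdet : ∀ g, (ρ g : Matrix (Fin n) (Fin n) F).det = 1)
    (hint : ∀ b : big θ ρ, IsIntegral (algT θ) b) {y : big θ ρ →ₐ[F] F}
    (hy : Over θ ρ y) (b : big θ ρ) : y b = evB θ ρ 1 b := by
  classical
  set x : Matrix (Fin n) (Fin n) F := (mB θ ρ).map y.toRingHom with hx
  set T : Set (Matrix (Fin n) (Fin n) F) := {M : Matrix (Fin n) (Fin n) F |
      ∀ s, M s ∈ {v : Fin n → F | ∀ t, v t ∈ {c | ∃ y, Over θ ρ y ∧ y (mB θ ρ s t) = c}}} with hT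
  have hfin : T.Finite :=
    Set.Finite.pi' fun s => Set.Finite.pi' fun t => finite_values _ (hint _)
  have hmem : ∀ j : ℕ, x ^ j ∈ T := by
    intro j s t
    obtain ⟨z, hz, hz2⟩ := powers hy j
    refine ⟨z, hz, ?_⟩
    have := congrFun (congrFun hz2 s) t
    exact this
  obtain ⟨a, c, hac, he⟩ := Set.Finite.exists_lt_map_eq_of_forall_mem hmem hfin
  have hxk : x ^ k = 1 := eq_one_of_pow (unip' h hy) hac (by
    rw [← pow_mul, ← pow_mul, mul_comm k a, mul_comm k c, pow_mul, pow_mul, he])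
  -- the centralizer has finite index
  have hcj : ∀ g, (ρ g : Matrix (Fin n) (Fin n) F) * x * (ρ g⁻¹ : Matrix (Fin n) (Fin n) F) ∈ T := by
    intro g s t
    refine ⟨_, Cj_over hy g, ?_⟩
    have := congrFun (congrFun (Cj_mB y g) s) t
    exact this
  let S : Subgroup G :=
    { carrier := {g | (ρ g : Matrix (Fin n) (Fin n) F) * x = x * (ρ g : Matrix (Fin n) (Fin n) F)}
      one_mem' := by
        show (ρ 1 : Matrix (Fin n) (Fin n) F) * x = x * (ρ 1 : Matrix (Fin n) (Fin n) F)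
        rw [map_one, Units.val_one, one_mul, mul_one]
      mul_mem' := fun {g g'} hg hg' => by
        have h1 : (ρ g : Matrix (Fin n) (Fin n) F) * x = x * (ρ g : Matrix (Fin n) (Fin n) F) := hg
        have h2 : (ρ g' : Matrix (Fin n) (Fin n) F) * x = x * (ρ g' : Matrix (Fin n) (Fin n) F) := hg'
        show (ρ (g * g') : Matrix (Fin n) (Fin n) F) * x = x * (ρ (g * g') : Matrix (Fin n) (Fin n) F)
        rw [map_mul, Units.val_mul, mul_assoc, h2, ← mul_assoc, h1, mul_assoc]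
      inv_mem' := fun {g} hg => by
        have h1 : (ρ g : Matrix (Fin n) (Fin n) F) * x = x * (ρ g : Matrix (Fin n) (Fin n) F) := hg
        show (ρ g⁻¹ : Matrix (Fin n) (Fin n) F) * x = x * (ρ g⁻¹ : Matrix (Fin n) (Fin n) F)
        have e1 : (ρ g⁻¹ : Matrix (Fin n) (Fin n) F) * (ρ g : Matrix (Fin n) (Fin n) F) = 1 := by
          rw [← Units.val_mul, ← map_mul, inv_mul_cancel, map_one, Units.val_one]
        have e2 : (ρ g : Matrix (Fin n) (Fin n) F) * (ρ g⁻¹ : Matrix (Fin n) (Fin n) F) = 1 := by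
          rw [← Units.val_mul, ← map_mul, mul_inv_cancel, map_one, Units.val_one]
        calc (ρ g⁻¹ : Matrix (Fin n) (Fin n) F) * x
            = (ρ g⁻¹ : Matrix (Fin n) (Fin n) F) * (x * (ρ g : Matrix (Fin n) (Fin n) F)) *
              (ρ g⁻¹ : Matrix (Fin n) (Fin n) F) := by
                rw [mul_assoc, mul_assoc x, e2, mul_one]
          _ = x * (ρ g⁻¹ : Matrix (Fin n) (Fin n) F) := by
                rw [← h1, ← mul_assoc, e1, one_mul] }
  haveI hTf : Finite T := hfin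
  have hSf : Finite (G ⧸ S) := by
    let q : G ⧸ S → T := fun g => ⟨(ρ g.out : Matrix (Fin n) (Fin n) F) * x *
      (ρ g.out⁻¹ : Matrix (Fin n) (Fin n) F), hcj _⟩
    refine Finite.of_injective q fun g g' hgg => ?_
    have h1 : (ρ g.out : Matrix (Fin n) (Fin n) F) * x * (ρ g.out⁻¹ : Matrix (Fin n) (Fin n) F) =
        (ρ g'.out : Matrix (Fin n) (Fin n) F) * x * (ρ g'.out⁻¹ : Matrix (Fin n) (Fin n) F) :=
      congrArg Subtype.val hgg
    rw [← QuotientGroup.out_eq' g, ← QuotientGroup.out_eq' g', QuotientGroup.eq]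
    show (ρ (g.out⁻¹ * g'.out) : Matrix (Fin n) (Fin n) F) * x =
      x * (ρ (g.out⁻¹ * g'.out) : Matrix (Fin n) (Fin n) F)
    rw [map_mul, Units.val_mul]
    have e1 : (ρ g.out⁻¹ : Matrix (Fin n) (Fin n) F) * (ρ g.out : Matrix (Fin n) (Fin n) F) = 1 := by
      rw [← Units.val_mul, ← map_mul, inv_mul_cancel, map_one, Units.val_one]
    have e2 : (ρ g'.out⁻¹ : Matrix (Fin n) (Fin n) F) * (ρ g'.out : Matrix (Fin n) (Fin n) F) = 1 := by
      rw [← Units.val_mul, ← map_mul, inv_mul_cancel, map_one, Units.val_one]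
    calc (ρ g.out⁻¹ : Matrix (Fin n) (Fin n) F) * (ρ g'.out : Matrix (Fin n) (Fin n) F) * x
        = (ρ g.out⁻¹ : Matrix (Fin n) (Fin n) F) * ((ρ g'.out : Matrix (Fin n) (Fin n) F) * x *
          (ρ g'.out⁻¹ : Matrix (Fin n) (Fin n) F)) * (ρ g'.out : Matrix (Fin n) (Fin n) F) := by
            simp only [mul_assoc, e2, mul_one]
      _ = (ρ g.out⁻¹ : Matrix (Fin n) (Fin n) F) * ((ρ g.out : Matrix (Fin n) (Fin n) F) * x *
          (ρ g.out⁻¹ : Matrix (Fin n) (Fin n) F)) * (ρ g'.out : Matrix (Fin n) (Fin n) F) := by rw [h1]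
      _ = ((ρ g.out⁻¹ : Matrix (Fin n) (Fin n) F) * (ρ g.out : Matrix (Fin n) (Fin n) F)) * x *
          ((ρ g.out⁻¹ : Matrix (Fin n) (Fin n) F) * (ρ g'.out : Matrix (Fin n) (Fin n) F)) := by
            simp only [mul_assoc]
      _ = x * ((ρ g.out⁻¹ : Matrix (Fin n) (Fin n) F) * (ρ g'.out : Matrix (Fin n) (Fin n) F)) := by
            rw [e1, one_mul]
  have hspan := hirr.2 S Subgroup.finiteIndex_of_finite_quotient
  have hcomm : ∀ M : Matrix (Fin n) (Fin n) F, M * x = x * M := by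
    intro M
    have hM : M ∈ Submodule.span F ((fun g => (ρ g : Matrix (Fin n) (Fin n) F)) '' (S : Set G)) := by
      rw [hspan]
      trivial
    refine Submodule.span_induction (p := fun M _ => M * x = x * M) ?_ ?_ ?_ ?_ hM
    · rintro _ ⟨g, hg, rfl⟩
      exact hg
    · rw [zero_mul, mul_zero]
    · intro M M' _ _ h1 h2
      rw [add_mul, mul_add, h1, h2]
    · intro c M _ h1
      rw [Matrix.smul_mul, Matrix.mul_smul, h1]
  obtain ⟨ζ, hζ⟩ : ∃ ζ : F, x = Matrix.scalar (Fin n) ζ := by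
    have h1 : x ∈ Set.range (Matrix.scalar (Fin n)) :=
      Matrix.mem_range_scalar_of_commute_single (fun i j _ => (hcomm _))
    obtain ⟨ζ, hζ⟩ := h1
    exact ⟨ζ, hζ.symm⟩
  have hn0 : Nonempty (Fin n) := ⟨⟨0, hirr.1⟩⟩
  have hζk : ζ ^ k = 1 := by
    rw [hζ, ← map_pow] at hxk
    have h1 := congrFun (congrFun hxk ⟨0, hirr.1⟩) ⟨0, hirr.1⟩
    simpa using h1
  have hζn : ζ ^ n = 1 := by
    have h1 : (mB θ ρ).det = 1 := evB_inj fun g => by
      have h2 := RingHom.map_det (evB θ ρ g).toRingHom (mB θ ρ)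
      have h3 : (evB θ ρ g).toRingHom.mapMatrix (mB θ ρ) = (ρ g : Matrix (Fin n) (Fin n) F) := by
        ext i j
        rfl
      rw [h3, hdet g] at h2
      exact h2.trans (map_one (evB θ ρ g)).symm
    have h2 := RingHom.map_det y.toRingHom (mB θ ρ)
    rw [h1, map_one] at h2
    have h3 : y.toRingHom.mapMatrix (mB θ ρ) = Matrix.scalar (Fin n) ζ := hζ
    rw [h3] at h2
    have h4 : (Matrix.scalar (Fin n) ζ).det = ζ ^ n := by
      rw [Matrix.scalar_apply, Matrix.det_diagonal, Finset.prod_const, Finset.card_univ, Fintype.card_fin]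
    rw [h4] at h2
    exact h2.symm
  have hζ1 : ζ = 1 := by
    have h1 : ζ ^ Nat.gcd k n = 1 := pow_gcd_eq_one.2 ⟨hζk, hζn⟩
    have h2 : Nat.gcd k n = 1 := hkn
    rwa [h2, pow_one] at h1
  refine point_of_one hy ?_ b
  rw [← hx, hζ, hζ1, map_one]

end Pool.Agent.X289.EI
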