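import Pool.Agent.X289.EI.Basic
import Pool.Agent.X320.DS.Pos

/-! The algebra generated by the matrix entries of two representations, integrality. -/

set_option autoImplicit false
set_option linter.all false

namespace Pool.Agent.X289.EI

open Polynomial Matrix
open Pool.Agent.X320.DS (algT gens ent_mem ent_inv_mem left_mem right_mem inv_mem sum_fun_mem smul_fun_mem algT_fg
  exists_dual_in Semisimple)

variable {G : Type*} [Group G] {F : Type*} [Field F] {n m : ℕ}

/-- the function `(g, h) ↦ f (g h)` is a sum of products of functions of `g` and `h` -/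
theorem coprod (θ : G →* GL (Fin m) F) {f : G → F} (hf : f ∈ algT θ) :
    ∃ (ι : Type) (_ : Fintype ι) (u v : ι → G → F), (∀ i, v i ∈ algT θ) ∧
      ∀ g h, f (g * h) = ∑ i, u i g * v i h := by
  have hf' : f ∈ Algebra.adjoin F (Set.range (gens θ)) := hf
  clear hf
  induction hf' using Algebra.adjoin_induction with
  | mem f hf => 
    obtain ⟨s | s, rfl⟩ := hf
    · refine ⟨Fin m, inferInstance, fun l x => (θ x : Matrix (Fin m) (Fin m) F) s.1 l,
        fun l x => (θ x : Matrix (Fin m) (Fin m) F) l s.2, fun l => ent_mem θ _ _, fun g h => ?_⟩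
      show (θ (g * h) : Matrix (Fin m) (Fin m) F) s.1 s.2 = _
      rw [map_mul, Units.val_mul, Matrix.mul_apply]
    · refine ⟨Fin m, inferInstance, fun l x => (θ x⁻¹ : Matrix (Fin m) (Fin m) F) l s.2,
        fun l x => (θ x⁻¹ : Matrix (Fin m) (Fin m) F) s.1 l, fun l => ent_inv_mem θ _ _, fun g h => ?_⟩
      show (θ (g * h)⁻¹ : Matrix (Fin m) (Fin m) F) s.1 s.2 = _
      rw [_root_.mul_inv_rev, map_mul, Units.val_mul, Matrix.mul_apply]
      exact Finset.sum_congr rfl fun l _ => mul_comm _ _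
  | algebraMap c =>
    exact ⟨Unit, inferInstance, fun _ _ => c, fun _ _ => 1, fun _ => one_mem _, fun g h => by simp⟩
  | add f f' hf hf' h h' =>
    obtain ⟨ι, _, u, v, hv, huv⟩ := h
    obtain ⟨κ, _, u', v', hv', huv'⟩ := h'
    refine ⟨ι ⊕ κ, inferInstance, Sum.elim u u', Sum.elim v v', ?_, fun g h => ?_⟩
    · rintro (i | i)
      · exact hv i
      · exact hv' i
    · rw [Pi.add_apply, huv, huv', Fintype.sum_sum_type]
      rfl
  | mul f f' hf hf' h h' =>
    obtain ⟨ι, _, u, v, hv, huv⟩ := h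
    obtain ⟨κ, _, u', v', hv', huv'⟩ := h'
    refine ⟨ι × κ, inferInstance, fun i => u i.1 * u' i.2, fun i => v i.1 * v' i.2,
      fun i => mul_mem (hv _) (hv' _), fun g h => ?_⟩
    rw [Pi.mul_apply, huv, huv', Finset.sum_mul_sum, Fintype.sum_prod_type]
    refine Finset.sum_congr rfl fun i _ => Finset.sum_congr rfl fun j _ => ?_
    simp only [Pi.mul_apply]
    ring

/-- the algebra generated by the entries of both representations and their inverses, as an algebra over the algebra
generated by the entries of `θ` and `θ⁻¹` -/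
noncomputable def big (θ : G →* GL (Fin m) F) (ρ : G →* GL (Fin n) F) : Subalgebra (algT θ) (G → F) :=
  { (algT θ ⊔ algT ρ).toSubsemiring with
    algebraMap_mem' := fun a => (le_sup_left : algT θ ≤ algT θ ⊔ algT ρ) a.2 }

theorem mem_big {θ : G →* GL (Fin m) F} {ρ : G →* GL (Fin n) F} {f : G → F} :
    f ∈ big θ ρ ↔ f ∈ algT θ ⊔ algT ρ := Iff.rfl

theorem of_left {θ : G →* GL (Fin m) F} {ρ : G →* GL (Fin n) F} {f : G → F} (h : f ∈ algT θ) : f ∈ big θ ρ :=
  (le_sup_left : algT θ ≤ algT θ ⊔ algT ρ) h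

theorem of_right {θ : G →* GL (Fin m) F} {ρ : G →* GL (Fin n) F} {f : G → F} (h : f ∈ algT ρ) : f ∈ big θ ρ :=
  (le_sup_right : algT ρ ≤ algT θ ⊔ algT ρ) h

theorem big_left {θ : G →* GL (Fin m) F} {ρ : G →* GL (Fin n) F} {f : G → F} (h : f ∈ big θ ρ) (g : G) :
    (fun x => f (g * x)) ∈ big θ ρ := by
  have h1 : algT θ ⊔ algT ρ ≤ (algT θ ⊔ algT ρ).comap (Pool.Agent.X320.DS.compHom fun x => g * x) :=
    sup_le (fun f hf => (le_sup_left : algT θ ≤ algT θ ⊔ algT ρ) (left_mem θ g hf))
      (fun f hf => (le_sup_right : algT ρ ≤ algT θ ⊔ algT ρ) (left_mem ρ g hf))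
  exact h1 h

theorem big_right {θ : G →* GL (Fin m) F} {ρ : G →* GL (Fin n) F} {f : G → F} (h : f ∈ big θ ρ) (g : G) :
    (fun x => f (x * g)) ∈ big θ ρ := by
  have h1 : algT θ ⊔ algT ρ ≤ (algT θ ⊔ algT ρ).comap (Pool.Agent.X320.DS.compHom fun x => x * g) :=
    sup_le (fun f hf => (le_sup_left : algT θ ≤ algT θ ⊔ algT ρ) (right_mem θ g hf))
      (fun f hf => (le_sup_right : algT ρ ≤ algT θ ⊔ algT ρ) (right_mem ρ g hf))
  exact h1 h

theorem big_eq (θ : G →* GL (Fin m) F) (ρ : G →* GL (Fin n) F) :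
    big θ ρ = Algebra.adjoin (algT θ) (Set.range (gens ρ)) := by
  apply le_antisymm
  · intro f hf
    have h1 : algT θ ⊔ algT ρ ≤ (Algebra.adjoin (algT θ) (Set.range (gens ρ))).restrictScalars F := by
      refine sup_le (fun f hf => ?_) ?_
      · exact (Algebra.adjoin (algT θ) (Set.range (gens ρ))).algebraMap_mem ⟨f, hf⟩
      · rw [algT, Algebra.adjoin_le_iff]
        exact Algebra.subset_adjoin
    exact h1 hf
  · rw [Algebra.adjoin_le_iff]
    rintro f hf
    exact of_right (Algebra.subset_adjoin hf)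

/-- the roots of a polynomial, as a family -/
theorem exists_family [IsAlgClosed F] (M : Matrix (Fin n) (Fin n) F) :
    ∃ l : Fin n → F, (∀ i, M.charpoly.IsRoot (l i)) ∧ M.trace = ∑ i, l i := by
  have h1 : M.charpoly.roots.card = n := by
    rw [splits_iff_card_roots.1 (IsAlgClosed.splits M.charpoly), Matrix.charpoly_natDegree_eq_dim, Fintype.card_fin]
  obtain ⟨L, hL⟩ := Quot.exists_rep M.charpoly.roots
  have hL' : (L : Multiset F) = M.charpoly.roots := hL
  have hn : L.length = n := by rw [← h1, ← hL']; rfl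
  subst hn
  refine ⟨L.get, fun i => ?_, ?_⟩
  · have : L.get i ∈ M.charpoly.roots := by
      rw [← hL']
      exact List.get_mem L i
    exact (mem_roots (Matrix.charpoly_monic M).ne_zero).1 this
  · rw [Matrix.trace_eq_sum_roots_charpoly, ← hL', Multiset.sum_coe]
    conv_lhs => rw [← List.ofFn_get L]
    rw [List.sum_ofFn]

/-- the condition on the eigenvalues -/
def RootsIn (ρ : G →* GL (Fin n) F) (θ : G →* GL (Fin m) F) : Prop :=
  ∀ g x, (ρ g : Matrix (Fin n) (Fin n) F).charpoly.IsRoot x → (θ g : Matrix (Fin m) (Fin m) F).charpoly.IsRoot x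

theorem integral_trace [IsAlgClosed F] {ρ : G →* GL (Fin n) F} {θ : G →* GL (Fin m) F} (h : RootsIn ρ θ)
    (φ : G → G) (hφ : ∀ i j, (fun x => (θ (φ x) : Matrix (Fin m) (Fin m) F) i j) ∈ algT θ) :
    IsIntegral (algT θ) (fun x => (ρ (φ x) : Matrix (Fin n) (Fin n) F).trace) := by
  choose l hl1 hl2 using fun g : G => exists_family (ρ g : Matrix (Fin n) (Fin n) F)
  have e : (fun x => (ρ (φ x) : Matrix (Fin n) (Fin n) F).trace) = ∑ i, fun x => l (φ x) i := by
    funext x
    rw [Finset.sum_apply]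
    exact hl2 _
  rw [e]
  refine IsIntegral.sum _ fun i _ => ?_
  let M : Matrix (Fin m) (Fin m) (algT θ) := fun i j => ⟨fun x => (θ (φ x) : Matrix (Fin m) (Fin m) F) i j, hφ i j⟩
  refine ⟨M.charpoly, M.charpoly_monic, ?_⟩
  funext x
  have h1 := Polynomial.hom_eval₂ M.charpoly (algebraMap (algT θ) (G → F)) (Pi.evalRingHom (fun _ : G => F) x)
    (fun x => l (φ x) i)
  refine h1.trans ?_
  rw [eval₂_eq_eval_map, ← Matrix.charpoly_map]
  have e2 : M.map ((Pi.evalRingHom (fun _ : G => F) x).comp (algebraMap (algT θ) (G → F))) =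
      (θ (φ x) : Matrix (Fin m) (Fin m) F) := by
    ext i j
    rfl
  rw [e2]
  exact h _ _ (hl1 _ i)

theorem isIntegral_const {θ : G →* GL (Fin m) F} (c : F) : IsIntegral (algT θ) (fun _ : G => c) :=
  isIntegral_algebraMap (x := (algebraMap F (algT θ) c))

theorem integral_gens [IsAlgClosed F] [CharZero F] {ρ : G →* GL (Fin n) F} {θ : G →* GL (Fin m) F}
    (h : RootsIn ρ θ) (hρ : Semisimple ρ) (s) : IsIntegral (algT θ) (gens ρ s) := by
  obtain ⟨r, g, B, -, -, hB⟩ := exists_dual_in hρ (Nat.cast_ne_zero.2 (Nat.factorial_ne_zero n)) Set.univ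
    (fun x => Submodule.subset_span ⟨x, trivial, rfl⟩)
  rcases s with s | s
  · have e : gens ρ (Sum.inl s) = ∑ i, (fun x => (ρ (g i * x) : Matrix (Fin n) (Fin n) F).trace) *
        (fun _ => B i s.1 s.2) := by
      funext x
      show (ρ x : Matrix (Fin n) (Fin n) F) s.1 s.2 = _
      conv_lhs => rw [hB x]
      rw [Matrix.sum_apply, Finset.sum_apply]
      rfl
    rw [e]
    refine IsIntegral.sum _ fun i _ => (integral_trace h _ fun i' j' => ?_).mul (isIntegral_const _)
    exact left_mem θ (g i) (ent_mem θ i' j')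
  · have e : gens ρ (Sum.inr s) = ∑ i, (fun x => (ρ (g i * x⁻¹) : Matrix (Fin n) (Fin n) F).trace) *
        (fun _ => B i s.1 s.2) := by
      funext x
      show (ρ x⁻¹ : Matrix (Fin n) (Fin n) F) s.1 s.2 = _
      conv_lhs => rw [hB x⁻¹]
      rw [Matrix.sum_apply, Finset.sum_apply]
      rfl
    rw [e]
    refine IsIntegral.sum _ fun i _ => (integral_trace h _ fun i' j' => ?_).mul (isIntegral_const _)
    exact inv_mem θ (f := fun x => (θ (g i * x) : Matrix (Fin m) (Fin m) F) i' j') (left_mem θ (g i) (ent_mem θ i' j'))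

theorem big_fg [IsAlgClosed F] [CharZero F] {ρ : G →* GL (Fin n) F} {θ : G →* GL (Fin m) F}
    (h : RootsIn ρ θ) (hρ : Semisimple ρ) : (Subalgebra.toSubmodule (big θ ρ)).FG := by
  rw [big_eq]
  refine fg_adjoin_of_finite (Set.finite_range _) ?_
  rintro _ ⟨s, rfl⟩
  exact integral_gens h hρ s

end Pool.Agent.X289.EI
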