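import Pool.Agent.X289.EI.FS

/-! Eigenvalues up to roots of unity: the power map is dominant near the identity. -/

set_option autoImplicit false
set_option linter.all false

namespace Pool.Agent.X289.EI.FS

open Polynomial Matrix Module

section krull

theorem pow_lin {R : Type*} [CommRing R] (I : Ideal R) {r : ℕ} (X : Matrix (Fin r) (Fin r) R)
    (hX : ∀ i j, X i j ∈ I) (q : ℕ) : ∀ i j, ((1 + X) ^ q - 1 - (q : R) • X) i j ∈ I ^ 2 := by
  induction q with
  | zero =>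
    intro i j
    simp
  | succ q ih =>
    intro i j
    have e : (1 + X) ^ (q + 1) - 1 - ((q + 1 : ℕ) : R) • X =
        ((1 + X) ^ q - 1 - (q : R) • X) * (1 + X) + (q : R) • (X * X) := by
      rw [pow_succ, Nat.cast_succ]
      simp only [sub_mul, mul_add, one_mul, mul_one, smul_mul_assoc, add_smul, one_smul]
      abel
    rw [e, Matrix.add_apply, Matrix.mul_apply, Matrix.smul_apply, Matrix.mul_apply]
    refine (I ^ 2).add_mem (Ideal.sum_mem _ fun l _ => (I ^ 2).mul_mem_right _ (ih i l)) ?_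
    refine (I ^ 2).mul_mem_left _ (Ideal.sum_mem _ fun l _ => ?_)
    rw [pow_two]
    exact Ideal.mul_mem_mul (hX i l) (hX l j)

theorem krull_core {k R : Type} [Field k] [CommRing R] [Algebra k R] [IsNoetherianRing R] (ε : R →ₐ[k] k)
    (ψ : R →ₐ[k] R) (q : k) (hq : q ≠ 0) (gen : Set R) (hgen : Algebra.adjoin k gen = ⊤)
    (h : ∀ s ∈ gen, ψ s - algebraMap k R (ε s) - algebraMap k R q * (s - algebraMap k R (ε s)) ∈
      (RingHom.ker ε.toRingHom) ^ 2) {f : R} (hf : ψ f = 0) :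
    ∃ s ∈ RingHom.ker ε.toRingHom, s * f = f := by
  set I : Ideal R := RingHom.ker ε.toRingHom with hI
  have hε : ∀ c : k, ε (algebraMap k R c) = c := fun c => ε.commutes c
  have hψ : ∀ c : k, ψ (algebraMap k R c) = algebraMap k R c := fun c => ψ.commutes c
  have hmem : ∀ a, a - algebraMap k R (ε a) ∈ I := by
    intro a
    show ε (a - algebraMap k R (ε a)) = 0
    rw [map_sub, hε, sub_self]
  have hI2 : I ^ 2 ≤ I := Ideal.pow_le_self two_ne_zero
  have h1 : ∀ f, ψ f - algebraMap k R (ε f) - algebraMap k R q * (f - algebraMap k R (ε f)) ∈ I ^ 2 := by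
    intro f
    have hf : f ∈ Algebra.adjoin k gen := by rw [hgen]; trivial
    induction hf using Algebra.adjoin_induction with
    | mem f hf => exact h f hf
    | algebraMap c =>
      rw [hε, hψ, sub_self, mul_zero, sub_zero]
      exact zero_mem _
    | add a b _ _ ha hb =>
      have e : ψ (a + b) - algebraMap k R (ε (a + b)) - algebraMap k R q * (a + b - algebraMap k R (ε (a + b))) =
          (ψ a - algebraMap k R (ε a) - algebraMap k R q * (a - algebraMap k R (ε a))) +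
          (ψ b - algebraMap k R (ε b) - algebraMap k R q * (b - algebraMap k R (ε b))) := by
        rw [map_add, map_add, map_add]
        ring
      rw [e]
      exact add_mem ha hb
    | mul a b _ _ ha hb =>
      have e : ψ (a * b) - algebraMap k R (ε (a * b)) - algebraMap k R q * (a * b - algebraMap k R (ε (a * b))) =
          algebraMap k R (ε a) * (ψ b - algebraMap k R (ε b) - algebraMap k R q * (b - algebraMap k R (ε b))) +
          (algebraMap k R q * algebraMap k R q - algebraMap k R q) *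
            ((a - algebraMap k R (ε a)) * (b - algebraMap k R (ε b))) +
          (algebraMap k R q * (a - algebraMap k R (ε a))) *
            (ψ b - algebraMap k R (ε b) - algebraMap k R q * (b - algebraMap k R (ε b))) +
          (ψ a - algebraMap k R (ε a) - algebraMap k R q * (a - algebraMap k R (ε a))) * ψ b := by
        rw [map_mul, map_mul, map_mul]
        ring
      rw [e]
      refine add_mem (add_mem (add_mem ((I ^ 2).mul_mem_left _ hb) ((I ^ 2).mul_mem_left _ ?_))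
        ((I ^ 2).mul_mem_left _ hb)) ((I ^ 2).mul_mem_right _ ha)
      rw [pow_two]
      exact Ideal.mul_mem_mul (hmem a) (hmem b)
  have h1' : ∀ b ∈ I, ψ b - algebraMap k R q * b ∈ I ^ 2 := by
    intro b hb
    have hb' : ε b = 0 := hb
    have := h1 b
    rwa [hb', map_zero, sub_zero, sub_zero] at this
  have h2 : ∀ b ∈ I, ψ b ∈ I := by
    intro b hb
    have := add_mem (hI2 (h1' b hb)) (I.mul_mem_left (algebraMap k R q) hb)
    rwa [sub_add_cancel] at this
  have h3 : ∀ r : ℕ, ∀ f ∈ I ^ r, ψ f - algebraMap k R q ^ r * f ∈ I ^ (r + 1) := by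
    intro r
    induction r with
    | zero =>
      intro f _
      rw [pow_zero, one_mul, zero_add, pow_one]
      have e : ψ f - f = (ψ f - algebraMap k R (ε f) - algebraMap k R q * (f - algebraMap k R (ε f))) +
          (algebraMap k R q - 1) * (f - algebraMap k R (ε f)) := by ring
      rw [e]
      exact add_mem (hI2 (h1 f)) (I.mul_mem_left _ (hmem f))
    | succ r ih =>
      intro f hf
      rw [pow_succ I r] at hf
      refine Submodule.mul_induction_on hf ?_ ?_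
      · intro a ha b hb
        have e : ψ (a * b) - algebraMap k R q ^ (r + 1) * (a * b) =
            (ψ a - algebraMap k R q ^ r * a) * ψ b + algebraMap k R q ^ r * (a * (ψ b - algebraMap k R q * b)) := by
          rw [map_mul]
          ring
        rw [e]
        refine add_mem ?_ (Ideal.mul_mem_left _ _ ?_)
        · rw [pow_succ I (r + 1)]
          exact Ideal.mul_mem_mul (ih a ha) (h2 b hb)
        · rw [pow_add I r 2]
          exact Ideal.mul_mem_mul ha (h1' b hb)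
      · intro x y hx hy
        have e : ψ (x + y) - algebraMap k R q ^ (r + 1) * (x + y) =
            (ψ x - algebraMap k R q ^ (r + 1) * x) + (ψ y - algebraMap k R q ^ (r + 1) * y) := by
          rw [map_add]
          ring
        rw [e]
        exact add_mem hx hy
  have h4 : ∀ r : ℕ, f ∈ I ^ r := by
    intro r
    induction r with
    | zero => rw [pow_zero, Ideal.one_eq_top]; trivial
    | succ r ih =>
      have h5 := h3 r f ih
      rw [hf, zero_sub, neg_mem_iff] at h5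
      have h6 := (I ^ (r + 1)).mul_mem_left (algebraMap k R (q ^ r)⁻¹) h5
      rwa [← mul_assoc, ← map_pow, ← map_mul, inv_mul_cancel₀ (pow_ne_zero _ hq), map_one, one_mul] at h6
  have h7 : f ∈ (⨅ i : ℕ, I ^ i • ⊤ : Submodule R R) := by
    rw [Submodule.mem_iInf]
    intro i
    rw [smul_eq_mul, Ideal.mul_top]
    exact h4 i
  obtain ⟨s, hs⟩ := (Ideal.mem_iInf_smul_pow_eq_bot_iff I f).1 h7
  exact ⟨s.1, s.2, hs⟩

end krull

section gen

theorem map_pow'' {B C : Type*} [CommRing B] [CommRing C] {n : ℕ} (φ : B →+* C) (M : Matrix (Fin n) (Fin n) B) (k : ℕ) :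
    (M ^ k).map φ = (M.map φ) ^ k := by
  have h : (φ.mapMatrix (M ^ k) : Matrix (Fin n) (Fin n) C) = (φ.mapMatrix M) ^ k := map_pow _ _ _
  exact h

variable {G k : Type} [Group G] [Field k] {n m : ℕ}

/-- the matrix of functions of a representation -/
noncomputable def MM (A : Subalgebra k (G → k)) {r : ℕ} (η : G →* GL (Fin r) k)
    (hη : ∀ i j, (fun x => (η x : Matrix (Fin r) (Fin r) k) i j) ∈ A) : Matrix (Fin r) (Fin r) A :=
  Matrix.of fun i j => ⟨fun x => (η x : Matrix (Fin r) (Fin r) k) i j, hη i j⟩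

/-- evaluation -/
noncomputable def evx (A : Subalgebra k (G → k)) (x : G) : A →ₐ[k] k :=
  (Pi.evalAlgHom k (fun _ : G => k) x).comp A.val

theorem MM_ev (A : Subalgebra k (G → k)) {r : ℕ} (η : G →* GL (Fin r) k)
    (hη : ∀ i j, (fun x => (η x : Matrix (Fin r) (Fin r) k) i j) ∈ A) (x : G) :
    (MM A η hη).map (evx A x).toRingHom = (η x : Matrix (Fin r) (Fin r) k) := by
  ext i j
  rfl

theorem MM_pow (A : Subalgebra k (G → k)) {r : ℕ} (η : G →* GL (Fin r) k)
    (hη : ∀ i j, (fun x => (η x : Matrix (Fin r) (Fin r) k) i j) ∈ A) (q : ℕ) (x : G) (i j : Fin r) :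
    ((MM A η hη ^ q) i j).1 x = (η (x ^ q) : Matrix (Fin r) (Fin r) k) i j := by
  have h := map_pow'' (evx A x).toRingHom (MM A η hη) q
  rw [MM_ev] at h
  rw [map_pow, Units.val_pow_eq_pow_val, ← h]
  rfl

/-- the algebra of the entries -/
noncomputable def AA (ρ : G →* GL (Fin n) k) (θ : G →* GL (Fin m) k) : Subalgebra k (G → k) :=
  Algebra.adjoin k (Set.range (phi ρ θ))

theorem AA_l (ρ : G →* GL (Fin n) k) (θ : G →* GL (Fin m) k) (i j : Fin n) :
    (fun x => (ρ x : Matrix (Fin n) (Fin n) k) i j) ∈ AA ρ θ := Algebra.subset_adjoin ⟨Sum.inl (i, j), rfl⟩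

theorem AA_r (ρ : G →* GL (Fin n) k) (θ : G →* GL (Fin m) k) (i j : Fin m) :
    (fun x => (θ x : Matrix (Fin m) (Fin m) k) i j) ∈ AA ρ θ := Algebra.subset_adjoin ⟨Sum.inr (i, j), rfl⟩

theorem AA_noeth (ρ : G →* GL (Fin n) k) (θ : G →* GL (Fin m) k) : IsNoetherianRing (AA ρ θ) := by
  haveI : Algebra.FiniteType k (AA ρ θ) :=
    (AA ρ θ).fg_iff_finiteType.1 ⟨(Set.finite_range (phi ρ θ)).toFinset, by rw [Set.Finite.coe_toFinset]; rfl⟩
  exact Algebra.FiniteType.isNoetherianRing k (AA ρ θ)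

theorem val_mem (ρ : G →* GL (Fin n) k) (θ : G →* GL (Fin m) k)
    (P : MvPolynomial ((Fin n × Fin n) ⊕ (Fin m × Fin m)) ℤ) : val ρ θ P ∈ AA ρ θ := by
  unfold val
  induction P using MvPolynomial.induction_on with
  | C a =>
    rw [MvPolynomial.eval₂Hom_C, eq_intCast]
    exact intCast_mem _ a
  | add p q hp hq =>
    rw [map_add]
    exact add_mem hp hq
  | mul_X p i hp =>
    rw [map_mul, MvPolynomial.eval₂Hom_X']
    exact mul_mem hp (Algebra.subset_adjoin ⟨i, rfl⟩)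

/-- composition with the power map -/
def Pq (k : Type) [Field k] (q : ℕ) : (G → k) →ₐ[k] (G → k) where
  toFun f := fun x => f (x ^ q)
  map_one' := rfl
  map_mul' _ _ := rfl
  map_zero' := rfl
  map_add' _ _ := rfl
  commutes' _ := rfl

theorem AA_pow (ρ : G →* GL (Fin n) k) (θ : G →* GL (Fin m) k) (q : ℕ) (f : G → k) (hf : f ∈ AA ρ θ) :
    Pq k q f ∈ AA ρ θ := by
  have h1 : AA ρ θ ≤ (AA ρ θ).comap (Pq k q) := by
    refine Algebra.adjoin_le ?_
    rintro _ ⟨⟨i, j⟩ | ⟨i, j⟩, rfl⟩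
    · show Pq k q (phi ρ θ (Sum.inl (i, j))) ∈ AA ρ θ
      have e : Pq k q (phi ρ θ (Sum.inl (i, j))) = ((MM (AA ρ θ) ρ (AA_l ρ θ) ^ q) i j).1 := by
        funext x
        exact (MM_pow (AA ρ θ) ρ (AA_l ρ θ) q x i j).symm
      rw [e]
      exact ((MM (AA ρ θ) ρ (AA_l ρ θ) ^ q) i j).2
    · show Pq k q (phi ρ θ (Sum.inr (i, j))) ∈ AA ρ θ
      have e : Pq k q (phi ρ θ (Sum.inr (i, j))) = ((MM (AA ρ θ) θ (AA_r ρ θ) ^ q) i j).1 := by
        funext x
        exact (MM_pow (AA ρ θ) θ (AA_r ρ θ) q x i j).symm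
      rw [e]
      exact ((MM (AA ρ θ) θ (AA_r ρ θ) ^ q) i j).2
  exact h1 hf

/-- the power map on the algebra -/
noncomputable def PA (ρ : G →* GL (Fin n) k) (θ : G →* GL (Fin m) k) (q : ℕ) : AA ρ θ →ₐ[k] AA ρ θ :=
  ((Pq k q).comp (AA ρ θ).val).codRestrict (AA ρ θ) fun f => AA_pow ρ θ q f.1 f.2

theorem gen_cond (ρ : G →* GL (Fin n) k) (θ : G →* GL (Fin m) k) (q : ℕ) {r : ℕ} (η : G →* GL (Fin r) k)
    (hη : ∀ i j, (fun x => (η x : Matrix (Fin r) (Fin r) k) i j) ∈ AA ρ θ) (i j : Fin r) :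
    PA ρ θ q (MM (AA ρ θ) η hη i j) - algebraMap k (AA ρ θ) (evx (AA ρ θ) 1 (MM (AA ρ θ) η hη i j)) -
      algebraMap k (AA ρ θ) (q : k) * (MM (AA ρ θ) η hη i j -
        algebraMap k (AA ρ θ) (evx (AA ρ θ) 1 (MM (AA ρ θ) η hη i j))) ∈
      (RingHom.ker (evx (AA ρ θ) 1).toRingHom) ^ 2 := by
  have e1 : algebraMap k (AA ρ θ) (evx (AA ρ θ) 1 (MM (AA ρ θ) η hη i j)) =
      (1 : Matrix (Fin r) (Fin r) (AA ρ θ)) i j := by
    have h : evx (AA ρ θ) 1 (MM (AA ρ θ) η hη i j) = (1 : Matrix (Fin r) (Fin r) k) i j := by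
      show (η 1 : Matrix (Fin r) (Fin r) k) i j = _
      rw [map_one]
      rfl
    rw [h]
    by_cases hij : i = j
    · subst hij
      rw [Matrix.one_apply_eq, Matrix.one_apply_eq, map_one]
    · rw [Matrix.one_apply_ne hij, Matrix.one_apply_ne hij, map_zero]
  have e2 : PA ρ θ q (MM (AA ρ θ) η hη i j) = (MM (AA ρ θ) η hη ^ q) i j := by
    apply Subtype.ext
    funext x
    exact (MM_pow (AA ρ θ) η hη q x i j).symm
  have hX : ∀ i j, (MM (AA ρ θ) η hη - 1) i j ∈ RingHom.ker (evx (AA ρ θ) 1).toRingHom := by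
    intro i j
    show evx (AA ρ θ) 1 (MM (AA ρ θ) η hη i j - (1 : Matrix (Fin r) (Fin r) (AA ρ θ)) i j) = 0
    rw [map_sub]
    have h : evx (AA ρ θ) 1 (MM (AA ρ θ) η hη i j) = (1 : Matrix (Fin r) (Fin r) k) i j := by
      show (η 1 : Matrix (Fin r) (Fin r) k) i j = _
      rw [map_one]
      rfl
    rw [h]
    by_cases hij : i = j
    · subst hij
      rw [Matrix.one_apply_eq, Matrix.one_apply_eq, map_one, sub_self]
    · rw [Matrix.one_apply_ne hij, Matrix.one_apply_ne hij, map_zero, sub_self]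
  have h := pow_lin _ (MM (AA ρ θ) η hη - 1) hX q i j
  rw [add_sub_cancel, Matrix.sub_apply, Matrix.sub_apply, Matrix.smul_apply, Matrix.sub_apply, smul_eq_mul] at h
  rw [e1, e2, map_natCast]
  exact h

/-- a function which is zero on all `q`-th powers is zero where a certain function is not `1` -/
theorem vanish_near (ρ : G →* GL (Fin n) k) (θ : G →* GL (Fin m) k) [CharZero k] (q : ℕ) (hq : 0 < q)
    {f : G → k} (hf : f ∈ AA ρ θ) (h0 : ∀ g, f (g ^ q) = 0) :
    ∃ s ∈ AA ρ θ, s 1 = 0 ∧ ∀ g, s g ≠ 1 → f g = 0 := by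
  haveI := AA_noeth ρ θ
  obtain ⟨s, hs1, hs2⟩ := krull_core (k := k) (R := AA ρ θ) (evx (AA ρ θ) 1) (PA ρ θ q) (q : k)
    (by exact_mod_cast hq.ne') (Subtype.val ⁻¹' Set.range (phi ρ θ)) (Algebra.adjoin_adjoin_coe_preimage) (by
      rintro ⟨s, hs⟩ ⟨⟨i, j⟩ | ⟨i, j⟩, hs'⟩
      · have e : (⟨s, hs⟩ : AA ρ θ) = MM (AA ρ θ) ρ (AA_l ρ θ) i j := Subtype.ext hs'.symm
        rw [e]
        exact gen_cond ρ θ q ρ (AA_l ρ θ) i j
      · have e : (⟨s, hs⟩ : AA ρ θ) = MM (AA ρ θ) θ (AA_r ρ θ) i j := Subtype.ext hs'.symm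
        rw [e]
        exact gen_cond ρ θ q θ (AA_r ρ θ) i j) (f := ⟨f, hf⟩) (by
      apply Subtype.ext
      funext x
      exact h0 x)
  refine ⟨s.1, s.2, hs1, fun g hg => ?_⟩
  have h1 : s.1 g * f g = f g := congrFun (congrArg Subtype.val hs2) g
  have h2 : (s.1 g - 1) * f g = 0 := by rw [sub_mul, one_mul, h1, sub_self]
  exact (mul_eq_zero.1 h2).resolve_left (sub_ne_zero.2 hg)

theorem AA_cont [TopologicalSpace G] [TopologicalSpace k] [IsTopologicalRing k] {ρ : G →* GL (Fin n) k}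
    {θ : G →* GL (Fin m) k} (hρ : Continuous ρ) (hθ : Continuous θ) {f : G → k} (hf : f ∈ AA ρ θ) :
    Continuous f := by
  have hf' : f ∈ Algebra.adjoin k (Set.range (phi ρ θ)) := hf
  clear hf
  induction hf' using Algebra.adjoin_induction with
  | mem f hf0 =>
    obtain ⟨s | s, rfl⟩ := hf0
    · exact (Units.continuous_val.comp hρ).matrix_elem s.1 s.2
    · exact (Units.continuous_val.comp hθ).matrix_elem s.1 s.2
  | algebraMap c => exact continuous_const
  | add a b _ _ ha hb => exact ha.add hb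
  | mul a b _ _ ha hb => exact ha.mul hb

/-- **from powers to an open subgroup** -/
theorem open_subgroup [TopologicalSpace G] [IsTopologicalGroup G] [CompactSpace G] [TotallyDisconnectedSpace G]
    [IsAlgClosed k] [CharZero k] [TopologicalSpace k] [IsTopologicalRing k] [T2Space k]
    {ρ : G →* GL (Fin n) k} {θ : G →* GL (Fin m) k} (hρ : Continuous ρ) (hθ : Continuous θ)
    (q : ℕ) (hq : 0 < q) (h : ∀ g, Among ρ θ (g ^ q)) :
    ∃ N : Subgroup G, N.Normal ∧ IsOpen (N : Set G) ∧ ∀ g ∈ N, Among ρ θ g := by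
  have h1 : ∀ j : ℕ, 1 ≤ j → j ≤ n → ∃ s ∈ AA ρ θ, s 1 = 0 ∧ ∀ g, s g ≠ 1 → val ρ θ (PP n m j) g = 0 :=
    fun j hj1 hj2 => vanish_near ρ θ q hq (val_mem ρ θ _) fun g => (among_iff_val ρ θ (g ^ q)).1 (h g) j hj1 hj2
  have h2 : ∀ j : ℕ, ∃ s : G → k, Continuous s ∧ s 1 = 0 ∧
      (1 ≤ j → j ≤ n → ∀ g, s g ≠ 1 → val ρ θ (PP n m j) g = 0) := by
    intro j
    by_cases hj : 1 ≤ j ∧ j ≤ n
    · obtain ⟨s, hs, hs1, hs2⟩ := h1 j hj.1 hj.2
      exact ⟨s, AA_cont hρ hθ hs, hs1, fun _ _ => hs2⟩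
    · exact ⟨fun _ => 0, continuous_const, rfl, fun a b => absurd ⟨a, b⟩ hj⟩
  choose s hsc hs1 hs2 using h2
  have hop : IsOpen (⋂ j ∈ Finset.range (n + 1), {g | s j g ≠ 1}) := by
    refine isOpen_biInter_finset fun j _ => ?_
    exact isOpen_ne_fun (hsc j) continuous_const
  have hmem : (1 : G) ∈ ⋂ j ∈ Finset.range (n + 1), {g | s j g ≠ 1} := by
    refine Set.mem_iInter₂.2 fun j _ => ?_
    show s j 1 ≠ 1
    rw [hs1]
    exact zero_ne_one
  obtain ⟨N, hN⟩ := ProfiniteGrp.exist_openNormalSubgroup_sub_open_nhds_of_one hop hmem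
  refine ⟨N.toSubgroup, N.isNormal', N.isOpen', fun g hg => ?_⟩
  rw [among_iff_val]
  intro j hj1 hj2
  exact hs2 j hj1 hj2 g (Set.mem_iInter₂.1 (hN hg) j (Finset.mem_range.2 (by omega)))

end gen

section dens

open Filter NumberField IsDedekindDomain Topology
open Pool.Agent.W401.Cheb (GK IsFrob dens)
open Pool.Agent.X320.DS (cheb_count_freq)

/-- Chebotarev: a closed set, stable under conjugation, which contains the Frobenius elements of a set of places of
upper density one -/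
theorem all_of_density {K : Type} [Field K] [NumberField K] (H : Set (GK K)) (hc : IsClosed H)
    (hconj : ∀ σ ∈ H, ∀ τ, τ * σ * τ⁻¹ ∈ H)
    (hd : ∀ δ : ℝ, δ < 1 → ∃ᶠ N in atTop, δ ≤
      dens (fun v : HeightOneSpectrum (𝓞 K) => ∀ σ, IsFrob v σ → σ⁻¹ ∈ H) N) (g : GK K) : g ∈ H := by
  by_contra hg
  have hop : IsOpen Hᶜ := hc.isOpen_compl
  have h1 : {x : GK K | g * x ∈ Hᶜ} ∈ 𝓝 (1 : GK K) := by
    refine (hop.preimage (continuous_const_mul g)).mem_nhds ?_
    show g * 1 ∈ Hᶜ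
    rwa [mul_one]
  obtain ⟨V, hVs, hVo, hV1⟩ := mem_nhds_iff.1 h1
  obtain ⟨U, hU⟩ := ProfiniteGrp.exist_openNormalSubgroup_sub_open_nhds_of_one hVo hV1
  haveI : U.toSubgroup.Normal := U.isNormal'
  have hfin : Finite (GK K ⧸ U.toSubgroup) := Subgroup.quotient_finite_of_isOpen _ U.isOpen'
  have hcard : (0 : ℝ) < (Nat.card (GK K ⧸ U.toSubgroup) : ℝ) := by exact_mod_cast Nat.card_pos
  set δ : ℝ := 1 - 1 / (2 * (Nat.card (GK K ⧸ U.toSubgroup) : ℝ)) with hδ
  have hδ1 : δ < 1 := by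
    rw [hδ]
    have : 0 < 1 / (2 * (Nat.card (GK K ⧸ U.toSubgroup) : ℝ)) := by positivity
    linarith
  have key := cheb_count_freq (fun v : HeightOneSpectrum (𝓞 K) => ∀ σ, IsFrob v σ → σ⁻¹ ∈ H) (hd δ hδ1)
    U.toSubgroup U.isOpen' H (fun σ hσ τ => hconj σ hσ τ) (fun v hv σ hσ => hv σ hσ)
  have h2 : (QuotientGroup.mk : GK K → GK K ⧸ U.toSubgroup) '' H ⊆ {(QuotientGroup.mk g : GK K ⧸ U.toSubgroup)}ᶜ := by
    rintro _ ⟨x, hx, rfl⟩ h
    have h3 : g⁻¹ * x ∈ U.toSubgroup := QuotientGroup.eq.1 (Set.mem_singleton_iff.1 h).symm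
    have h4 := hVs (hU h3)
    have h5 : g * (g⁻¹ * x) ∈ Hᶜ := h4
    rw [mul_inv_cancel_left] at h5
    exact h5 hx
  have h3 := Set.ncard_le_ncard h2 (Set.toFinite _)
  have h4 : ({(QuotientGroup.mk g : GK K ⧸ U.toSubgroup)} : Set _).ncard +
      ({(QuotientGroup.mk g : GK K ⧸ U.toSubgroup)}ᶜ : Set (GK K ⧸ U.toSubgroup)).ncard =
      Nat.card (GK K ⧸ U.toSubgroup) := Set.ncard_add_ncard_compl _
  rw [Set.ncard_singleton] at h4
  have h5 : ((((QuotientGroup.mk : GK K → GK K ⧸ U.toSubgroup) '' H).ncard : ℝ)) + 1 ≤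
      (Nat.card (GK K ⧸ U.toSubgroup) : ℝ) := by
    have : ((QuotientGroup.mk : GK K → GK K ⧸ U.toSubgroup) '' H).ncard + 1 ≤
        Nat.card (GK K ⧸ U.toSubgroup) := by omega
    exact_mod_cast this
  have h6 : δ * (Nat.card (GK K ⧸ U.toSubgroup) : ℝ) = (Nat.card (GK K ⧸ U.toSubgroup) : ℝ) - 1 / 2 := by
    rw [hδ]
    field_simp
  linarith

end dens

/-- the condition on `q`-th powers at `g` -/
def AmongQ {G k : Type} [Group G] [Field k] {n m : ℕ} (q : ℕ) (ρ : G →* GL (Fin n) k) (θ : G →* GL (Fin m) k)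
    (g : G) : Prop :=
  ∀ x, (ρ g : Matrix (Fin n) (Fin n) k).charpoly.IsRoot x →
    ∃ y, (θ g : Matrix (Fin m) (Fin m) k).charpoly.IsRoot y ∧ x ^ q = y ^ q

theorem root_pow {k : Type} [Field k] [IsAlgClosed k] {r : ℕ} (M : Matrix (Fin r) (Fin r) k) {q : ℕ} (hq : 0 < q)
    (z : k) : (M ^ q).charpoly.IsRoot z ↔ ∃ x, M.charpoly.IsRoot x ∧ x ^ q = z := by
  rw [← Matrix.mem_spectrum_iff_isRoot_charpoly, spectrum.map_pow_of_pos _ hq, Set.mem_image]
  constructor
  · rintro ⟨x, hx, rfl⟩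
    exact ⟨x, Matrix.mem_spectrum_iff_isRoot_charpoly.1 hx, rfl⟩
  · rintro ⟨x, hx, rfl⟩
    exact ⟨x, Matrix.mem_spectrum_iff_isRoot_charpoly.2 hx, rfl⟩

theorem amongQ_iff {G k : Type} [Group G] [Field k] [IsAlgClosed k] {n m : ℕ} {q : ℕ} (hq : 0 < q)
    (ρ : G →* GL (Fin n) k) (θ : G →* GL (Fin m) k) (g : G) : AmongQ q ρ θ g ↔ Among ρ θ (g ^ q) := by
  have e1 : (ρ (g ^ q) : Matrix (Fin n) (Fin n) k) = (ρ g : Matrix (Fin n) (Fin n) k) ^ q := by
    rw [map_pow, Units.val_pow_eq_pow_val]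
  have e2 : (θ (g ^ q) : Matrix (Fin m) (Fin m) k) = (θ g : Matrix (Fin m) (Fin m) k) ^ q := by
    rw [map_pow, Units.val_pow_eq_pow_val]
  constructor
  · intro h z hz
    rw [e1, root_pow _ hq] at hz
    rw [e2, root_pow _ hq]
    obtain ⟨x, hx, rfl⟩ := hz
    obtain ⟨y, hy, hxy⟩ := h x hx
    exact ⟨y, hy, hxy.symm⟩
  · intro h x hx
    have h1 := h (x ^ q) (by rw [e1, root_pow _ hq]; exact ⟨x, hx, rfl⟩)
    rw [e2, root_pow _ hq] at h1
    obtain ⟨y, hy, hxy⟩ := h1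
    exact ⟨y, hy, hxy.symm⟩

/-- the generic polynomial for `tr (χ_{θ^q} (ρ^q) ^ j)` -/
noncomputable def PQ (n m j q : ℕ) : MvPolynomial ((Fin n × Fin n) ⊕ (Fin m × Fin m)) ℤ :=
  ((aeval ((Matrix.of fun i l => MvPolynomial.X (Sum.inl (i, l)) :
      Matrix (Fin n) (Fin n) (MvPolynomial ((Fin n × Fin n) ⊕ (Fin m × Fin m)) ℤ)) ^ q)
    ((Matrix.of fun i l => MvPolynomial.X (Sum.inr (i, l)) :
      Matrix (Fin m) (Fin m) (MvPolynomial ((Fin n × Fin n) ⊕ (Fin m × Fin m)) ℤ)) ^ q).charpoly) ^ j).trace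

theorem val_PQ {G k : Type} [Group G] [Field k] {n m : ℕ} (ρ : G →* GL (Fin n) k) (θ : G →* GL (Fin m) k)
    (j q : ℕ) (g : G) : val ρ θ (PQ n m j q) g = val ρ θ (PP n m j) (g ^ q) := by
  let f : MvPolynomial ((Fin n × Fin n) ⊕ (Fin m × Fin m)) ℤ →+* k :=
    (Pi.evalRingHom (fun _ : G => k) g).comp (MvPolynomial.eval₂Hom (Int.castRingHom (G → k)) (phi ρ θ))
  have e1 : ((Matrix.of fun i l => MvPolynomial.X (Sum.inl (i, l)) :
      Matrix (Fin n) (Fin n) (MvPolynomial ((Fin n × Fin n) ⊕ (Fin m × Fin m)) ℤ)) ^ q).map f =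
      (ρ (g ^ q) : Matrix (Fin n) (Fin n) k) := by
    rw [map_pow'' f, map_pow, Units.val_pow_eq_pow_val]
    congr 1
    ext i l
    show (MvPolynomial.eval₂Hom (Int.castRingHom (G → k)) (phi ρ θ)) (MvPolynomial.X (Sum.inl (i, l))) g = _
    rw [MvPolynomial.eval₂Hom_X']
    rfl
  have e2 : ((Matrix.of fun i l => MvPolynomial.X (Sum.inr (i, l)) :
      Matrix (Fin m) (Fin m) (MvPolynomial ((Fin n × Fin n) ⊕ (Fin m × Fin m)) ℤ)) ^ q).map f =
      (θ (g ^ q) : Matrix (Fin m) (Fin m) k) := by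
    rw [map_pow'' f, map_pow, Units.val_pow_eq_pow_val]
    congr 1
    ext i l
    show (MvPolynomial.eval₂Hom (Int.castRingHom (G → k)) (phi ρ θ)) (MvPolynomial.X (Sum.inr (i, l))) g = _
    rw [MvPolynomial.eval₂Hom_X']
    rfl
  have h := map_poly f ((Matrix.of fun i l => MvPolynomial.X (Sum.inl (i, l)) :
      Matrix (Fin n) (Fin n) (MvPolynomial ((Fin n × Fin n) ⊕ (Fin m × Fin m)) ℤ)) ^ q)
      ((Matrix.of fun i l => MvPolynomial.X (Sum.inr (i, l)) :
      Matrix (Fin m) (Fin m) (MvPolynomial ((Fin n × Fin n) ⊕ (Fin m × Fin m)) ℤ)) ^ q) j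
  rw [e1, e2] at h
  rw [val_PP, ← h]
  show f (PQ n m j q) = _
  unfold PQ
  rw [Matrix.trace, Matrix.trace, map_sum]
  rfl

open Pool.Agent.Y800 (GQ ZBar InInertia IsGeomFrob) in
/-- **finitely many primes suffice**, for powers -/
theorem roots_of_finite_pow (n m : ℕ) (U : Subgroup GQ) (hU : IsOpen (U : Set GQ)) (S : Finset ℕ)
    (hS : ∀ p ∈ S, p.Prime)
    (hram : ∀ p : ℕ, p.Prime → p ∉ S → ∀ Q : Ideal ZBar, Q.IsMaximal → (p : ZBar) ∈ Q →
      ∀ τ : GQ, InInertia Q τ → τ ∈ U) (ℓ : ℕ) [Fact ℓ.Prime] (e q : ℕ) (hq : 0 < q) :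
    ∃ 𝒯 : Finset ℕ, (∀ p ∈ 𝒯, p.Prime ∧ p ∉ S) ∧ ∀ (k : Type) [NormedField k] [IsAlgClosed k]
      [NormedAlgebra ℚ_[ℓ] k] (ρ : U →* GL (Fin n) k) (θ : U →* GL (Fin m) k), Continuous ρ → Continuous θ →
      (∀ p, p.Prime → p ∉ S → Unr ρ p ∧ Unr θ p) →
      ∀ (E : IntermediateField ℚ_[ℓ] k) [FiniteDimensional ℚ_[ℓ] E], finrank ℚ_[ℓ] E ≤ e →
      (∀ g, (ρ g : Matrix (Fin n) (Fin n) k).trace ∈ E) →
      (∀ g i, (θ g : Matrix (Fin m) (Fin m) k).charpoly.coeff i ∈ E) →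
      (∀ p ∈ 𝒯, ∀ Q : Ideal ZBar, Q.IsMaximal → (p : ZBar) ∈ Q → ∀ σ : U, IsGeomFrob p Q σ.1 →
        AmongQ q ρ θ σ) → ∀ g, Among ρ θ (g ^ q) := by
  choose 𝒯 h𝒯 hD using fun j : ℕ => prime_set (PQ n m j q) U hU S hS hram ℓ e
  refine ⟨(Finset.range (n + 1)).biUnion 𝒯, ?_, ?_⟩
  · intro p hp
    obtain ⟨j, _, hj⟩ := Finset.mem_biUnion.1 hp
    exact h𝒯 j p hj
  · intro k _ _ _ ρ θ hρ hθ hu E _ he hE1 hE2 hF
    haveI : CharZero k := charZero_of_injective_algebraMap (algebraMap ℚ_[ℓ] k).injective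
    have key : ∀ j, 1 ≤ j → j ≤ n → ∀ g, val ρ θ (PQ n m j q) g = 0 := by
      intro j hj1 hj2
      refine hD j k ρ θ hρ hθ hu ?_ (Subalgebra.toSubmodule E.toSubalgebra) he ?_ ?_
      · intro g h
        rw [val_PQ, val_PQ]
        have e3 : (g * h) ^ q = g * (h * g) ^ q * g⁻¹ := by
          have e4 : g * h = g * (h * g) * g⁻¹ := by group
          conv_lhs => rw [e4]
          exact conj_pow
        rw [e3, val_comm, inv_mul_cancel_left]
      · intro g
        show val ρ θ (PQ n m j q) g ∈ E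
        rw [val_PQ, val_PP']
        refine sum_mem fun i _ => mul_mem ?_ (hE1 _)
        have h1 : (θ (g ^ q) : Matrix (Fin m) (Fin m) k).charpoly ∈ Polynomial.lifts (algebraMap E k) :=
          (Polynomial.lifts_iff_coeff_lifts _).2 fun i => ⟨⟨_, hE2 (g ^ q) i⟩, rfl⟩
        have h2 := pow_mem h1 j
        obtain ⟨x, hx⟩ := (Polynomial.lifts_iff_coeff_lifts _).1 h2 i
        rw [← hx]
        exact x.2
      · intro p hp Q hQ hpQ σ hσ
        have h1 := hF p (Finset.mem_biUnion.2 ⟨j, Finset.mem_range.2 (by omega), hp⟩) Q hQ hpQ σ hσ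
        rw [amongQ_iff hq, among_iff_val] at h1
        rw [val_PQ]
        exact h1 j hj1 hj2
    intro g
    rw [among_iff_val]
    intro j hj1 hj2
    rw [← val_PQ]
    exact key j hj1 hj2 g

end Pool.Agent.X289.EI.FS
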