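import Pool.Agent.X289.EI.Tor

/-! A bounded number of words suffices. -/

set_option autoImplicit false
set_option linter.all false

namespace Pool.Agent.X289.EI.FS

open Module

section word

variable {G k : Type} [Group G] [Field k]

/-- the span of the translates by short words -/
def UU (f : G → k) (T : Set G) (L : ℕ) : Submodule k (G → k) :=
  Submodule.span k {φ | ∃ w : List G, (∀ x ∈ w, x ∈ T) ∧ w.length ≤ L ∧ φ = Rt w.prod f}

theorem UU_mono (f : G → k) (T : Set G) {L L' : ℕ} (h : L ≤ L') : UU f T L ≤ UU f T L' :=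
  Submodule.span_mono fun _ ⟨w, h1, h2, h3⟩ => ⟨w, h1, h2.trans h, h3⟩

theorem UU_le (W : Submodule k (G → k)) (hW : ∀ h, ∀ f ∈ W, Rt h f ∈ W) {f : G → k} (hf : f ∈ W) (T : Set G)
    (L : ℕ) : UU f T L ≤ W :=
  Submodule.span_le.2 fun _ ⟨w, _, _, h3⟩ => by rw [h3]; exact hW _ _ hf

theorem UU_step (f : G → k) (T : Set G) (L : ℕ) (t : G) (ht : t ∈ T) (φ : G → k) (hφ : φ ∈ UU f T L) :
    Rt t φ ∈ UU f T (L + 1) := by
  have h1 : UU f T L ≤ (UU f T (L + 1)).comap (Rt t).toLinearMap := by
    refine Submodule.span_le.2 ?_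
    rintro _ ⟨w, h1, h2, rfl⟩
    refine Submodule.subset_span ⟨t :: w, ?_, ?_, ?_⟩
    · intro x hx
      rcases List.mem_cons.1 hx with rfl | hx
      · exact ht
      · exact h1 x hx
    · rw [List.length_cons]
      omega
    · funext x
      show f (x * t * w.prod) = f (x * (t :: w).prod)
      rw [List.prod_cons, mul_assoc]
  exact h1 hφ

theorem word_bound (W : Submodule k (G → k)) [FiniteDimensional k W] (hW : ∀ h, ∀ f ∈ W, Rt h f ∈ W) {f : G → k}
    (hf : f ∈ W) (T : Set G)
    (h : ∀ w : List G, (∀ x ∈ w, x ∈ T) → w.length ≤ finrank k W → f w.prod = 0) (w : List G)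
    (hw : ∀ x ∈ w, x ∈ T) : f w.prod = 0 := by
  have hfd : ∀ L, FiniteDimensional k (UU f T L) := fun L =>
    Submodule.finiteDimensional_of_le (UU_le W hW hf T L)
  have h1 : ∀ L, (∃ i < L, UU f T (i + 1) ≤ UU f T i) ∨ L ≤ finrank k (UU f T L) := by
    intro L
    induction L with
    | zero => exact Or.inr (Nat.zero_le _)
    | succ L ih =>
      rcases ih with ⟨i, hi, hi2⟩ | ih
      · exact Or.inl ⟨i, by omega, hi2⟩
      · by_cases hle : UU f T (L + 1) ≤ UU f T L
        · exact Or.inl ⟨L, by omega, hle⟩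
        · right
          have hlt : UU f T L < UU f T (L + 1) := lt_of_le_not_ge (UU_mono f T (Nat.le_succ L)) hle
          haveI := hfd (L + 1)
          have := Submodule.finrank_lt_finrank_of_lt hlt
          omega
  obtain ⟨i, hi, hi2⟩ : ∃ i < finrank k W + 1, UU f T (i + 1) ≤ UU f T i := by
    rcases h1 (finrank k W + 1) with h2 | h2
    · exact h2
    · exfalso
      have h3 : finrank k (UU f T (finrank k W + 1)) ≤ finrank k W :=
        Submodule.finrank_mono (UU_le W hW hf T _)
      omega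
  have h2 : ∀ w : List G, (∀ x ∈ w, x ∈ T) → Rt w.prod f ∈ UU f T i := by
    intro w
    induction w with
    | nil =>
      intro _
      exact Submodule.subset_span ⟨[], by simp, Nat.zero_le _, rfl⟩
    | cons t w ih =>
      intro hw
      have h3 := hi2 (UU_step f T i t (hw t (List.mem_cons_self)) _
        (ih fun x hx => hw x (List.mem_cons_of_mem _ hx)))
      have e : Rt (t :: w).prod f = Rt t (Rt w.prod f) := by
        funext x
        show f (x * (t :: w).prod) = f (x * t * w.prod)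
        rw [List.prod_cons, mul_assoc]
      rw [e]
      exact h3
  have h4 : ∀ φ ∈ UU f T i, φ 1 = 0 := by
    intro φ hφ
    have h5 : UU f T i ≤ LinearMap.ker (LinearMap.proj (R := k) (φ := fun _ : G => k) 1) := by
      refine Submodule.span_le.2 ?_
      rintro _ ⟨w, hw1, hw2, rfl⟩
      show f (1 * w.prod) = 0
      rw [one_mul]
      exact h w hw1 (by omega)
    exact h5 hφ
  have h6 := h4 _ (h2 w hw)
  have h7 : f (1 * w.prod) = 0 := h6
  rwa [one_mul] at h7

end word

/-- **a bounded number of words suffices** -/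
theorem words (n m q : ℕ) (hq : 0 < q) : ∃ L : ℕ, ∀ (G k : Type) [Group G] [TopologicalSpace G] [IsTopologicalGroup G]
    [Field k] [IsAlgClosed k] [CharZero k] [TopologicalSpace k] [IsTopologicalRing k] [T2Space k]
    (ρ : G →* GL (Fin n) k) (θ : G →* GL (Fin m) k), Continuous ρ → Continuous θ → ∀ T : Set G,
    Dense (Submonoid.closure T : Set G) →
    (∀ w : List G, (∀ x ∈ w, x ∈ T) → w.length ≤ L → AmongQ q ρ θ w.prod) → ∀ g, Among ρ θ (g ^ q) := by
  choose d hd using fun j : ℕ => ev_mem_pow (PQ n m j q)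
  refine ⟨∑ j ∈ Finset.range (n + 1), (1 + (n * n + m * m)) ^ d j, ?_⟩
  intro G k _ _ _ _ _ _ _ _ _ ρ θ hρ hθ T hT h g
  rw [among_iff_val]
  intro j hj1 hj2
  rw [← val_PQ]
  have hmem : val ρ θ (PQ n m j q) ∈ VV ρ θ ^ d j :=
    hd j k (G → k) (VV ρ θ) (VV_one ρ θ) (phi ρ θ) (VV_phi ρ θ)
  haveI := (VV_fin ρ θ (d j)).1
  have hle : finrank k (VV ρ θ ^ d j : Submodule k (G → k)) ≤
      ∑ j ∈ Finset.range (n + 1), (1 + (n * n + m * m)) ^ d j :=
    (VV_fin ρ θ (d j)).2.trans (Finset.single_le_sum (f := fun j => (1 + (n * n + m * m)) ^ d j)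
      (fun _ _ => Nat.zero_le _) (Finset.mem_range.2 (by omega)))
  have hw : ∀ w : List G, (∀ x ∈ w, x ∈ T) → val ρ θ (PQ n m j q) w.prod = 0 := by
    refine word_bound (VV ρ θ ^ d j : Submodule k (G → k)) (fun h => map_pow_le _ h (VV_Rt ρ θ h) (d j)) hmem T ?_
    intro w hw1 hw2
    have h1 := h w hw1 (hw2.trans hle)
    rw [amongQ_iff hq, among_iff_val] at h1
    rw [val_PQ]
    exact h1 j hj1 hj2
  have hcont : Continuous (val ρ θ (PQ n m j q)) := by
    refine ev_cont _ (phi ρ θ) fun s => ?_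
    rcases s with s | s
    · exact (Units.continuous_val.comp hρ).matrix_elem s.1 s.2
    · exact (Units.continuous_val.comp hθ).matrix_elem s.1 s.2
  have hcl : IsClosed {g | val ρ θ (PQ n m j q) g = 0} := isClosed_eq hcont continuous_const
  have hsub : (Submonoid.closure T : Set G) ⊆ {g | val ρ θ (PQ n m j q) g = 0} := by
    intro x hx
    obtain ⟨w, hw1, hw2⟩ := Submonoid.exists_list_of_mem_closure hx
    show val ρ θ (PQ n m j q) x = 0
    rw [← hw2]
    exact hw w hw1
  exact hcl.closure_subset_iff.2 hsub (hT g)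

end Pool.Agent.X289.EI.FS
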